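import Pool.Agent.MMS6.Defs

/-!
Multilinear interpolation of the corner values, the effect of the splits, and the bounds.
-/

set_option autoImplicit false

namespace Pool.Agent.MMS6

/-- Value at the (projective) point with weights `x0 : x1`, `y0 : y1`, `z0 : z1`. -/
def V8.ev (v : V8) (x0 x1 y0 y1 z0 z1 : ℝ) : ℝ :=
  v.a0 * (x0 * y0 * z0) + v.a1 * (x0 * y0 * z1) + v.a2 * (x0 * y1 * z0) +
    v.a3 * (x0 * y1 * z1) + v.a4 * (x1 * y0 * z0) + v.a5 * (x1 * y0 * z1) +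
    v.a6 * (x1 * y1 * z0) + v.a7 * (x1 * y1 * z1)

theorem V8.ev_xl (v : V8) (x0 x1 y0 y1 z0 z1 : ℝ) :
    v.xl.ev (x0 - x1) (2 * x1) y0 y1 z0 z1 = 2 * v.ev x0 x1 y0 y1 z0 z1 := by
  simp only [V8.ev, V8.xl]; push_cast; ring

theorem V8.ev_xr (v : V8) (x0 x1 y0 y1 z0 z1 : ℝ) :
    v.xr.ev (2 * x0) (x1 - x0) y0 y1 z0 z1 = 2 * v.ev x0 x1 y0 y1 z0 z1 := by
  simp only [V8.ev, V8.xr]; push_cast; ring

theorem V8.ev_yl (v : V8) (x0 x1 y0 y1 z0 z1 : ℝ) :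
    v.yl.ev x0 x1 (y0 - y1) (2 * y1) z0 z1 = 2 * v.ev x0 x1 y0 y1 z0 z1 := by
  simp only [V8.ev, V8.yl]; push_cast; ring

theorem V8.ev_yr (v : V8) (x0 x1 y0 y1 z0 z1 : ℝ) :
    v.yr.ev x0 x1 (2 * y0) (y1 - y0) z0 z1 = 2 * v.ev x0 x1 y0 y1 z0 z1 := by
  simp only [V8.ev, V8.yr]; push_cast; ring

theorem V8.ev_zl (v : V8) (x0 x1 y0 y1 z0 z1 : ℝ) :
    v.zl.ev x0 x1 y0 y1 (z0 - z1) (2 * z1) = 2 * v.ev x0 x1 y0 y1 z0 z1 := by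
  simp only [V8.ev, V8.zl]; push_cast; ring

theorem V8.ev_zr (v : V8) (x0 x1 y0 y1 z0 z1 : ℝ) :
    v.zr.ev x0 x1 y0 y1 (2 * z0) (z1 - z0) = 2 * v.ev x0 x1 y0 y1 z0 z1 := by
  simp only [V8.ev, V8.zr]; push_cast; ring

/-- All corner values are at most `b`. -/
def V8.Le (v : V8) (b : ℕ) : Prop :=
  v.a0 ≤ b ∧ v.a1 ≤ b ∧ v.a2 ≤ b ∧ v.a3 ≤ b ∧ v.a4 ≤ b ∧ v.a5 ≤ b ∧ v.a6 ≤ b ∧ v.a7 ≤ b

def St.Le (s : St) (b : ℕ) : Prop :=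
  s.S.Le b ∧ s.T.Le b ∧ s.A.Le b ∧ s.B.Le b ∧ s.D.Le b

theorem V8.Le.xl {v : V8} {b : ℕ} (h : v.Le b) : v.xl.Le (2 * b) := by
  obtain ⟨h0, h1, h2, h3, h4, h5, h6, h7⟩ := h
  simp only [V8.Le, V8.xl]; omega

theorem V8.Le.xr {v : V8} {b : ℕ} (h : v.Le b) : v.xr.Le (2 * b) := by
  obtain ⟨h0, h1, h2, h3, h4, h5, h6, h7⟩ := h
  simp only [V8.Le, V8.xr]; omega

theorem V8.Le.yl {v : V8} {b : ℕ} (h : v.Le b) : v.yl.Le (2 * b) := by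
  obtain ⟨h0, h1, h2, h3, h4, h5, h6, h7⟩ := h
  simp only [V8.Le, V8.yl]; omega

theorem V8.Le.yr {v : V8} {b : ℕ} (h : v.Le b) : v.yr.Le (2 * b) := by
  obtain ⟨h0, h1, h2, h3, h4, h5, h6, h7⟩ := h
  simp only [V8.Le, V8.yr]; omega

theorem V8.Le.zl {v : V8} {b : ℕ} (h : v.Le b) : v.zl.Le (2 * b) := by
  obtain ⟨h0, h1, h2, h3, h4, h5, h6, h7⟩ := h
  simp only [V8.Le, V8.zl]; omega

theorem V8.Le.zr {v : V8} {b : ℕ} (h : v.Le b) : v.zr.Le (2 * b) := by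
  obtain ⟨h0, h1, h2, h3, h4, h5, h6, h7⟩ := h
  simp only [V8.Le, V8.zr]; omega

theorem St.Le.map {s : St} {b c : ℕ} (f : V8 → V8) (hf : ∀ v : V8, v.Le b → (f v).Le c)
    (h : s.Le b) : (s.map f).Le c :=
  ⟨hf _ h.1, hf _ h.2.1, hf _ h.2.2.1, hf _ h.2.2.2.1, hf _ h.2.2.2.2⟩

end Pool.Agent.MMS6
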