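import Pool.Agent.MMS6.Digits
import Pool.Agent.MMS6.Weights

/-!
The comparison of packed corner values.

`V8.pack v` has the digits `a0, a4, a2, a6, a1, a5, a3, a7` at the positions
`0, 1, 5, 6, 25, 26, 30, 31` (all other digits are `0`). For `geq_pack` use `digits_test` with a
list of 32 triples.
-/

set_option autoImplicit false

namespace Pool.Agent.MMS6

/-- The list of 32 triples with the digits at the corner positions. -/
private def lst (t0 t1 t2 t3 t4 t5 t6 t7 : ℕ × ℕ × ℕ) : List (ℕ × ℕ × ℕ) :=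
  t0 :: t4 :: (List.replicate 3 (0, 0, 0) ++ t2 :: t6 :: (List.replicate 18 (0, 0, 0) ++
    t1 :: t5 :: (List.replicate 3 (0, 0, 0) ++ t3 :: t7 :: [])))

private theorem val_zeros (f : ℕ × ℕ × ℕ → ℕ) (h0 : f (0, 0, 0) = 0) (n : ℕ)
    (L : List (ℕ × ℕ × ℕ)) :
    val f (List.replicate n (0, 0, 0) ++ L) = (2 ^ W) ^ n * val f L := by
  induction n with
  | zero => simp
  | succ n ih =>
    rw [List.replicate_succ, List.cons_append, val_cons, h0, ih, pow_succ]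
    ring

private theorem val_lst (f : ℕ × ℕ × ℕ → ℕ) (h0 : f (0, 0, 0) = 0)
    (t0 t1 t2 t3 t4 t5 t6 t7 : ℕ × ℕ × ℕ) :
    val f (lst t0 t1 t2 t3 t4 t5 t6 t7) =
      f t0 + f t4 * 2 ^ W + f t2 * 2 ^ (5 * W) + f t6 * 2 ^ (6 * W) + f t1 * 2 ^ (25 * W) +
        f t5 * 2 ^ (26 * W) + f t3 * 2 ^ (30 * W) + f t7 * 2 ^ (31 * W) := by
  have hn : val f [] = 0 := by simp [val]
  have e : ∀ n : ℕ, 2 ^ (n * W) = (2 ^ W) ^ n := fun n => by rw [Nat.mul_comm, pow_mul]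
  rw [e 5, e 6, e 25, e 26, e 30, e 31]
  unfold lst
  rw [val_cons, val_cons, val_zeros f h0, val_cons, val_cons, val_zeros f h0, val_cons, val_cons,
    val_zeros f h0, val_cons, val_cons, hn]
  generalize 2 ^ W = B
  ring

/-- The packed comparison compares the corner values. -/
theorem geq_pack {c : ℕ} {u v w : V8} {b : ℕ} (hu : u.Le b) (hv : v.Le b) (hw : w.Le b)
    (hb : 2 * b < 2 ^ (W - 1)) (hc : c * b < 2 ^ (W - 1))
    (h : geq c u.pack v.pack w.pack = true) :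
    c * w.a0 ≤ u.a0 + v.a0 ∧ c * w.a1 ≤ u.a1 + v.a1 ∧ c * w.a2 ≤ u.a2 + v.a2 ∧
    c * w.a3 ≤ u.a3 + v.a3 ∧ c * w.a4 ≤ u.a4 + v.a4 ∧ c * w.a5 ≤ u.a5 + v.a5 ∧
    c * w.a6 ≤ u.a6 + v.a6 ∧ c * w.a7 ≤ u.a7 + v.a7 := by
  obtain ⟨u0, u1, u2, u3, u4, u5, u6, u7⟩ := hu
  obtain ⟨v0, v1, v2, v3, v4, v5, v6, v7⟩ := hv
  obtain ⟨w0, w1, w2, w3, w4, w5, w6, w7⟩ := hw
  have key : ∀ x y z : ℕ, x ≤ b → y ≤ b → z ≤ b →
      x + y < 2 ^ (W - 1) ∧ c * z < 2 ^ (W - 1) := by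
    intro x y z hx hy hz
    exact ⟨by omega, lt_of_le_of_lt (Nat.mul_le_mul_left c hz) hc⟩
  have hh := Nat.eq_of_beq_eq_true h
  have hL := digits_test (lst (2 ^ (W - 1), u.a0 + v.a0, c * w.a0)
    (2 ^ (W - 1), u.a1 + v.a1, c * w.a1) (2 ^ (W - 1), u.a2 + v.a2, c * w.a2)
    (2 ^ (W - 1), u.a3 + v.a3, c * w.a3) (2 ^ (W - 1), u.a4 + v.a4, c * w.a4)
    (2 ^ (W - 1), u.a5 + v.a5, c * w.a5) (2 ^ (W - 1), u.a6 + v.a6, c * w.a6)
    (2 ^ (W - 1), u.a7 + v.a7, c * w.a7)) (by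
      intro t ht
      simp only [lst, List.mem_cons, List.mem_append, List.mem_replicate, List.not_mem_nil,
        or_false] at ht
      rcases ht with rfl | rfl | ⟨-, rfl⟩ | rfl | rfl | ⟨-, rfl⟩ | rfl | rfl | ⟨-, rfl⟩ | rfl | rfl
      · exact Or.inl ⟨rfl, key _ _ _ u0 v0 w0⟩
      · exact Or.inl ⟨rfl, key _ _ _ u4 v4 w4⟩
      · exact Or.inr ⟨rfl, rfl, rfl⟩
      · exact Or.inl ⟨rfl, key _ _ _ u2 v2 w2⟩
      · exact Or.inl ⟨rfl, key _ _ _ u6 v6 w6⟩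
      · exact Or.inr ⟨rfl, rfl, rfl⟩
      · exact Or.inl ⟨rfl, key _ _ _ u1 v1 w1⟩
      · exact Or.inl ⟨rfl, key _ _ _ u5 v5 w5⟩
      · exact Or.inr ⟨rfl, rfl, rfl⟩
      · exact Or.inl ⟨rfl, key _ _ _ u3 v3 w3⟩
      · exact Or.inl ⟨rfl, key _ _ _ u7 v7 w7⟩) (by
      rw [val_lst _ rfl, val_lst _ rfl, val_lst _ rfl]
      have hm : 2 ^ (W - 1) + 2 ^ (W - 1) * 2 ^ W + 2 ^ (W - 1) * 2 ^ (5 * W) +
          2 ^ (W - 1) * 2 ^ (6 * W) + 2 ^ (W - 1) * 2 ^ (25 * W) + 2 ^ (W - 1) * 2 ^ (26 * W) +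
          2 ^ (W - 1) * 2 ^ (30 * W) + 2 ^ (W - 1) * 2 ^ (31 * W) = bias8 := by
        unfold bias8
        generalize 2 ^ W = B0
        generalize 2 ^ (5 * W) = B5
        generalize 2 ^ (6 * W) = B6
        generalize 2 ^ (25 * W) = B25
        generalize 2 ^ (26 * W) = B26
        generalize 2 ^ (30 * W) = B30
        generalize 2 ^ (31 * W) = B31
        ring
      have hx : (u.a0 + v.a0) + (u.a4 + v.a4) * 2 ^ W + (u.a2 + v.a2) * 2 ^ (5 * W) +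
          (u.a6 + v.a6) * 2 ^ (6 * W) + (u.a1 + v.a1) * 2 ^ (25 * W) +
          (u.a5 + v.a5) * 2 ^ (26 * W) + (u.a3 + v.a3) * 2 ^ (30 * W) +
          (u.a7 + v.a7) * 2 ^ (31 * W) = u.pack + v.pack := by
        unfold V8.pack
        generalize 2 ^ W = B0
        generalize 2 ^ (5 * W) = B5
        generalize 2 ^ (6 * W) = B6
        generalize 2 ^ (25 * W) = B25
        generalize 2 ^ (26 * W) = B26
        generalize 2 ^ (30 * W) = B30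
        generalize 2 ^ (31 * W) = B31
        ring
      have hy : (c * w.a0) + (c * w.a4) * 2 ^ W + (c * w.a2) * 2 ^ (5 * W) +
          (c * w.a6) * 2 ^ (6 * W) + (c * w.a1) * 2 ^ (25 * W) +
          (c * w.a5) * 2 ^ (26 * W) + (c * w.a3) * 2 ^ (30 * W) +
          (c * w.a7) * 2 ^ (31 * W) = c * w.pack := by
        unfold V8.pack
        generalize 2 ^ W = B0
        generalize 2 ^ (5 * W) = B5
        generalize 2 ^ (6 * W) = B6
        generalize 2 ^ (25 * W) = B25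
        generalize 2 ^ (26 * W) = B26
        generalize 2 ^ (30 * W) = B30
        generalize 2 ^ (31 * W) = B31
        ring
      simp only []
      rw [hm, hx, hy]
      exact hh)
  refine ⟨?_, ?_, ?_, ?_, ?_, ?_, ?_, ?_⟩
  · exact hL (2 ^ (W - 1), u.a0 + v.a0, c * w.a0) (by simp [lst])
  · exact hL (2 ^ (W - 1), u.a1 + v.a1, c * w.a1) (by simp [lst])
  · exact hL (2 ^ (W - 1), u.a2 + v.a2, c * w.a2) (by simp [lst])
  · exact hL (2 ^ (W - 1), u.a3 + v.a3, c * w.a3) (by simp [lst])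
  · exact hL (2 ^ (W - 1), u.a4 + v.a4, c * w.a4) (by simp [lst])
  · exact hL (2 ^ (W - 1), u.a5 + v.a5, c * w.a5) (by simp [lst])
  · exact hL (2 ^ (W - 1), u.a6 + v.a6, c * w.a6) (by simp [lst])
  · exact hL (2 ^ (W - 1), u.a7 + v.a7, c * w.a7) (by simp [lst])

/-- The comparison for all points of the cube. -/
theorem geq_sound {c : ℕ} {u v w : V8} {b : ℕ} (hu : u.Le b) (hv : v.Le b) (hw : w.Le b)
    (hb : 2 * b < 2 ^ (W - 1)) (hc : c * b < 2 ^ (W - 1))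
    (h : geq c u.pack v.pack w.pack = true) {x0 x1 y0 y1 z0 z1 : ℝ}
    (hx0 : 0 < x0) (hx1 : 0 ≤ x1) (hy0 : 0 < y0) (hy1 : 0 ≤ y1) (hz0 : 0 < z0) (hz1 : 0 ≤ z1) :
    c * w.ev x0 x1 y0 y1 z0 z1 ≤ u.ev x0 x1 y0 y1 z0 z1 + v.ev x0 x1 y0 y1 z0 z1 := by
  obtain ⟨h0, h1, h2, h3, h4, h5, h6, h7⟩ := geq_pack hu hv hw hb hc h
  have c0 : (c : ℝ) * w.a0 ≤ u.a0 + v.a0 := by exact_mod_cast h0
  have c1 : (c : ℝ) * w.a1 ≤ u.a1 + v.a1 := by exact_mod_cast h1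
  have c2 : (c : ℝ) * w.a2 ≤ u.a2 + v.a2 := by exact_mod_cast h2
  have c3 : (c : ℝ) * w.a3 ≤ u.a3 + v.a3 := by exact_mod_cast h3
  have c4 : (c : ℝ) * w.a4 ≤ u.a4 + v.a4 := by exact_mod_cast h4
  have c5 : (c : ℝ) * w.a5 ≤ u.a5 + v.a5 := by exact_mod_cast h5
  have c6 : (c : ℝ) * w.a6 ≤ u.a6 + v.a6 := by exact_mod_cast h6
  have c7 : (c : ℝ) * w.a7 ≤ u.a7 + v.a7 := by exact_mod_cast h7
  have p0 : 0 ≤ x0 * y0 * z0 := by positivity
  have p1 : 0 ≤ x0 * y0 * z1 := by positivity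
  have p2 : 0 ≤ x0 * y1 * z0 := by positivity
  have p3 : 0 ≤ x0 * y1 * z1 := by positivity
  have p4 : 0 ≤ x1 * y0 * z0 := by positivity
  have p5 : 0 ≤ x1 * y0 * z1 := by positivity
  have p6 : 0 ≤ x1 * y1 * z0 := by positivity
  have p7 : 0 ≤ x1 * y1 * z1 := by positivity
  have m0 := mul_le_mul_of_nonneg_right c0 p0
  have m1 := mul_le_mul_of_nonneg_right c1 p1
  have m2 := mul_le_mul_of_nonneg_right c2 p2
  have m3 := mul_le_mul_of_nonneg_right c3 p3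
  have m4 := mul_le_mul_of_nonneg_right c4 p4
  have m5 := mul_le_mul_of_nonneg_right c5 p5
  have m6 := mul_le_mul_of_nonneg_right c6 p6
  have m7 := mul_le_mul_of_nonneg_right c7 p7
  simp only [V8.ev]
  linarith

end Pool.Agent.MMS6
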