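import Pool.Agent.MMS6.Digits
import Pool.Agent.MMS6.Weights

/-!
Soundness of the test of a leaf.

For `v : V8` let `v.poly : MvPolynomial (Fin 3) ℕ` be
`a0 + a4 X + a2 Y + a6 X Y + a1 Z + a5 X Z + a3 Y Z + a7 X Y Z` (with `X = X 0`, `Y = X 1`,
`Z = X 2`). Its evaluation at `X = β`, `Y = β ^ 5`, `Z = β ^ 25` (`β = 2 ^ W`) is `v.pack`, its
evaluation at reals `x1 / x0`, `y1 / y0`, `z1 / z0`, multiplied by `x0 y0 z0`, is `v.ev`.

Let `P = (c.map C).ev (S.poly) ...` and `N = KB * evOne (S.poly) ...`, polynomials with natural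
coefficients. All their degrees in each variable are at most `4` (each monomial of the form has
degree four in `S, T, A, B, D`, which have degree at most one in each variable), and their
coefficients are at most the value at `(1, 1, 1)`, which is at most `92 * KB * (8 b) ^ 4`
(each `v.poly` is at most `8 b` at `(1,1,1)`, there are 46 monomials). Hence the evaluations at
`(β, β ^ 5, β ^ 25)` have the coefficients as digits (`Nat.ofDigits`, position `i + 5 j + 25 k`),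
and `leaf c s.pack = true` says by `digits_test` (with all mask digits `2 ^ (W - 1)`) that each
coefficient of `N` is at most the one of `P`. So `N ≤ P` at nonnegative reals, and both sides are
homogeneous of degree four in `S, T, A, B, D`.

Note: `test c S T A B D` unfolds to the comparison with
`evN c ... = c.ev S T A B D` (`simp only [evN, Nat.add_eq, Nat.mul_eq]`, `ring`) and
`evS ... = evOne S T A B D`.
-/

set_option autoImplicit false

namespace Pool.Agent.MMS6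

/-- All entries are at most `m`. -/
def Cf.Le (c : Cf ℕ) (m : ℕ) : Prop :=
  c.g0 ≤ m ∧ c.g1 ≤ m ∧ c.g2 ≤ m ∧ c.g3 ≤ m ∧ c.g4 ≤ m ∧ c.g5 ≤ m ∧ c.g6 ≤ m ∧ c.g7 ≤ m ∧
  c.g8 ≤ m ∧ c.g9 ≤ m ∧ c.a4 ≤ m ∧ c.b4 ≤ m ∧
  c.s0 ≤ m ∧ c.s1 ≤ m ∧ c.s2 ≤ m ∧ c.s3 ≤ m ∧ c.s4 ≤ m ∧ c.s5 ≤ m ∧ c.s6 ≤ m ∧ c.s7 ≤ m ∧
  c.t0 ≤ m ∧ c.t1 ≤ m ∧ c.t2 ≤ m ∧ c.t3 ≤ m ∧ c.t4 ≤ m ∧ c.t5 ≤ m ∧ c.t6 ≤ m ∧ c.t7 ≤ m ∧
  c.u0 ≤ m ∧ c.u1 ≤ m ∧ c.u2 ≤ m ∧ c.u3 ≤ m ∧ c.u4 ≤ m ∧ c.u5 ≤ m ∧
  c.v0 ≤ m ∧ c.v1 ≤ m ∧ c.v2 ≤ m ∧ c.v3 ≤ m ∧ c.v4 ≤ m ∧ c.v5 ≤ m ∧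
  c.x0 ≤ m ∧ c.x1 ≤ m ∧ c.x2 ≤ m ∧ c.y0 ≤ m ∧ c.y1 ≤ m ∧ c.y2 ≤ m

/-! ### Polynomials in three variables of degree at most `d` in each variable -/

private def Bd (d : ℕ) (p : MvPolynomial (Fin 3) ℕ) : Prop := ∀ i, p.degreeOf i ≤ d

private theorem Bd.add {d : ℕ} {p q : MvPolynomial (Fin 3) ℕ} (hp : Bd d p) (hq : Bd d q) :
    Bd d (p + q) := fun i =>
  (MvPolynomial.degreeOf_add_le i p q).trans (max_le (hp i) (hq i))

private theorem Bd.mul {d e : ℕ} {p q : MvPolynomial (Fin 3) ℕ} (hp : Bd d p) (hq : Bd e q) :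
    Bd (d + e) (p * q) := fun i =>
  (MvPolynomial.degreeOf_mul_le i p q).trans (Nat.add_le_add (hp i) (hq i))

private theorem Bd.C (d a : ℕ) : Bd d (MvPolynomial.C a) := fun i => by
  rw [MvPolynomial.degreeOf_C]; exact Nat.zero_le _

private theorem Bd.mulC {d a : ℕ} {q : MvPolynomial (Fin 3) ℕ} (hq : Bd d q) :
    Bd d (MvPolynomial.C a * q) := by
  have := (Bd.C 0 a).mul hq
  rwa [Nat.zero_add] at this

private theorem Bd.m1 {n : ℕ} {p q : MvPolynomial (Fin 3) ℕ} (hp : Bd 1 p) (hq : Bd n q) :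
    Bd (n + 1) (p * q) := by
  have := hp.mul hq
  rwa [Nat.add_comm] at this

private theorem Bd.r1 {n : ℕ} {p q : MvPolynomial (Fin 3) ℕ} (hp : Bd n p) (hq : Bd 1 q) :
    Bd (n + 1) (p * q) := hp.mul hq

private theorem Bd.m2 {n : ℕ} {p q : MvPolynomial (Fin 3) ℕ} (hp : Bd 2 p) (hq : Bd n q) :
    Bd (n + 2) (p * q) := by
  have := hp.mul hq
  rwa [Nat.add_comm] at this

private theorem Bd.m3 {n : ℕ} {p q : MvPolynomial (Fin 3) ℕ} (hp : Bd 3 p) (hq : Bd n q) :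
    Bd (n + 3) (p * q) := by
  have := hp.mul hq
  rwa [Nat.add_comm] at this

/-- The exponent of the monomial with the index `n`. -/
private noncomputable def mIdx (n : ℕ) : Fin 3 →₀ ℕ :=
  Finsupp.equivFunOnFinite.symm ![n % 5, n / 5 % 5, n / 25]

private theorem mIdx_0 (n : ℕ) : mIdx n 0 = n % 5 := rfl
private theorem mIdx_1 (n : ℕ) : mIdx n 1 = n / 5 % 5 := rfl
private theorem mIdx_2 (n : ℕ) : mIdx n 2 = n / 25 := rfl

private theorem mIdx_inj {m n : ℕ} (h : mIdx m = mIdx n) : m = n := by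
  have h0 := DFunLike.congr_fun h 0
  have h1 := DFunLike.congr_fun h 1
  have h2 := DFunLike.congr_fun h 2
  rw [mIdx_0, mIdx_0] at h0
  rw [mIdx_1, mIdx_1] at h1
  rw [mIdx_2, mIdx_2] at h2
  omega

private theorem eval_box {R : Type} [CommSemiring R] {p : MvPolynomial (Fin 3) ℕ} (hp : Bd 4 p)
    (x : Fin 3 → R) :
    p.eval₂ (Nat.castRingHom R) x = ∑ n ∈ Finset.range 125,
      ((p.coeff (mIdx n) : ℕ) : R) * (x 0 ^ (n % 5) * x 1 ^ (n / 5 % 5) * x 2 ^ (n / 25)) := by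
  rw [MvPolynomial.eval₂_eq']
  have hsub : p.support ⊆ (Finset.range 125).image mIdx := by
    intro m hm
    have h0 := (MvPolynomial.monomial_le_degreeOf 0 hm).trans (hp 0)
    have h1 := (MvPolynomial.monomial_le_degreeOf 1 hm).trans (hp 1)
    have h2 := (MvPolynomial.monomial_le_degreeOf 2 hm).trans (hp 2)
    rw [Finset.mem_image]
    refine ⟨m 0 + 5 * m 1 + 25 * m 2, ?_, ?_⟩
    · rw [Finset.mem_range]; omega
    · refine Finsupp.ext fun i => ?_
      fin_cases i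
      · change mIdx _ 0 = m 0
        rw [mIdx_0]; omega
      · change mIdx _ 1 = m 1
        rw [mIdx_1]; omega
      · change mIdx _ 2 = m 2
        rw [mIdx_2]; omega
  rw [Finset.sum_subset hsub, Finset.sum_image]
  · refine Finset.sum_congr rfl fun n _ => ?_
    rw [Fin.prod_univ_three, mIdx_0, mIdx_1, mIdx_2]
    rfl
  · intro a _ b _ hab
    exact mIdx_inj hab
  · intro m _ hm
    rw [MvPolynomial.notMem_support_iff] at hm
    rw [hm, map_zero, zero_mul]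

private theorem ofDigits_range (b n : ℕ) (f : ℕ → ℕ) :
    Nat.ofDigits b ((List.range n).map f) = ∑ i ∈ Finset.range n, f i * b ^ i := by
  induction n with
  | zero => simp
  | succ n ih =>
    rw [List.range_succ, List.map_append, Nat.ofDigits_append, ih, Finset.sum_range_succ]
    simp [mul_comm]

private theorem eval_pack {p : MvPolynomial (Fin 3) ℕ} (hp : Bd 4 p) (b : ℕ) :
    p.eval₂ (Nat.castRingHom ℕ) ![b, b ^ 5, b ^ 25] =
      Nat.ofDigits b ((List.range 125).map fun n => p.coeff (mIdx n)) := by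
  rw [eval_box hp, ofDigits_range]
  refine Finset.sum_congr rfl fun n _ => ?_
  have hn : n % 5 + 5 * (n / 5 % 5) + 25 * (n / 25) = n := by omega
  change ((p.coeff (mIdx n) : ℕ) : ℕ) * (b ^ (n % 5) * (b ^ 5) ^ (n / 5 % 5) *
    (b ^ 25) ^ (n / 25)) = _
  rw [← pow_mul, ← pow_mul, ← pow_add, ← pow_add, hn]
  rfl

private theorem coeff_le_one (p : MvPolynomial (Fin 3) ℕ) (m : Fin 3 →₀ ℕ) :
    p.coeff m ≤ p.eval₂ (Nat.castRingHom ℕ) ![1, 1, 1] := by
  rw [MvPolynomial.eval₂_eq']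
  by_cases hm : m ∈ p.support
  · have := Finset.single_le_sum (f := fun d => (Nat.castRingHom ℕ) (p.coeff d) *
      ∏ i, (![1, 1, 1] : Fin 3 → ℕ) i ^ d i) (fun _ _ => Nat.zero_le _) hm
    refine le_trans (le_of_eq ?_) this
    simp [Fin.prod_univ_three]
  · rw [MvPolynomial.notMem_support_iff] at hm
    rw [hm]; exact Nat.zero_le _

/-! ### The polynomial of the corner values -/

private noncomputable def V8.poly (v : V8) : MvPolynomial (Fin 3) ℕ :=
  MvPolynomial.C v.a0 + MvPolynomial.C v.a4 * MvPolynomial.X 0 +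
    MvPolynomial.C v.a2 * MvPolynomial.X 1 +
    MvPolynomial.C v.a6 * (MvPolynomial.X 0 * MvPolynomial.X 1) +
    MvPolynomial.C v.a1 * MvPolynomial.X 2 +
    MvPolynomial.C v.a5 * (MvPolynomial.X 0 * MvPolynomial.X 2) +
    MvPolynomial.C v.a3 * (MvPolynomial.X 1 * MvPolynomial.X 2) +
    MvPolynomial.C v.a7 * (MvPolynomial.X 0 * MvPolynomial.X 1 * MvPolynomial.X 2)

private theorem V8.poly_bd (v : V8) : Bd 1 v.poly := by
  have hX : ∀ i j : Fin 3, (MvPolynomial.X j : MvPolynomial (Fin 3) ℕ).degreeOf i =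
      if i = j then 1 else 0 := fun i j => MvPolynomial.degreeOf_X i j
  have h1 : ∀ j : Fin 3, Bd 1 (MvPolynomial.X j) := by
    intro j i
    rw [hX]; split_ifs <;> omega
  have h2 : ∀ j k : Fin 3, j ≠ k → Bd 1 (MvPolynomial.X j * MvPolynomial.X k) := by
    intro j k hjk i
    refine (MvPolynomial.degreeOf_mul_le _ _ _).trans ?_
    rw [hX, hX]
    split_ifs with a b
    · exact absurd (a.symm.trans b) hjk
    all_goals omega
  have h3 : Bd 1 (MvPolynomial.X 0 * MvPolynomial.X 1 * MvPolynomial.X 2) := by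
    intro i
    refine (MvPolynomial.degreeOf_mul_le _ _ _).trans ?_
    refine (Nat.add_le_add_right (MvPolynomial.degreeOf_mul_le _ _ _) _).trans ?_
    rw [hX, hX, hX]
    fin_cases i <;> simp
  unfold V8.poly
  exact ((((((((Bd.C 1 _).add (Bd.mulC (h1 0))).add (Bd.mulC (h1 1))).add
    (Bd.mulC (h2 0 1 (by decide)))).add (Bd.mulC (h1 2))).add (Bd.mulC (h2 0 2 (by decide)))).add
    (Bd.mulC (h2 1 2 (by decide)))).add (Bd.mulC h3))

private theorem V8.poly_pack (v : V8) :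
    v.poly.eval₂ (Nat.castRingHom ℕ) ![2 ^ W, (2 ^ W) ^ 5, (2 ^ W) ^ 25] = v.pack := by
  have e : ∀ n : ℕ, 2 ^ (n * W) = (2 ^ W) ^ n := fun n => by rw [Nat.mul_comm, pow_mul]
  unfold V8.pack
  rw [e 5, e 6, e 25, e 26, e 30, e 31]
  generalize 2 ^ W = B
  simp only [V8.poly, MvPolynomial.eval₂_add, MvPolynomial.eval₂_mul, MvPolynomial.eval₂_C,
    MvPolynomial.eval₂_X, Matrix.cons_val_zero, Matrix.cons_val_one, Matrix.cons_val]
  simp only [eq_natCast, Nat.cast_id]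
  ring

private theorem V8.poly_one {v : V8} {b : ℕ} (h : v.Le b) :
    v.poly.eval₂ (Nat.castRingHom ℕ) ![1, 1, 1] ≤ 8 * b := by
  obtain ⟨h0, h1, h2, h3, h4, h5, h6, h7⟩ := h
  simp only [V8.poly, MvPolynomial.eval₂_add, MvPolynomial.eval₂_mul, MvPolynomial.eval₂_C,
    MvPolynomial.eval₂_X, Matrix.cons_val_zero, Matrix.cons_val_one, Matrix.cons_val]
  simp only [eq_natCast, Nat.cast_id]
  omega

private theorem V8.poly_ev (v : V8) {x0 x1 y0 y1 z0 z1 : ℝ} (hx0 : 0 < x0) (hy0 : 0 < y0)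
    (hz0 : 0 < z0) :
    v.ev x0 x1 y0 y1 z0 z1 =
      (x0 * y0 * z0) * v.poly.eval₂ (Nat.castRingHom ℝ) ![x1 / x0, y1 / y0, z1 / z0] := by
  simp only [V8.poly, MvPolynomial.eval₂_add, MvPolynomial.eval₂_mul, MvPolynomial.eval₂_C,
    MvPolynomial.eval₂_X, Matrix.cons_val_zero, Matrix.cons_val_one, Matrix.cons_val]
  simp only [eq_natCast, V8.ev]
  field_simp
  ring

/-! ### The form -/

private theorem ev_hom {K L : Type} [CommSemiring K] [CommSemiring L] (f : K →+* L) (c : Cf K)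
    (S T A B D : K) : f (c.ev S T A B D) = (c.map f).ev (f S) (f T) (f A) (f B) (f D) := by
  simp only [Cf.ev, Cf.map, map_add, map_mul]

private theorem evOne_hom {K L : Type} [CommSemiring K] [CommSemiring L] (f : K →+* L)
    (S T A B D : K) : f (evOne S T A B D) = evOne (f S) (f T) (f A) (f B) (f D) := by
  simp only [evOne, map_add, map_mul]

private theorem ev_graded {K : Type} [CommSemiring K] (G : ℕ → K → Prop) (f : ℕ → K)
    (add : ∀ {d p q}, G d p → G d q → G d (p + q)) (mulC : ∀ {d a q}, G d q → G d (f a * q))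
    (m1 : ∀ {n p q}, G 1 p → G n q → G (n + 1) (p * q))
    (r1 : ∀ {n p q}, G n p → G 1 q → G (n + 1) (p * q))
    (m2 : ∀ {n p q}, G 2 p → G n q → G (n + 2) (p * q))
    (m3 : ∀ {n p q}, G 3 p → G n q → G (n + 3) (p * q))
    (c : Cf ℕ) {S T A B D : K} (hS : G 1 S) (hT : G 1 T)
    (hA : G 1 A) (hB : G 1 B) (hD : G 1 D) :
    G 4 ((c.map f).ev S T A B D) ∧ G 4 (evOne S T A B D) := by
  constructor
  · simp only [Cf.ev, Cf.map]
    repeat' first
      | exact hS | exact hT | exact hA | exact hB | exact hD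
      | refine add ?_ ?_
      | refine mulC ?_
      | refine m1 hS ?_ | refine m1 hT ?_ | refine m1 hA ?_ | refine m1 hB ?_
      | refine m1 hD ?_
      | refine r1 ?_ hS | refine r1 ?_ hT | refine r1 ?_ hA | refine r1 ?_ hB
      | refine r1 ?_ hD
      | refine m2 (m1 hS hS) ?_ | refine m2 (m1 hT hT) ?_
      | refine m2 (m1 hA hA) ?_ | refine m2 (m1 hB hB) ?_
      | refine m3 (r1 (m1 hS hS) hS) ?_ | refine m3 (r1 (m1 hT hT) hT) ?_
  · simp only [evOne]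
    repeat' first
      | exact hS | exact hT | exact hA | exact hB | exact hD
      | refine add ?_ ?_
      | refine m1 hS ?_ | refine m1 hT ?_ | refine m1 hA ?_ | refine m1 hB ?_
      | refine m1 hD ?_
      | refine r1 ?_ hS | refine r1 ?_ hT | refine r1 ?_ hA | refine r1 ?_ hB
      | refine r1 ?_ hD
      | refine m2 (m1 hS hS) ?_ | refine m2 (m1 hT hT) ?_
      | refine m2 (m1 hA hA) ?_ | refine m2 (m1 hB hB) ?_
      | refine m3 (r1 (m1 hS hS) hS) ?_ | refine m3 (r1 (m1 hT hT) hT) ?_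

private theorem ev_bd (c : Cf ℕ) {S T A B D : MvPolynomial (Fin 3) ℕ} (hS : Bd 1 S) (hT : Bd 1 T)
    (hA : Bd 1 A) (hB : Bd 1 B) (hD : Bd 1 D) :
    Bd 4 ((c.map MvPolynomial.C).ev S T A B D) ∧ Bd 4 (evOne S T A B D) :=
  ev_graded Bd MvPolynomial.C Bd.add Bd.mulC Bd.m1 Bd.r1 Bd.m2 Bd.m3 c hS hT hA hB hD

private theorem ev_le {c : Cf ℕ} {m M S T A B D : ℕ} (hc : c.Le m) (hS : S ≤ M) (hT : T ≤ M)
    (hA : A ≤ M) (hB : B ≤ M) (hD : D ≤ M) : c.ev S T A B D ≤ 46 * m * M ^ 4 := by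
  obtain ⟨g0, g1, g2, g3, g4, g5, g6, g7, g8, g9, a4, b4, s0, s1, s2, s3, s4, s5, s6, s7,
    t0, t1, t2, t3, t4, t5, t6, t7, u0, u1, u2, u3, u4, u5, v0, v1, v2, v3, v4, v5,
    x0, x1, x2, y0, y1, y2⟩ := hc
  calc c.ev S T A B D ≤ (⟨m, m, m, m, m, m, m, m, m, m, m, m, m, m, m, m, m, m, m, m, m, m, m, m,
      m, m, m, m, m, m, m, m, m, m, m, m, m, m, m, m, m, m, m, m, m, m⟩ : Cf ℕ).ev M M M M M := by
        simp only [Cf.ev]
        gcongr
    _ = 46 * m * M ^ 4 := by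
        simp only [Cf.ev]; ring

private theorem evOne_le {M S T A B D : ℕ} (hS : S ≤ M) (hT : T ≤ M)
    (hA : A ≤ M) (hB : B ≤ M) (hD : D ≤ M) : evOne S T A B D ≤ 46 * M ^ 4 := by
  calc evOne S T A B D ≤ evOne M M M M M := by
        simp only [evOne]
        gcongr
    _ = 46 * M ^ 4 := by
        simp only [evOne]; ring

private theorem ev_smul (c : Cf ℝ) (l S T A B D : ℝ) :
    c.ev (l * S) (l * T) (l * A) (l * B) (l * D) = l ^ 4 * c.ev S T A B D := by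
  simp only [Cf.ev]; ring

private theorem evOne_smul (l S T A B D : ℝ) :
    evOne (l * S) (l * T) (l * A) (l * B) (l * D) = l ^ 4 * evOne S T A B D := by
  simp only [evOne]; ring

private theorem test_iff {c : Cf ℕ} {S T A B D : ℕ} (h : test c S T A B D = true) :
    Nat.land (bias + c.ev S T A B D - KB * evOne S T A B D) bias = bias := by
  have h1 := Nat.eq_of_beq_eq_true h
  have e1 : evN c S T A B D (Nat.mul S S) (Nat.mul T T) (Nat.mul A A) (Nat.mul A B) (Nat.mul B B)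
      (Nat.mul D A) (Nat.mul D B) (Nat.mul D D) (Nat.mul (Nat.mul S S) S)
      (Nat.mul (Nat.mul T T) T) (Nat.mul (Nat.mul D D) D) (Nat.mul (Nat.mul D D) A)
      (Nat.mul (Nat.mul D D) B) (Nat.mul D (Nat.mul A A)) (Nat.mul D (Nat.mul A B))
      (Nat.mul D (Nat.mul B B)) (Nat.mul A (Nat.mul A A)) (Nat.mul A (Nat.mul A B))
      (Nat.mul A (Nat.mul B B)) (Nat.mul B (Nat.mul B B)) (Nat.mul (Nat.mul A A) (Nat.mul A A))
      (Nat.mul (Nat.mul B B) (Nat.mul B B)) = c.ev S T A B D := by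
    simp only [evN, Cf.ev, Nat.add_eq, Nat.mul_eq]
  have e2 : evS S T A B D (Nat.mul S S) (Nat.mul T T) (Nat.mul A A) (Nat.mul A B) (Nat.mul B B)
      (Nat.mul D A) (Nat.mul D B) (Nat.mul D D) (Nat.mul (Nat.mul S S) S)
      (Nat.mul (Nat.mul T T) T) (Nat.mul A (Nat.mul A A)) (Nat.mul B (Nat.mul B B))
      (Nat.mul (Nat.mul A A) (Nat.mul A A)) (Nat.mul (Nat.mul B B) (Nat.mul B B))
      (Nat.add (Nat.add (Nat.add (Nat.add (Nat.add (Nat.add (Nat.add (Nat.mul (Nat.mul D D) D)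
        (Nat.mul (Nat.mul D D) A)) (Nat.mul (Nat.mul D D) B)) (Nat.mul D (Nat.mul A A)))
        (Nat.mul D (Nat.mul A B))) (Nat.mul D (Nat.mul B B))) (Nat.mul A (Nat.mul A B)))
        (Nat.mul A (Nat.mul B B))) = evOne S T A B D := by
    simp only [evS, evOne, Nat.add_eq, Nat.mul_eq]
    ring
  rw [e1, e2] at h1
  exact h1

theorem leaf_sound {c : Cf ℕ} {s : St} {b : ℕ} (hs : s.Le b) (hc : c.Le (2 * KB))
    (hb : 92 * KB * (8 * b) ^ 4 < 2 ^ (W - 1)) (h : leaf c s.pack = true)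
    {x0 x1 y0 y1 z0 z1 : ℝ} (hx0 : 0 < x0) (hx1 : 0 ≤ x1) (hy0 : 0 < y0) (hy1 : 0 ≤ y1)
    (hz0 : 0 < z0) (hz1 : 0 ≤ z1) :
    (KB : ℝ) * evOne (s.S.ev x0 x1 y0 y1 z0 z1) (s.T.ev x0 x1 y0 y1 z0 z1)
        (s.A.ev x0 x1 y0 y1 z0 z1) (s.B.ev x0 x1 y0 y1 z0 z1) (s.D.ev x0 x1 y0 y1 z0 z1) ≤
      (c.map (Nat.cast : ℕ → ℝ)).ev (s.S.ev x0 x1 y0 y1 z0 z1) (s.T.ev x0 x1 y0 y1 z0 z1)
        (s.A.ev x0 x1 y0 y1 z0 z1) (s.B.ev x0 x1 y0 y1 z0 z1) (s.D.ev x0 x1 y0 y1 z0 z1) := by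
  obtain ⟨hS, hT, hA, hB, hD⟩ := hs
  -- the polynomials
  obtain ⟨P, hP⟩ : ∃ P, P = (c.map MvPolynomial.C).ev s.S.poly s.T.poly s.A.poly s.B.poly
    s.D.poly := ⟨_, rfl⟩
  obtain ⟨N, hN⟩ : ∃ N, N = MvPolynomial.C KB * evOne s.S.poly s.T.poly s.A.poly s.B.poly
    s.D.poly := ⟨_, rfl⟩
  have bPN := ev_bd c s.S.poly_bd s.T.poly_bd s.A.poly_bd s.B.poly_bd s.D.poly_bd
  have bP : Bd 4 P := by rw [hP]; exact bPN.1
  have bN : Bd 4 N := by rw [hN]; exact Bd.mulC bPN.2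
  have map_map : ∀ (R : Type) [CommSemiring R] (x : Fin 3 → R),
      P.eval₂ (Nat.castRingHom R) x = (c.map (Nat.cast : ℕ → R)).ev
        (s.S.poly.eval₂ (Nat.castRingHom R) x) (s.T.poly.eval₂ (Nat.castRingHom R) x)
        (s.A.poly.eval₂ (Nat.castRingHom R) x) (s.B.poly.eval₂ (Nat.castRingHom R) x)
        (s.D.poly.eval₂ (Nat.castRingHom R) x) := by
    intro R _ x
    rw [hP]
    have := ev_hom (MvPolynomial.eval₂Hom (Nat.castRingHom R) x) (c.map MvPolynomial.C)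
      s.S.poly s.T.poly s.A.poly s.B.poly s.D.poly
    simp only [MvPolynomial.coe_eval₂Hom] at this
    have e : (c.map MvPolynomial.C).map (MvPolynomial.eval₂ (Nat.castRingHom R) x) =
        c.map (Nat.cast : ℕ → R) := by
      simp only [Cf.map, MvPolynomial.eval₂_C]
      simp only [eq_natCast]
    rw [this, e]
  have map_N : ∀ (R : Type) [CommSemiring R] (x : Fin 3 → R),
      N.eval₂ (Nat.castRingHom R) x = (KB : R) * evOne
        (s.S.poly.eval₂ (Nat.castRingHom R) x) (s.T.poly.eval₂ (Nat.castRingHom R) x)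
        (s.A.poly.eval₂ (Nat.castRingHom R) x) (s.B.poly.eval₂ (Nat.castRingHom R) x)
        (s.D.poly.eval₂ (Nat.castRingHom R) x) := by
    intro R _ x
    rw [hN]
    have := evOne_hom (MvPolynomial.eval₂Hom (Nat.castRingHom R) x)
      s.S.poly s.T.poly s.A.poly s.B.poly s.D.poly
    simp only [MvPolynomial.coe_eval₂Hom] at this
    rw [MvPolynomial.eval₂_mul, this, MvPolynomial.eval₂_C, eq_natCast]
  have cid : c.map (Nat.cast : ℕ → ℕ) = c := by
    cases c; simp only [Cf.map, Nat.cast_id]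
  -- bounds of the coefficients
  have cP : ∀ m, P.coeff m < 2 ^ (W - 1) := by
    intro m
    refine lt_of_le_of_lt ((coeff_le_one P m).trans ?_) hb
    rw [map_map, cid]
    refine (ev_le hc (V8.poly_one hS) (V8.poly_one hT) (V8.poly_one hA) (V8.poly_one hB)
      (V8.poly_one hD)).trans (le_of_eq ?_)
    ring
  have cN : ∀ m, N.coeff m < 2 ^ (W - 1) := by
    intro m
    refine lt_of_le_of_lt ((coeff_le_one N m).trans ?_) hb
    rw [map_N, Nat.cast_id]
    refine (Nat.mul_le_mul_left _ (evOne_le (V8.poly_one hS) (V8.poly_one hT) (V8.poly_one hA)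
      (V8.poly_one hB) (V8.poly_one hD))).trans ?_
    calc KB * (46 * (8 * b) ^ 4) = 46 * (KB * (8 * b) ^ 4) := by ring
      _ ≤ 92 * (KB * (8 * b) ^ 4) := Nat.mul_le_mul_right _ (by norm_num)
      _ = 92 * KB * (8 * b) ^ 4 := by ring
  -- the test
  have hh : Nat.land (bias + c.ev s.S.pack s.T.pack s.A.pack s.B.pack s.D.pack -
      KB * evOne s.S.pack s.T.pack s.A.pack s.B.pack s.D.pack) bias = bias := test_iff h
  obtain ⟨L, hL⟩ : ∃ L : List (ℕ × ℕ × ℕ), L = (List.range 125).map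
    fun n => (2 ^ (W - 1), P.coeff (mIdx n), N.coeff (mIdx n)) := ⟨_, rfl⟩
  have v1 : val (fun t => t.1) L = bias := by
    rw [bias_eq, hL, val, List.map_map]
    congr 1
  have v2 : val (fun t => t.2.1) L = c.ev s.S.pack s.T.pack s.A.pack s.B.pack s.D.pack := by
    rw [hL, val, List.map_map]
    have := eval_pack bP (2 ^ W)
    rw [map_map, cid, V8.poly_pack, V8.poly_pack, V8.poly_pack, V8.poly_pack, V8.poly_pack]
      at this
    rw [this]
    rfl
  have v3 : val (fun t => t.2.2) L = KB * evOne s.S.pack s.T.pack s.A.pack s.B.pack s.D.pack := by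
    rw [hL, val, List.map_map]
    have := eval_pack bN (2 ^ W)
    rw [map_N, V8.poly_pack, V8.poly_pack, V8.poly_pack, V8.poly_pack, V8.poly_pack,
      Nat.cast_id] at this
    rw [this]
    rfl
  rw [← v1, ← v2, ← v3] at hh
  have hdig := digits_test L (by
    intro t ht
    rw [hL, List.mem_map] at ht
    obtain ⟨n, _, rfl⟩ := ht
    exact Or.inl ⟨rfl, cP _, cN _⟩) hh
  have hco : ∀ n ∈ Finset.range 125, N.coeff (mIdx n) ≤ P.coeff (mIdx n) := by
    intro n hn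
    have := hdig (2 ^ (W - 1), P.coeff (mIdx n), N.coeff (mIdx n)) (by
      rw [hL, List.mem_map]
      exact ⟨n, List.mem_range.mpr (Finset.mem_range.mp hn), rfl⟩)
    exact this
  -- real evaluations
  have hreal : N.eval₂ (Nat.castRingHom ℝ) ![x1 / x0, y1 / y0, z1 / z0] ≤
      P.eval₂ (Nat.castRingHom ℝ) ![x1 / x0, y1 / y0, z1 / z0] := by
    rw [eval_box bN, eval_box bP]
    refine Finset.sum_le_sum fun n hn => ?_
    refine mul_le_mul_of_nonneg_right (by exact_mod_cast hco n hn) ?_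
    have a1 : 0 ≤ x1 / x0 := div_nonneg hx1 hx0.le
    have a2 : 0 ≤ y1 / y0 := div_nonneg hy1 hy0.le
    have a3 : 0 ≤ z1 / z0 := div_nonneg hz1 hz0.le
    simp only [Matrix.cons_val_zero, Matrix.cons_val_one, Matrix.cons_val]
    positivity
  rw [map_map, map_N] at hreal
  rw [V8.poly_ev s.S hx0 hy0 hz0, V8.poly_ev s.T hx0 hy0 hz0, V8.poly_ev s.A hx0 hy0 hz0,
    V8.poly_ev s.B hx0 hy0 hz0, V8.poly_ev s.D hx0 hy0 hz0, ev_smul, evOne_smul]
  have hl : (0 : ℝ) ≤ (x0 * y0 * z0) ^ 4 := by positivity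
  calc (KB : ℝ) * ((x0 * y0 * z0) ^ 4 * _) = (x0 * y0 * z0) ^ 4 * ((KB : ℝ) * _) := by ring
    _ ≤ (x0 * y0 * z0) ^ 4 * _ := mul_le_mul_of_nonneg_left hreal hl

end Pool.Agent.MMS6
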