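import Pool.Agent.MMS6.Halve
import Pool.Agent.MMS6.Geq
import Pool.Agent.MMS6.Leaf

/-!
Soundness of the subdivision.
-/

set_option autoImplicit false

namespace Pool.Agent.MMS6

/-- The inequality `n ≤ p` between the forms at all points of the cube inside of the region. -/
def Good (k : Caps) (p n : Cf ℕ) (s : St) : Prop :=
  ∀ x0 x1 y0 y1 z0 z1 : ℝ, 0 < x0 → 0 ≤ x1 → 0 < y0 → 0 ≤ y1 → 0 < z0 → 0 ≤ z1 →
    s.A.ev x0 x1 y0 y1 z0 z1 + s.B.ev x0 x1 y0 y1 z0 z1 < k.dm * s.D.ev x0 x1 y0 y1 z0 z1 →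
    s.A.ev x0 x1 y0 y1 z0 z1 < k.c1 * s.D.ev x0 x1 y0 y1 z0 z1 →
    s.B.ev x0 x1 y0 y1 z0 z1 < k.c1 * s.D.ev x0 x1 y0 y1 z0 z1 →
    (n.map (Nat.cast : ℕ → ℝ)).ev (s.S.ev x0 x1 y0 y1 z0 z1) (s.T.ev x0 x1 y0 y1 z0 z1)
        (s.A.ev x0 x1 y0 y1 z0 z1) (s.B.ev x0 x1 y0 y1 z0 z1) (s.D.ev x0 x1 y0 y1 z0 z1) ≤
      (p.map (Nat.cast : ℕ → ℝ)).ev (s.S.ev x0 x1 y0 y1 z0 z1) (s.T.ev x0 x1 y0 y1 z0 z1)
        (s.A.ev x0 x1 y0 y1 z0 z1) (s.B.ev x0 x1 y0 y1 z0 z1) (s.D.ev x0 x1 y0 y1 z0 z1)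

/-- The form is homogeneous of degree four. -/
theorem Cf.ev_smul (c : Cf ℝ) (l S T A B D : ℝ) :
    c.ev (l * S) (l * T) (l * A) (l * B) (l * D) = l ^ 4 * c.ev S T A B D := by
  simp only [Cf.ev]; ring

private theorem le_of_sum {p : Cf ℕ} {m : ℕ} (hp : p.sum ≤ m) : p.Le m := by
  obtain ⟨g0, g1, g2, g3, g4, g5, g6, g7, g8, g9, a4, b4, s0, s1, s2, s3, s4, s5, s6, s7,
    t0, t1, t2, t3, t4, t5, t6, t7, u0, u1, u2, u3, u4, u5, v0, v1, v2, v3, v4, v5,
    x0, x1, x2, y0, y1, y2⟩ := p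
  simp only [Cf.sum, Nat.add_eq] at hp
  simp only [Cf.Le]
  omega

private theorem shift_entry_le {a c : ℕ} (h : a ≤ KB) : Nat.sub (Nat.add KB a) c ≤ 2 * KB := by
  have h1 : Nat.sub (Nat.add KB a) c ≤ Nat.add KB a := Nat.sub_le _ _
  have h2 : Nat.add KB a = KB + a := rfl
  omega

private theorem shift_entry_cast {a c : ℕ} (h : c ≤ KB) :
    ((Nat.sub (Nat.add KB a) c : ℕ) : ℝ) = KB + a - c := by
  have h1 : Nat.sub (Nat.add KB a) c = KB + a - c := rfl
  rw [h1, Nat.cast_sub (by omega)]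
  push_cast
  rfl

/-- Entries are bounded by the sum, shifted entries by `2 KB`. -/
theorem shift_le {p n : Cf ℕ} (hp : p.sum ≤ KB) : (shift p n).Le (2 * KB) := by
  have h := le_of_sum hp
  simp only [Cf.Le] at h
  obtain ⟨h0, h1, h2, h3, h4, h5, h6, h7, h8, h9, h10, h11, h12, h13, h14, h15, h16, h17, h18,
    h19, h20, h21, h22, h23, h24, h25, h26, h27, h28, h29, h30, h31, h32, h33, h34, h35, h36,
    h37, h38, h39, h40, h41, h42, h43, h44, h45⟩ := h
  exact ⟨shift_entry_le h0, shift_entry_le h1, shift_entry_le h2, shift_entry_le h3,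
    shift_entry_le h4, shift_entry_le h5, shift_entry_le h6, shift_entry_le h7,
    shift_entry_le h8, shift_entry_le h9, shift_entry_le h10, shift_entry_le h11,
    shift_entry_le h12, shift_entry_le h13, shift_entry_le h14, shift_entry_le h15,
    shift_entry_le h16, shift_entry_le h17, shift_entry_le h18, shift_entry_le h19,
    shift_entry_le h20, shift_entry_le h21, shift_entry_le h22, shift_entry_le h23,
    shift_entry_le h24, shift_entry_le h25, shift_entry_le h26, shift_entry_le h27,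
    shift_entry_le h28, shift_entry_le h29, shift_entry_le h30, shift_entry_le h31,
    shift_entry_le h32, shift_entry_le h33, shift_entry_le h34, shift_entry_le h35,
    shift_entry_le h36, shift_entry_le h37, shift_entry_le h38, shift_entry_le h39,
    shift_entry_le h40, shift_entry_le h41, shift_entry_le h42, shift_entry_le h43,
    shift_entry_le h44, shift_entry_le h45⟩

theorem shift_ev {p n : Cf ℕ} (hn : n.sum ≤ KB) (S T A B D : ℝ) :
    ((shift p n).map (Nat.cast : ℕ → ℝ)).ev S T A B D =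
      KB * evOne S T A B D + (p.map (Nat.cast : ℕ → ℝ)).ev S T A B D -
        (n.map (Nat.cast : ℕ → ℝ)).ev S T A B D := by
  have h := le_of_sum hn
  simp only [Cf.Le] at h
  obtain ⟨h0, h1, h2, h3, h4, h5, h6, h7, h8, h9, h10, h11, h12, h13, h14, h15, h16, h17, h18,
    h19, h20, h21, h22, h23, h24, h25, h26, h27, h28, h29, h30, h31, h32, h33, h34, h35, h36,
    h37, h38, h39, h40, h41, h42, h43, h44, h45⟩ := h
  simp only [shift, Cf.map, shift_entry_cast h0, shift_entry_cast h1, shift_entry_cast h2,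
    shift_entry_cast h3, shift_entry_cast h4, shift_entry_cast h5, shift_entry_cast h6,
    shift_entry_cast h7, shift_entry_cast h8, shift_entry_cast h9, shift_entry_cast h10,
    shift_entry_cast h11, shift_entry_cast h12, shift_entry_cast h13, shift_entry_cast h14,
    shift_entry_cast h15, shift_entry_cast h16, shift_entry_cast h17, shift_entry_cast h18,
    shift_entry_cast h19, shift_entry_cast h20, shift_entry_cast h21, shift_entry_cast h22,
    shift_entry_cast h23, shift_entry_cast h24, shift_entry_cast h25, shift_entry_cast h26,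
    shift_entry_cast h27, shift_entry_cast h28, shift_entry_cast h29, shift_entry_cast h30,
    shift_entry_cast h31, shift_entry_cast h32, shift_entry_cast h33, shift_entry_cast h34,
    shift_entry_cast h35, shift_entry_cast h36, shift_entry_cast h37, shift_entry_cast h38,
    shift_entry_cast h39, shift_entry_cast h40, shift_entry_cast h41, shift_entry_cast h42,
    shift_entry_cast h43, shift_entry_cast h44, shift_entry_cast h45]
  clear h0 h1 h2 h3 h4 h5 h6 h7 h8 h9 h10 h11 h12 h13 h14 h15 h16 h17 h18 h19 h20 h21 h22 h23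
    h24 h25 h26 h27 h28 h29 h30 h31 h32 h33 h34 h35 h36 h37 h38 h39 h40 h41 h42 h43 h44 h45 hn
  simp only [Cf.ev, evOne]
  generalize (KB : ℝ) = K
  ring

/-- The inequality at one point. -/
private def GoodAt (k : Caps) (p n : Cf ℕ) (S T A B D : ℝ) : Prop :=
  A + B < k.dm * D → A < k.c1 * D → B < k.c1 * D →
    (n.map (Nat.cast : ℕ → ℝ)).ev S T A B D ≤ (p.map (Nat.cast : ℕ → ℝ)).ev S T A B D

private theorem GoodAt.of_two {k : Caps} {p n : Cf ℕ} {S T A B D : ℝ}
    (h : GoodAt k p n (2 * S) (2 * T) (2 * A) (2 * B) (2 * D)) : GoodAt k p n S T A B D := by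
  intro h1 h2 h3
  have h4 := h (by linarith) (by linarith) (by linarith)
  rw [Cf.ev_smul, Cf.ev_smul] at h4
  linarith

private theorem good_x {k : Caps} {p n : Cf ℕ} {s : St} (hl : Good k p n (s.map V8.xl))
    (hr : Good k p n (s.map V8.xr)) : Good k p n s := by
  intro x0 x1 y0 y1 z0 z1 hx0 hx1 hy0 hy1 hz0 hz1
  rcases lt_or_ge x1 x0 with h | h
  · have h1 := hl (x0 - x1) (2 * x1) y0 y1 z0 z1 (by linarith) (by linarith) hy0 hy1 hz0 hz1
    simp only [St.map, V8.ev_xl] at h1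
    exact GoodAt.of_two h1
  · have h1 := hr (2 * x0) (x1 - x0) y0 y1 z0 z1 (by linarith) (by linarith) hy0 hy1 hz0 hz1
    simp only [St.map, V8.ev_xr] at h1
    exact GoodAt.of_two h1

private theorem good_y {k : Caps} {p n : Cf ℕ} {s : St} (hl : Good k p n (s.map V8.yl))
    (hr : Good k p n (s.map V8.yr)) : Good k p n s := by
  intro x0 x1 y0 y1 z0 z1 hx0 hx1 hy0 hy1 hz0 hz1
  rcases lt_or_ge y1 y0 with h | h
  · have h1 := hl x0 x1 (y0 - y1) (2 * y1) z0 z1 hx0 hx1 (by linarith) (by linarith) hz0 hz1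
    simp only [St.map, V8.ev_yl] at h1
    exact GoodAt.of_two h1
  · have h1 := hr x0 x1 (2 * y0) (y1 - y0) z0 z1 hx0 hx1 (by linarith) (by linarith) hz0 hz1
    simp only [St.map, V8.ev_yr] at h1
    exact GoodAt.of_two h1

private theorem good_z {k : Caps} {p n : Cf ℕ} {s : St} (hl : Good k p n (s.map V8.zl))
    (hr : Good k p n (s.map V8.zr)) : Good k p n s := by
  intro x0 x1 y0 y1 z0 z1 hx0 hx1 hy0 hy1 hz0 hz1
  rcases lt_or_ge z1 z0 with h | h
  · have h1 := hl x0 x1 y0 y1 (z0 - z1) (2 * z1) hx0 hx1 hy0 hy1 (by linarith) (by linarith)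
    simp only [St.map, V8.ev_zl] at h1
    exact GoodAt.of_two h1
  · have h1 := hr x0 x1 y0 y1 (2 * z0) (z1 - z0) hx0 hx1 hy0 hy1 (by linarith) (by linarith)
    simp only [St.map, V8.ev_zr] at h1
    exact GoodAt.of_two h1

private theorem bind_some {x : Option ℕ} {g : ℕ → Option ℕ} {t : ℕ} (h : x.bind g = some t) :
    ∃ u, x = some u ∧ g u = some t := by
  cases x with
  | none => simp at h
  | some u => exact ⟨u, rfl, by simpa using h⟩

private theorem cond_some {c : Bool} {u t : ℕ}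
    (h : (bif c then some u else none) = some t) : c = true := by
  cases c with
  | false => simp at h
  | true => rfl

private theorem pack_zero : (⟨0, 0, 0, 0, 0, 0, 0, 0⟩ : V8).pack = 0 := by
  simp [V8.pack]

private theorem bounds {b f : ℕ} (hb : 92 * KB * (8 * (b * 2 ^ f)) ^ 4 < 2 ^ (W - 1)) :
    240 * b < 2 ^ (W - 1) ∧ 92 * KB * (8 * b) ^ 4 < 2 ^ (W - 1) := by
  have h1 : b ≤ b * 2 ^ f := Nat.le_mul_of_pos_right _ (pow_pos (by norm_num) _)
  have h2 : 92 * KB * (8 * b) ^ 4 ≤ 92 * KB * (8 * (b * 2 ^ f)) ^ 4 :=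
    Nat.mul_le_mul_left _ (Nat.pow_le_pow_left (Nat.mul_le_mul_left _ h1) _)
  have h3 : b ≤ (8 * b) ^ 4 := by
    calc b ≤ 8 * b := by omega
      _ ≤ (8 * b) ^ 4 := Nat.le_self_pow (by norm_num) _
  have h4 : 240 ≤ 92 * KB := by
    have : (2 : ℕ) ^ 84 = KB := rfl
    rw [← this]
    norm_num
  exact ⟨lt_of_le_of_lt (le_trans (Nat.mul_le_mul h4 h3) h2) hb, lt_of_le_of_lt h2 hb⟩

/-- Main statement: induction on the fuel. At a leaf use `leaf_sound`, `shift_le`, `shift_ev`; at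
the tokens `4, 5, 6` the hypotheses are contradicted by `geq_sound`; at a split use the two
halves: for `x1 < x0` the left one at the weights `x0 - x1, 2 x1`, otherwise the right one at
`2 x0, x1 - x0` (`V8.ev_xl`, `V8.ev_xr`), and `Cf.ev_smul` with `l = 2`. -/
theorem run_good (k : Caps) (hk1 : k.dm ≤ 240) (hk2 : k.c1 ≤ 240) (p n : Cf ℕ)
    (hp : p.sum ≤ KB) (hn : n.sum ≤ KB) :
    ∀ (f tok : ℕ) (s : St) (b t : ℕ), s.Le b →
      92 * KB * (8 * (b * 2 ^ f)) ^ 4 < 2 ^ (W - 1) →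
      run k (shift p n) f tok s.pack = some t → Good k p n s := by
  intro f
  induction f with
  | zero =>
    intro tok s b t _ _ h
    simp [run] at h
  | succ f ih =>
    intro tok s b t hs hb h
    obtain ⟨hb1, hb2⟩ := bounds hb
    have hbW : b < 2 ^ W := by
      have h1 : (2 : ℕ) ^ (W - 1) ≤ 2 ^ W := Nat.pow_le_pow_right (by norm_num) (Nat.sub_le _ _)
      omega
    have hb3 : 92 * KB * (8 * (2 * b * 2 ^ f)) ^ 4 < 2 ^ (W - 1) := by
      have : 2 * b * 2 ^ f = b * 2 ^ (f + 1) := by ring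
      rw [this]
      exact hb
    obtain ⟨hS, hT, hA, hB, hD⟩ := hs
    have hc1 : k.dm * b < 2 ^ (W - 1) := lt_of_le_of_lt (Nat.mul_le_mul_right _ hk1) hb1
    have hc2 : k.c1 * b < 2 ^ (W - 1) := lt_of_le_of_lt (Nat.mul_le_mul_right _ hk2) hb1
    have h2b : 2 * b < 2 ^ (W - 1) := by omega
    have hz : (⟨0, 0, 0, 0, 0, 0, 0, 0⟩ : V8).Le b := by
      simp [V8.Le]
    rw [run] at h
    split at h
    · -- leaf
      have h1 := cond_some h
      intro x0 x1 y0 y1 z0 z1 hx0 hx1 hy0 hy1 hz0 hz1 _ _ _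
      have h2 := leaf_sound ⟨hS, hT, hA, hB, hD⟩ (shift_le hp) hb2 h1 hx0 hx1 hy0 hy1 hz0 hz1
      rw [shift_ev hn] at h2
      linarith
    · obtain ⟨u, h1, h2⟩ := bind_some h
      refine good_x (ih (tok.div 8) (s.map V8.xl) (2 * b) u
        (St.Le.map _ (fun v hv => hv.xl) ⟨hS, hT, hA, hB, hD⟩) hb3 ?_)
        (ih u (s.map V8.xr) (2 * b) t
        (St.Le.map _ (fun v hv => hv.xr) ⟨hS, hT, hA, hB, hD⟩) hb3 ?_)
      · rw [← h1]
        simp only [St.pack, St.map, SP.lft, lft_maskX hS hbW, lft_maskX hT hbW,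
          lft_maskX hA hbW, lft_maskX hB hbW, lft_maskX hD hbW]
      · rw [← h2]
        simp only [St.pack, St.map, SP.rgt, rgt_maskX hS hbW, rgt_maskX hT hbW,
          rgt_maskX hA hbW, rgt_maskX hB hbW, rgt_maskX hD hbW]
    · obtain ⟨u, h1, h2⟩ := bind_some h
      refine good_y (ih (tok.div 8) (s.map V8.yl) (2 * b) u
        (St.Le.map _ (fun v hv => hv.yl) ⟨hS, hT, hA, hB, hD⟩) hb3 ?_)
        (ih u (s.map V8.yr) (2 * b) t
        (St.Le.map _ (fun v hv => hv.yr) ⟨hS, hT, hA, hB, hD⟩) hb3 ?_)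
      · rw [← h1]
        simp only [St.pack, St.map, SP.lft, lft_maskY hS hbW, lft_maskY hT hbW,
          lft_maskY hA hbW, lft_maskY hB hbW, lft_maskY hD hbW]
      · rw [← h2]
        simp only [St.pack, St.map, SP.rgt, rgt_maskY hS hbW, rgt_maskY hT hbW,
          rgt_maskY hA hbW, rgt_maskY hB hbW, rgt_maskY hD hbW]
    · obtain ⟨u, h1, h2⟩ := bind_some h
      refine good_z (ih (tok.div 8) (s.map V8.zl) (2 * b) u
        (St.Le.map _ (fun v hv => hv.zl) ⟨hS, hT, hA, hB, hD⟩) hb3 ?_)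
        (ih u (s.map V8.zr) (2 * b) t
        (St.Le.map _ (fun v hv => hv.zr) ⟨hS, hT, hA, hB, hD⟩) hb3 ?_)
      · rw [← h1]
        simp only [St.pack, St.map, SP.lft, lft_maskZ hS hbW, lft_maskZ hT hbW,
          lft_maskZ hA hbW, lft_maskZ hB hbW, lft_maskZ hD hbW]
      · rw [← h2]
        simp only [St.pack, St.map, SP.rgt, rgt_maskZ hS hbW, rgt_maskZ hT hbW,
          rgt_maskZ hA hbW, rgt_maskZ hB hbW, rgt_maskZ hD hbW]
    · have h1 : geq k.dm s.A.pack s.B.pack s.D.pack = true := cond_some h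
      intro x0 x1 y0 y1 z0 z1 hx0 hx1 hy0 hy1 hz0 hz1 e1 _ _
      have h2 := geq_sound hA hB hD h2b hc1 h1 hx0 hx1 hy0 hy1 hz0 hz1
      linarith
    · have h1 : geq k.c1 s.A.pack 0 s.D.pack = true := cond_some h
      rw [← pack_zero] at h1
      intro x0 x1 y0 y1 z0 z1 hx0 hx1 hy0 hy1 hz0 hz1 _ e1 _
      have h2 := geq_sound hA hz hD h2b hc2 h1 hx0 hx1 hy0 hy1 hz0 hz1
      have h3 : (⟨0, 0, 0, 0, 0, 0, 0, 0⟩ : V8).ev x0 x1 y0 y1 z0 z1 = 0 := by
        simp [V8.ev]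
      rw [h3] at h2
      linarith
    · have h1 : geq k.c1 s.B.pack 0 s.D.pack = true := cond_some h
      rw [← pack_zero] at h1
      intro x0 x1 y0 y1 z0 z1 hx0 hx1 hy0 hy1 hz0 hz1 _ _ e1
      have h2 := geq_sound hB hz hD h2b hc2 h1 hx0 hx1 hy0 hy1 hz0 hz1
      have h3 : (⟨0, 0, 0, 0, 0, 0, 0, 0⟩ : V8).ev x0 x1 y0 y1 z0 z1 = 0 := by
        simp [V8.ev]
      rw [h3] at h2
      linarith
    · simp at h

end Pool.Agent.MMS6
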