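import Pool.Agent.MMS6.Sem
import Pool.Agent.MMS6.Run

/-!
What the success of the check says about the pairs of cells.
-/

set_option autoImplicit false

namespace Pool.Agent.MMS6

/-- The three sectors of a pair of cells have been checked. -/
def Chk (z : Cert) (k : Caps) (r : Prm ℕ) (I J : Cell) (s : Bool → Bool → St) : Prop :=
  ∃ tok t, run3 z k r I J s tok = some t

theorem runRow_chk {z : Cert} {k : Caps} {r : Prm ℕ} {I : Cell} :
    ∀ (l : List Cell) (tok t : ℕ), runRow z k r I l tok = some t →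
      ∀ J ∈ l, Chk z k r I J (initR k I J) := by
  sorry

theorem runInner_chk {z : Cert} {k : Caps} {r : Prm ℕ} :
    ∀ (l left : List Cell) (tok t : ℕ), runInner z k r left l tok = some t →
      ∀ l1 l2 I, l = l1 ++ I :: l2 → Chk z k r I I (initT k I) ∧
        ∀ J ∈ l1.reverse ++ left, Chk z k r I J (initR k I J) := by
  sorry

theorem check_chk {z : Cert} {k : Caps} {r : Prm ℕ} {tok : ℕ} (h : check z k r tok = true) :
    Chk z k r z.lo z.lo (initL k z.lo) ∧ Chk z k r z.hi z.hi (initU k z.hi) ∧
    (∀ J ∈ z.lo :: z.inner, Chk z k r z.hi J (initR k z.hi J)) ∧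
    ∀ l1 l2 I, z.inner = l1 ++ I :: l2 → Chk z k r I I (initT k I) ∧
      ∀ J ∈ z.lo :: l1, Chk z k r I J (initR k I J) := by
  sorry

/-- The inequality in all three sectors of a checked pair. -/
theorem Chk.good {z : Cert} {k : Caps} {r : Prm ℕ} {I J : Cell} {s : Bool → Bool → St}
    (h : Chk z k r I J s) (hk1 : k.dm ≤ 240) (hk2 : k.c1 ≤ 240)
    (hs : ∀ sa sb, (s sa sb).Le 240) {sa sb : Bool} (hsec : sa = false → sb = false) :
    Good k (coefs z r I J sa sb true) (coefs z r I J sa sb false) (s sa sb) := by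
  sorry

/-! ### Bounds of the initial values -/

theorem initR_le {k : Caps} {I J : Cell} {sa sb : Bool}
    (h : gap I J + I.h + J.h + k.bm ≤ 240) : (initR k I J sa sb).Le 240 := by
  sorry

theorem initT_le {k : Caps} {I : Cell} {sa sb : Bool} (h : I.h + k.bm ≤ 240) :
    (initT k I sa sb).Le 240 := by
  sorry

theorem initU_le {k : Caps} {I : Cell} {sa sb : Bool} (h : I.h + k.bm ≤ 240) :
    (initU k I sa sb).Le 240 := by
  sorry

theorem initL_le {k : Caps} {I : Cell} {sa sb : Bool} (h : I.h + k.bm ≤ 240) :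
    (initL k I sa sb).Le 240 := by
  sorry

end Pool.Agent.MMS6
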