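import Pool.Agent.MMS6.Sem

/-!
Valid certificates: the cells form a chain, the indicators are right, the caps are right.
-/

set_option autoImplicit false

namespace Pool.Agent.MMS6

/-- The offset as an integer. -/
def Cell.offZ (c : Cell) : ℤ := bif c.on then -(c.o : ℤ) else c.o

/-- The inner cells form a chain starting at `x` and ending at the offset of the last cell; their
lengths are at most `m`. -/
def validL (m : ℕ) : ℤ → List Cell → Cell → Bool
  | x, [], d => decide (d.offZ = x)
  | x, c :: l, d => decide (c.offZ = x) && (!c.en && (decide (0 < c.h) && (decide (c.h ≤ m) &&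
      ((c.i == decide (0 ≤ x)) && ((decide (0 ≤ x) || decide (x + c.h ≤ 0)) &&
        validL m (x + c.h) l d)))))

def valid (z : Cert) (k : Caps) : Bool :=
  z.lo.en && (!z.lo.i && (decide (z.lo.h = k.dm) && (decide (z.lo.offZ ≤ 0) &&
    (validL k.dm z.lo.offZ z.inner z.hi && (!z.hi.en && (z.hi.i && (decide (z.hi.h = k.dm) &&
      (decide (0 ≤ z.hi.offZ) && (decide (k.Q < 2 * k.bm ^ 2) && (decide (k.Q < k.c1 ^ 2) &&
        (decide (2 * k.Q < k.dm ^ 2) && (decide (z.hi.offZ - z.lo.offZ + 2 * k.dm + k.bm ≤ 240) &&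
          decide (k.c1 ≤ 240)))))))))))))

/-- `J` is a cell to the left of the cell `I` (with direction to the right). -/
structure LeftOf (k : Caps) (J I : Cell) : Prop where
  ien : I.en = false
  le : J.offZ ≤ I.offZ
  jen : J.en = true ∨ J.offZ + J.h ≤ I.offZ
  size : I.offZ - J.offZ + I.h + J.h + k.bm ≤ 240

/-- What is needed about the cell picked for `u`. -/
structure Picked (z : Cert) (u : ℝ) : Prop where
  ind : (bif (z.pick u).i then (1 : ℝ) else 0) = ind u
  loc : 0 ≤ (z.pick u).loc u

/-- The offset as a real number. -/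
theorem Cell.off_eq (c : Cell) : c.off = (c.offZ : ℝ) := by
  sorry

/-- The gap is the difference of the offsets. -/
theorem gap_eq {I J : Cell} (h : J.offZ ≤ I.offZ) : ((gap I J : ℕ) : ℤ) = I.offZ - J.offZ := by
  sorry

theorem picked {z : Cert} {k : Caps} (hv : valid z k = true) (u : ℝ) : Picked z u := by
  sorry

/-- The possible relative positions of the cells of `t ≤ s`. -/
theorem pick_cases {z : Cert} {k : Caps} (hv : valid z k = true) {s t : ℝ} (hst : t ≤ s) :
    (z.pick s = z.lo ∧ z.pick t = z.lo) ∨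
    (z.pick s = z.hi ∧ z.pick t = z.hi) ∨
    (z.pick s = z.hi ∧ (z.pick t ∈ z.lo :: z.inner) ∧ LeftOf k (z.pick t) z.hi) ∨
    (∃ l1 l2 I, z.inner = l1 ++ I :: l2 ∧ z.pick s = I ∧ s < I.off + I.h ∧
      (z.pick t = I ∨ (z.pick t ∈ z.lo :: l1 ∧ LeftOf k (z.pick t) I))) := by
  sorry

/-- The upper bound for the local coordinate of `t`. -/
theorem pick_loc_lt {z : Cert} {k : Caps} (hv : valid z k = true) {s t : ℝ} (hst : t ≤ s)
    (hd : s - t < k.dm) (h : z.pick t ≠ z.pick s) :
    (z.pick t).loc t < (z.pick t).h ∧ (z.pick s).loc s < (z.pick s).h := by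
  sorry

end Pool.Agent.MMS6
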