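import Pool.Agent.MMS6.Expand
import Pool.Agent.MMS6.Valid
import Pool.Agent.MMS6.Pairs

/-!
Soundness of the check of a certificate for one parameter vector.
-/

set_option autoImplicit false

namespace Pool.Agent.MMS6

/-- A point of a good state gives the inequality for the cell function. Use `expand`, and
`Cf.ev_smul` with `l = D` for both coefficient arrays. -/
theorem cell_nonneg {z : Cert} {k : Caps} {r : Prm ℕ} {I J : Cell} {sa sb : Bool} {st : St}
    (hg : Good k (coefs z r I J sa sb true) (coefs z r I J sa sb false) st)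
    {S T X Y : ℝ} (hp : Pt st S T X Y) (h1 : X + Y < k.dm) (h2 : X < k.c1) (h3 : Y < k.c1) :
    0 ≤ Rcell z r.re I J sa sb S T X Y := by
  sorry

/-- The sector of a point of the region. -/
theorem secPt_of {k : Caps} {a b : ℝ} (hba : b ≤ a) (hQ : a ^ 2 + b ^ 2 ≤ k.Q)
    (hk : k.Q < 2 * k.bm ^ 2) : SecPt (sg a) (sg b) k.bm (a - b) |a| |b| := by
  sorry

/-- The bounds for a point of the region. -/
theorem caps_of {k : Caps} {a b : ℝ} (hQ : a ^ 2 + b ^ 2 ≤ k.Q)
    (hk1 : k.Q < k.c1 ^ 2) (hk2 : 2 * k.Q < k.dm ^ 2) :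
    |a| + |b| < k.dm ∧ |a| < k.c1 ∧ |b| < k.c1 := by
  sorry

/-- First for `b ≤ a`: four cases by `pick_cases`, `Rfun_eq_Rcell`, `cell_nonneg`, `Chk.good` and
the covering lemmas. -/
theorem check_sound_le {z : Cert} {k : Caps} {r : Prm ℕ} {tok : ℕ} (hv : valid z k = true)
    (h : check z k r tok = true) {s t a b : ℝ} (hst : a - b = s - t)
    (hQ : a ^ 2 + b ^ 2 ≤ k.Q) (hba : b ≤ a) : 0 ≤ Rfun r.re z.fn s t a b := by
  sorry

/-- **Soundness of the check.** -/
theorem check_sound {z : Cert} {k : Caps} {r : Prm ℕ} {tok : ℕ} (hv : valid z k = true)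
    (h : check z k r tok = true) {s t a b : ℝ} (hst : a - b = s - t)
    (hQ : a ^ 2 + b ^ 2 ≤ k.Q) : 0 ≤ Rfun r.re z.fn s t a b := by
  rcases le_total b a with hba | hba
  · exact check_sound_le hv h hst hQ hba
  · rw [Rfun_symm]
    exact check_sound_le hv h (by linarith) (by linarith) hba

end Pool.Agent.MMS6
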