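import Pool.Agent.MMS6.Weights

/-!
Every point of a cell pair is represented in the corresponding initial state. For a point with
local coordinates `S, T` and absolute values `X = |a|`, `Y = |b|` suitable weights are:

* `sector`: `(z0, z1) = (g - Y, Y)` for `++`, `(g - X, X)` for minus minus and `(Y, X)` for `+-`;
* `initR`: `x = (I.h - S, S)`, `y = (J.h - T, T)`;
* `initT`: with `d = S - T`: `x = (I.h - S, T)`, `y = (I.h - d, d)`;
* `initU`: with `d = S - T`: `x = (1, T)`, `y = (I.h - d, d)` and the sector lemma for `x1 = 0`.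
-/

set_option autoImplicit false

namespace Pool.Agent.MMS6

/-- The point `(S, T, X, Y)` occurs in the state. -/
def Pt (st : St) (S T X Y : ℝ) : Prop :=
  ∃ x0 x1 y0 y1 z0 z1 D : ℝ, 0 < x0 ∧ 0 ≤ x1 ∧ 0 < y0 ∧ 0 ≤ y1 ∧ 0 < z0 ∧ 0 ≤ z1 ∧ 0 < D ∧
    st.S.ev x0 x1 y0 y1 z0 z1 = D * S ∧ st.T.ev x0 x1 y0 y1 z0 z1 = D * T ∧
    st.A.ev x0 x1 y0 y1 z0 z1 = D * X ∧ st.B.ev x0 x1 y0 y1 z0 z1 = D * Y ∧
    st.D.ev x0 x1 y0 y1 z0 z1 = D

/-- Sign of a Boolean. -/
def sgn (b : Bool) : ℝ := bif b then 1 else -1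

/-- The point `(X, Y)` of a sector with `a - b = d`; `g` bounds the smaller absolute value for
equal signs. -/
structure SecPt (sa sb : Bool) (g : ℕ) (d X Y : ℝ) : Prop where
  hs : sa = false → sb = false
  hg : 0 < g
  rel : sgn sa * X - sgn sb * Y = d
  hX : 0 ≤ X
  hY : 0 ≤ Y
  pos : sa = true → sb = false → 0 < Y
  minX : sa = false → X < g
  minY : sb = true → Y < g

/-- The weights in the third direction. `D` is the value of the denominator for `z0 + z1 = 1`. -/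
theorem sector_pt {sa sb : Bool} {g : ℕ} {d X Y : ℝ} (h : SecPt sa sb g d X Y)
    {d0 d1 d2 d3 : ℕ} {x0 x1 y0 y1 D : ℝ} (hD : (x0 + x1) * (y0 + y1) = D)
    (hd : d0 * (x0 * y0) + d1 * (x0 * y1) + d2 * (x1 * y0) + d3 * (x1 * y1) = D * d) :
    ∃ z0 z1 : ℝ, 0 < z0 ∧ 0 ≤ z1 ∧
      (sector sa sb g d0 d1 d2 d3).1.ev x0 x1 y0 y1 z0 z1 = D * (z0 + z1) * X ∧
      (sector sa sb g d0 d1 d2 d3).2.ev x0 x1 y0 y1 z0 z1 = D * (z0 + z1) * Y := by
  sorry

/-- Distinct cells, `J` to the left of `I` (the local coordinate `T` of `J` may point to the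
left). -/
theorem cover_R {k : Caps} {I J : Cell} {sa sb : Bool} {S T X Y : ℝ}
    (hS0 : 0 ≤ S) (hS : S < I.h) (hT0 : 0 ≤ T) (hT : T < J.h)
    (hJ : J.en = true ∨ J.h ≤ gap I J)
    (h : SecPt sa sb k.bm (gap I J + S - (bif J.en then -T else T)) X Y) :
    Pt (initR k I J sa sb) S T X Y := by
  sorry

/-- The same inner cell. -/
theorem cover_T {k : Caps} {I : Cell} {sa sb : Bool} {S T X Y : ℝ}
    (hT0 : 0 ≤ T) (hTS : T ≤ S) (hS : S < I.h) (h : SecPt sa sb k.bm (S - T) X Y) :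
    Pt (initT k I sa sb) S T X Y := by
  sorry

/-- The upper tail. -/
theorem cover_U {k : Caps} {I : Cell} {sa sb : Bool} {S T X Y : ℝ}
    (hT0 : 0 ≤ T) (hTS : T ≤ S) (hS : S - T < I.h) (h : SecPt sa sb k.bm (S - T) X Y) :
    Pt (initU k I sa sb) S T X Y := by
  sorry

/-- The lower tail: here the local coordinates are `- offset - s`, so `S ≤ T`. -/
theorem cover_L {k : Caps} {I : Cell} {sa sb : Bool} {S T X Y : ℝ}
    (hS0 : 0 ≤ S) (hST : S ≤ T) (hT : T - S < I.h) (h : SecPt sa sb k.bm (T - S) X Y) :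
    Pt (initL k I sa sb) S T X Y := by
  sorry

end Pool.Agent.MMS6
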