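import Mathlib

/-!
Definitions for the certificate checker.

A certificate consists of thirteen cells (the line is cut at twelve integer nodes) carrying
quadratic and linear polynomials with integer coefficients in a local coordinate, and of
polynomials `M`, `L` of degree four on each side of the origin.

For a parameter vector the certificate defines a function `R (s, t, a, b)`; the checker verifies
`R ≥ 0` on the region `b ≤ a`, `a - b = s - t`, `a ^ 2 + b ^ 2 ≤ Q` by subdivision and Bernstein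
coefficients. All arithmetic in the inner loop is on packed natural numbers.
-/

set_option autoImplicit false

namespace Pool.Agent.MMS6

/-! ### Corner values and states -/

/-- Values at the eight corners `000, 001, 010, 011, 100, 101, 110, 111` of a cube. -/
structure V8 where
  (a0 a1 a2 a3 a4 a5 a6 a7 : ℕ)

/-- Corner values of the five functions `S, T, A, B, D`. -/
structure St where
  (S T A B D : V8)

/-- Halving in the direction `x`: left and right half; the values are doubled. -/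
def V8.xl (v : V8) : V8 :=
  ⟨2 * v.a0, 2 * v.a1, 2 * v.a2, 2 * v.a3, v.a0 + v.a4, v.a1 + v.a5, v.a2 + v.a6, v.a3 + v.a7⟩
def V8.xr (v : V8) : V8 :=
  ⟨v.a0 + v.a4, v.a1 + v.a5, v.a2 + v.a6, v.a3 + v.a7, 2 * v.a4, 2 * v.a5, 2 * v.a6, 2 * v.a7⟩
def V8.yl (v : V8) : V8 :=
  ⟨2 * v.a0, 2 * v.a1, v.a0 + v.a2, v.a1 + v.a3, 2 * v.a4, 2 * v.a5, v.a4 + v.a6, v.a5 + v.a7⟩
def V8.yr (v : V8) : V8 :=
  ⟨v.a0 + v.a2, v.a1 + v.a3, 2 * v.a2, 2 * v.a3, v.a4 + v.a6, v.a5 + v.a7, 2 * v.a6, 2 * v.a7⟩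
def V8.zl (v : V8) : V8 :=
  ⟨2 * v.a0, v.a0 + v.a1, 2 * v.a2, v.a2 + v.a3, 2 * v.a4, v.a4 + v.a5, 2 * v.a6, v.a6 + v.a7⟩
def V8.zr (v : V8) : V8 :=
  ⟨v.a0 + v.a1, 2 * v.a1, v.a2 + v.a3, 2 * v.a3, v.a4 + v.a5, 2 * v.a5, v.a6 + v.a7, 2 * v.a7⟩

def St.map (f : V8 → V8) (s : St) : St := ⟨f s.S, f s.T, f s.A, f s.B, f s.D⟩

/-- Number of bits of a digit. -/
def W : ℕ := 192

/-- Packing of the corner values: digit `i + 5 j + 25 k` for the corner `i j k`. -/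
def V8.pack (v : V8) : ℕ :=
  v.a0 + v.a4 * 2 ^ W + v.a2 * 2 ^ (5 * W) + v.a6 * 2 ^ (6 * W) + v.a1 * 2 ^ (25 * W) +
    v.a5 * 2 ^ (26 * W) + v.a3 * 2 ^ (30 * W) + v.a7 * 2 ^ (31 * W)

/-- Packed states. -/
structure SP where
  (S T A B D : ℕ)

def St.pack (s : St) : SP := ⟨s.S.pack, s.T.pack, s.A.pack, s.B.pack, s.D.pack⟩

/-- The digits with `i = 0`, `j = 0`, `k = 0`. -/
def maskX : ℕ := (2 ^ W - 1) * (1 + 2 ^ (5 * W) + 2 ^ (25 * W) + 2 ^ (30 * W))
def maskY : ℕ := (2 ^ W - 1) * (1 + 2 ^ W + 2 ^ (25 * W) + 2 ^ (26 * W))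
def maskZ : ℕ := (2 ^ W - 1) * (1 + 2 ^ W + 2 ^ (5 * W) + 2 ^ (6 * W))
def bX : ℕ := 2 ^ W
def bY : ℕ := 2 ^ (5 * W)
def bZ : ℕ := 2 ^ (25 * W)

/-- Halvings of packed corner values. -/
def lft (mask b F : ℕ) : ℕ := Nat.add F (Nat.mul (Nat.land F mask) (Nat.succ b))
def rgt (mask b F : ℕ) : ℕ :=
  Nat.add F (Nat.mul (Nat.div (Nat.sub F (Nat.land F mask)) b) (Nat.succ b))

def SP.lft (mask b : ℕ) (s : SP) : SP :=
  match s with
  | ⟨S, T, A, B, D⟩ => ⟨MMS6.lft mask b S, MMS6.lft mask b T, MMS6.lft mask b A,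
      MMS6.lft mask b B, MMS6.lft mask b D⟩
def SP.rgt (mask b : ℕ) (s : SP) : SP :=
  match s with
  | ⟨S, T, A, B, D⟩ => ⟨MMS6.rgt mask b S, MMS6.rgt mask b T, MMS6.rgt mask b A,
      MMS6.rgt mask b B, MMS6.rgt mask b D⟩

/-! ### Coefficient arrays -/

/-- Coefficients of a quartic form. The monomials are, in this order:
`D` times `DDD DDA DDB DAA DAB DBB AAA AAB ABB BBB`, then `A^4`, `B^4`, then `S` (and `T`) times
`DDD DDA DDB DAA DAB DBB AAB ABB`, `S^2` (and `T^2`) times `AA AB BB DA DB DD`, `S^3` (and `T^3`)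
times `A B D`. -/
structure Cf (K : Type) where
  (g0 g1 g2 g3 g4 g5 g6 g7 g8 g9 a4 b4 s0 s1 s2 s3 s4 s5 s6 s7 t0 t1 t2 t3
    t4 t5 t6 t7 u0 u1 u2 u3 u4 u5 v0 v1 v2 v3 v4 v5 x0 x1 x2 y0 y1 y2 : K)

def Cf.map {K L : Type} (f : K → L) (c : Cf K) : Cf L :=
  ⟨f c.g0, f c.g1, f c.g2, f c.g3, f c.g4, f c.g5, f c.g6, f c.g7, f c.g8, f c.g9, f c.a4, f
    c.b4, f c.s0, f c.s1, f c.s2, f c.s3, f c.s4, f c.s5, f c.s6, f c.s7, f c.t0, f c.t1, f c.t2,
    f c.t3, f c.t4, f c.t5, f c.t6, f c.t7, f c.u0, f c.u1, f c.u2, f c.u3, f c.u4, f c.u5, f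
    c.v0, f c.v1, f c.v2, f c.v3, f c.v4, f c.v5, f c.x0, f c.x1, f c.x2, f c.y0, f c.y1, f c.y2⟩

/-- Value of the form. -/
def Cf.ev {K : Type} [CommSemiring K] (c : Cf K) (S T A B D : K) : K :=
  D * (c.g0 * (D * D * D) + c.g1 * (D * D * A) + c.g2 * (D * D * B) + c.g3 * (D * (A * A)) + c.g4
    * (D * (A * B)) + c.g5 * (D * (B * B)) + c.g6 * (A * (A * A)) + c.g7 * (A * (A * B)) + c.g8 *
    (A * (B * B)) + c.g9 * (B * (B * B))) + c.a4 * (A * A * (A * A)) + c.b4 * (B * B * (B * B)) +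
    S * (c.s0 * (D * D * D) + c.s1 * (D * D * A) + c.s2 * (D * D * B) + c.s3 * (D * (A * A)) +
    c.s4 * (D * (A * B)) + c.s5 * (D * (B * B)) + c.s6 * (A * (A * B)) + c.s7 * (A * (B * B))) +
    T * (c.t0 * (D * D * D) + c.t1 * (D * D * A) + c.t2 * (D * D * B) + c.t3 * (D * (A * A)) +
    c.t4 * (D * (A * B)) + c.t5 * (D * (B * B)) + c.t6 * (A * (A * B)) + c.t7 * (A * (B * B))) +
    S * S * (c.u0 * (A * A) + c.u1 * (A * B) + c.u2 * (B * B) + c.u3 * (D * A) + c.u4 * (D * B) +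
    c.u5 * (D * D)) + T * T * (c.v0 * (A * A) + c.v1 * (A * B) + c.v2 * (B * B) + c.v3 * (D * A)
    + c.v4 * (D * B) + c.v5 * (D * D)) + S * S * S * (c.x0 * A + c.x1 * B + c.x2 * D) + T * T * T
    * (c.y0 * A + c.y1 * B + c.y2 * D)

/-- The form with all coefficients equal to one. -/
def evOne {K : Type} [CommSemiring K] (S T A B D : K) : K :=
  D * ((D * D * D) + (D * D * A) + (D * D * B) + (D * (A * A)) + (D * (A * B)) + (D * (B * B)) +
    (A * (A * A)) + (A * (A * B)) + (A * (B * B)) + (B * (B * B))) + A * A * (A * A) + B * B * (B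
    * B) + S * ((D * D * D) + (D * D * A) + (D * D * B) + (D * (A * A)) + (D * (A * B)) + (D * (B
    * B)) + (A * (A * B)) + (A * (B * B))) + T * ((D * D * D) + (D * D * A) + (D * D * B) + (D *
    (A * A)) + (D * (A * B)) + (D * (B * B)) + (A * (A * B)) + (A * (B * B))) + S * S * ((A * A)
    + (A * B) + (B * B) + (D * A) + (D * B) + (D * D)) + T * T * ((A * A) + (A * B) + (B * B) +
    (D * A) + (D * B) + (D * D)) + S * S * S * (A + B + D) + T * T * T * (A + B + D)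

/-! ### The leaf test -/

/-- Evaluation for natural numbers, with all monomials as arguments. -/
def evN (c : Cf ℕ) (S T A B D SS TT AA AB BB DA DB DD SSS TTT DDD DDA DDB DAA DAB DBB
    AAA AAB ABB BBB A4 B4 : ℕ) : ℕ :=
  match c with
  | ⟨g0, g1, g2, g3, g4, g5, g6, g7, g8, g9, a4, b4, s0, s1, s2, s3, s4, s5, s6, s7,
    t0, t1, t2, t3, t4, t5, t6, t7, u0, u1, u2, u3, u4, u5, v0, v1, v2, v3, v4, v5, x0, x1, x2, y0, y1, y2⟩ =>
    Nat.add (Nat.add (Nat.add (Nat.add (Nat.add (Nat.add (Nat.add (Nat.add (Nat.mul D (Nat.add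
      (Nat.add (Nat.add (Nat.add (Nat.add (Nat.add (Nat.add (Nat.add (Nat.add (Nat.mul g0 DDD)
      (Nat.mul g1 DDA)) (Nat.mul g2 DDB)) (Nat.mul g3 DAA)) (Nat.mul g4 DAB)) (Nat.mul g5 DBB))
      (Nat.mul g6 AAA)) (Nat.mul g7 AAB)) (Nat.mul g8 ABB)) (Nat.mul g9 BBB))) (Nat.mul a4 A4))
      (Nat.mul b4 B4)) (Nat.mul S (Nat.add (Nat.add (Nat.add (Nat.add (Nat.add (Nat.add (Nat.add
      (Nat.mul s0 DDD) (Nat.mul s1 DDA)) (Nat.mul s2 DDB)) (Nat.mul s3 DAA)) (Nat.mul s4 DAB))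
      (Nat.mul s5 DBB)) (Nat.mul s6 AAB)) (Nat.mul s7 ABB)))) (Nat.mul T (Nat.add (Nat.add
      (Nat.add (Nat.add (Nat.add (Nat.add (Nat.add (Nat.mul t0 DDD) (Nat.mul t1 DDA)) (Nat.mul t2
      DDB)) (Nat.mul t3 DAA)) (Nat.mul t4 DAB)) (Nat.mul t5 DBB)) (Nat.mul t6 AAB)) (Nat.mul t7
      ABB)))) (Nat.mul SS (Nat.add (Nat.add (Nat.add (Nat.add (Nat.add (Nat.mul u0 AA) (Nat.mul
      u1 AB)) (Nat.mul u2 BB)) (Nat.mul u3 DA)) (Nat.mul u4 DB)) (Nat.mul u5 DD)))) (Nat.mul TT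
      (Nat.add (Nat.add (Nat.add (Nat.add (Nat.add (Nat.mul v0 AA) (Nat.mul v1 AB)) (Nat.mul v2
      BB)) (Nat.mul v3 DA)) (Nat.mul v4 DB)) (Nat.mul v5 DD)))) (Nat.mul SSS (Nat.add (Nat.add
      (Nat.mul x0 A) (Nat.mul x1 B)) (Nat.mul x2 D)))) (Nat.mul TTT (Nat.add (Nat.add (Nat.mul y0
      A) (Nat.mul y1 B)) (Nat.mul y2 D)))

/-- The value of the form with all coefficients equal to one; `E8` is the sum of the cubic
monomials different from `AAA, BBB`. -/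
def evS (S T A B D SS TT AA AB BB DA DB DD SSS TTT AAA BBB A4 B4 E8 : ℕ) : ℕ :=
  Nat.add (Nat.add (Nat.add (Nat.add (Nat.mul (Nat.add (Nat.add D S) T) E8) (Nat.mul D (Nat.add
    AAA BBB))) (Nat.add A4 B4)) (Nat.mul (Nat.add SS TT) (Nat.add (Nat.add (Nat.add (Nat.add
    (Nat.add AA AB) BB) DA) DB) DD))) (Nat.mul (Nat.add SSS TTT) (Nat.add (Nat.add A B) D))

/-- Half of the base in each of the 125 digits. -/
def bias : ℕ := (2 ^ (125 * W) - 1) / (2 ^ W - 1) * 2 ^ (W - 1)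

/-- The shift of the coefficients. -/
def KB : ℕ := 2 ^ 84

/-- The test of a leaf for shifted coefficients `c`: all 125 digits of the form with
coefficients `c - KB` are nonnegative. -/
def test2 (c : Cf ℕ) (S T A B D SS TT AA AB BB DA DB DD SSS TTT DDD DDA DDB DAA DAB DBB
    AAA AAB ABB BBB A4 B4 : ℕ) : Bool :=
  Nat.beq (Nat.land (Nat.sub (Nat.add bias
      (evN c S T A B D SS TT AA AB BB DA DB DD SSS TTT DDD DDA DDB DAA DAB DBB
        AAA AAB ABB BBB A4 B4))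
      (Nat.mul KB (evS S T A B D SS TT AA AB BB DA DB DD SSS TTT AAA BBB A4 B4
        (Nat.add (Nat.add (Nat.add (Nat.add (Nat.add (Nat.add (Nat.add DDD DDA) DDB) DAA) DAB)
          DBB) AAB) ABB)))) bias) bias

def test1 (c : Cf ℕ) (S T A B D SS TT AA AB BB DA DB DD : ℕ) : Bool :=
  test2 c S T A B D SS TT AA AB BB DA DB DD (Nat.mul SS S) (Nat.mul TT T) (Nat.mul DD D)
    (Nat.mul DD A) (Nat.mul DD B) (Nat.mul D AA) (Nat.mul D AB) (Nat.mul D BB) (Nat.mul A AA)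
    (Nat.mul A AB) (Nat.mul A BB) (Nat.mul B BB) (Nat.mul AA AA) (Nat.mul BB BB)

def test (c : Cf ℕ) (S T A B D : ℕ) : Bool :=
  test1 c S T A B D (Nat.mul S S) (Nat.mul T T) (Nat.mul A A) (Nat.mul A B) (Nat.mul B B)
    (Nat.mul D A) (Nat.mul D B) (Nat.mul D D)

def leaf (c : Cf ℕ) (s : SP) : Bool :=
  match s with
  | ⟨S, T, A, B, D⟩ => test c S T A B D

/-- Half of the base in each of the eight corner digits. -/
def bias8 : ℕ :=
  2 ^ (W - 1) * (1 + 2 ^ W + 2 ^ (5 * W) + 2 ^ (6 * W) + 2 ^ (25 * W) + 2 ^ (26 * W) +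
    2 ^ (30 * W) + 2 ^ (31 * W))

/-- The eight corner values of `u + v` are at least `c` times those of `w`. -/
def geq (c U V E : ℕ) : Bool :=
  Nat.beq (Nat.land (Nat.sub (Nat.add bias8 (Nat.add U V)) (Nat.mul c E)) bias8) bias8

/-- Caps: `bm ^ 2 > Q / 2`, `c1 ^ 2 > Q`, `dm ^ 2 > 2 Q`. -/
structure Caps where
  (Q bm c1 dm : ℕ)

/-- The subdivision driven by a stream of tokens (base 8):
`0` leaf, `1, 2, 3` split, `4, 5, 6` outside of the region. -/
def run (k : Caps) (c : Cf ℕ) : ℕ → ℕ → SP → Option ℕ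
  | 0, _, _ => none
  | f + 1, tok, s =>
    match Nat.mod tok 8 with
    | 0 => bif leaf c s then some (Nat.div tok 8) else none
    | 1 => (run k c f (Nat.div tok 8) (s.lft maskX bX)).bind fun t =>
        run k c f t (s.rgt maskX bX)
    | 2 => (run k c f (Nat.div tok 8) (s.lft maskY bY)).bind fun t =>
        run k c f t (s.rgt maskY bY)
    | 3 => (run k c f (Nat.div tok 8) (s.lft maskZ bZ)).bind fun t =>
        run k c f t (s.rgt maskZ bZ)
    | 4 => bif geq k.dm s.A s.B s.D then some (Nat.div tok 8) else none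
    | 5 => bif geq k.c1 s.A 0 s.D then some (Nat.div tok 8) else none
    | 6 => bif geq k.c1 s.B 0 s.D then some (Nat.div tok 8) else none
    | _ => none

/-! ### Certificates -/

/-- Coefficients of the quadratic polynomials `Psi, F, A+, A-, B+, B-` and of the linear
polynomials `A2+, A2-, B2+, B2-` of a cell (positive or negative parts). -/
structure Fns where
  (p0 p1 p2 f0 f1 f2 : ℕ)
  (ap0 ap1 ap2 an0 an1 an2 bp0 bp1 bp2 bn0 bn1 bn2 : ℕ)
  (cp0 cp1 cn0 cn1 dp0 dp1 dn0 dn1 : ℕ)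

/-- A cell: the offset is `o` (or `-o` if `on`), the local coordinate of `u` is
`± (u - offset)` with sign `-` if `en`; `i` is the indicator of `u ≥ 0`; `h` is the length.
The functions are differences of the ones given by `P` and `N`. -/
structure Cell where
  (o : ℕ) (on en i : Bool) (h : ℕ) (P N : Fns)

/-- Polynomials in the absolute value: `x0 * nu + x1 |a| + ... + x4 |a| ^ 4`. -/
structure Poly4 where
  (x0 x1 x2 x3 x4 : ℕ)

structure Cert where
  (lo : Cell) (inner : List Cell) (hi : Cell)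
  (MpP MpN MnP MnN LpP LpN LnP LnN : Poly4)

/-- Parameter vectors (up to a common positive factor):
`1, p, 1 - p, w = p (1 - p), nu, nu p, tau, nu tau, gamma, nu gamma, nu Q`. -/
structure Prm (K : Type) where
  (one p q w nu np t1 t0 g1 g0 nq : K)

def Prm.map {K L : Type} (f : K → L) (c : Prm K) : Prm L :=
  ⟨f c.one, f c.p, f c.q, f c.w, f c.nu, f c.np, f c.t1, f c.t0, f c.g1, f c.g0, f c.nq⟩

/-- The functions seen from one side: `Psi`, `F`, `A` (quadratic and linear part), `B` (quadratic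
and linear part). -/
structure Side where
  (p0 p1 p2 f0 f1 f2 a0 a1 a2 c0 c1 b0 b1 b2 d0 d1 : ℕ)

/-- `own` is the sign (`true` for nonnegative) of the element of the set, `oth` that of the other
element. -/
def Fns.side (c : Fns) (own oth : Bool) : Side :=
  bif own then
    (bif oth then ⟨c.p0, c.p1, c.p2, c.f0, c.f1, c.f2, c.ap0, c.ap1, c.ap2, c.cp0, c.cp1,
      c.bp0, c.bp1, c.bp2, c.dp0, c.dp1⟩
     else ⟨c.p0, c.p1, c.p2, c.f0, c.f1, c.f2, c.ap0, c.ap1, c.ap2, c.cp0, c.cp1,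
      c.bn0, c.bn1, c.bn2, c.dn0, c.dn1⟩)
  else
    (bif oth then ⟨c.p0, c.p1, c.p2, c.f0, c.f1, c.f2, c.an0, c.an1, c.an2, c.cn0, c.cn1,
      c.bp0, c.bp1, c.bp2, c.dp0, c.dp1⟩
     else ⟨c.p0, c.p1, c.p2, c.f0, c.f1, c.f2, c.an0, c.an1, c.an2, c.cn0, c.cn1,
      c.bn0, c.bn1, c.bn2, c.dn0, c.dn1⟩)

/-- The side with the sign `b`. -/
def pk (b : Bool) (P N : Side) : Side := bif b then P else N

structure Half where
  (g0 g1 g2 g3 g4 g5 g6 g7 s0 s1 s2 s3 s4 s5 s6 s7 u0 u1 u2 u3 u4 u5 x0 x1 x2 : ℕ)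

/-- Positive part of the coefficients of the half polynomial; the negative part is obtained by
exchanging `P` and `N`. Here `x, y` are the signs of the own and of the other element (`true` for
`+`), `so` the sign of the offset and `se` that of the direction. The monomials in `U` (local
coordinate), `X` (own), `Y` (other), `D` are: `DDDD DDDX DDDY DDXX DDXY DDYY DXXY DXYY`, then
`U` times `DDD DDX DDY DXX DXY DYY XXY XYY`, `U^2` times `XX XY YY DX DY DD`, `U^3` times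
`X Y D`. -/
def half (r : Prm ℕ) (o : ℕ) (so se x y : Bool) (P N : Side) : Half :=
  let vo := Nat.mul r.nu o
  let Px := pk x P N
  let Py := pk y P N
  let My := pk y N P
  let Pxy := pk (x == y) P N
  let Po := pk so P N
  let Mo := pk so N P
  let Pxo := pk (x == so) P N
  let Myo := pk (y == so) N P
  let Pe := pk se P N
  let Me := pk se N P
  let Pxe := pk (x == se) P N
  let Mye := pk (y == se) N P
  ⟨
    Nat.add (Nat.mul vo Mo.p0) (Nat.mul r.nq N.f0),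
    Nat.add (Nat.mul r.w Px.p0) (Nat.mul vo Pxo.a0),
    Nat.add (Nat.mul r.w My.p0) (Nat.mul vo Myo.b0),
    Nat.add (Nat.mul r.p P.f0) (Nat.mul vo Po.c0),
    Nat.add (Nat.mul r.q Pxy.a0) (Nat.mul r.p Pxy.b0),
    Nat.add (Nat.mul r.q P.f0) (Nat.mul vo Mo.d0),
    Nat.mul r.q Py.c0,
    Nat.mul r.p Px.d0,
    Nat.add (Nat.add (Nat.mul vo Mo.p1) (Nat.mul r.nu Me.p0)) (Nat.mul r.nq N.f1),
    Nat.add (Nat.add (Nat.mul r.w Px.p1) (Nat.mul vo Pxo.a1)) (Nat.mul r.nu Pxe.a0),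
    Nat.add (Nat.add (Nat.mul r.w My.p1) (Nat.mul vo Myo.b1)) (Nat.mul r.nu Mye.b0),
    Nat.add (Nat.add (Nat.mul r.p P.f1) (Nat.mul vo Po.c1)) (Nat.mul r.nu Pe.c0),
    Nat.add (Nat.mul r.q Pxy.a1) (Nat.mul r.p Pxy.b1),
    Nat.add (Nat.add (Nat.mul r.q P.f1) (Nat.mul vo Mo.d1)) (Nat.mul r.nu Me.d0),
    Nat.mul r.q Py.c1,
    Nat.mul r.p Px.d1,
    Nat.add (Nat.mul r.p P.f2) (Nat.mul r.nu Pe.c1),
    Nat.add (Nat.mul r.q Pxy.a2) (Nat.mul r.p Pxy.b2),
    Nat.add (Nat.mul r.q P.f2) (Nat.mul r.nu Me.d1),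
    Nat.add (Nat.add (Nat.mul r.w Px.p2) (Nat.mul vo Pxo.a2)) (Nat.mul r.nu Pxe.a1),
    Nat.add (Nat.add (Nat.mul r.w My.p2) (Nat.mul vo Myo.b2)) (Nat.mul r.nu Mye.b1),
    Nat.add (Nat.add (Nat.mul vo Mo.p2) (Nat.mul r.nu Me.p1)) (Nat.mul r.nq N.f2),
    Nat.mul r.nu Pxe.a2,
    Nat.mul r.nu Mye.b2,
    Nat.mul r.nu Me.p2⟩

/-- Positive or negative parts of the factors of the polynomials `M`, `L` for `a` (`a0, a1` for `M`, `c0, c1` for `L`) and `b` (`b0, b1`, `d0, d1`). -/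
structure Fac where
  (a0 a1 b0 b1 c0 c1 d0 d1 : ℕ)

/-- Positive parts of the factors; `u`, `v` are the indicators of `s ≥ 0`, `t ≥ 0`. -/
def facP (r : Prm ℕ) (u v : Bool) : Fac :=
  let up := bif u then r.p else 0
  let vp := bif v then r.p else 0
  let un := bif u then r.np else 0
  let vn := bif v then r.np else 0
  let u1 := bif u then r.one else 0
  let v1 := bif v then r.one else 0
  let uu := bif u then r.nu else 0
  let vv := bif v then r.nu else 0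
  ⟨un + vv, up + v1, vn + uu, vp + u1, uu, u1, vv, v1⟩

/-- Negative parts. -/
def facN (r : Prm ℕ) (u v : Bool) : Fac :=
  let up := bif u then r.p else 0
  let vp := bif v then r.p else 0
  let un := bif u then r.np else 0
  let vn := bif v then r.np else 0
  ⟨vn + r.t0, vp + r.t1, un + r.t0, up + r.t1, r.g0, r.g1, r.g0, r.g1⟩

/-- Positive part of all coefficients, given the positive and negative parts of all the data:
`e, f` are the positive and negative parts of the factors, `ma, la, mb, lb` the positive parts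
of the polynomials for `a` and `b` and `ma', ...` the negative parts. -/
def coefs1 (r : Prm ℕ) (e f : Fac) (oI oJ : ℕ) (soI seI soJ seJ sa sb : Bool)
    (PI NI PJ NJ : Side) (ma la mb lb ma' la' mb' lb' : Poly4) : Cf ℕ :=
  let hs := half r oI soI seI sa sb PI NI
  let ht := half r oJ soJ seJ sb sa PJ NJ
  ⟨
    Nat.add (Nat.add hs.g0 ht.g0) (Nat.add (Nat.add (Nat.add (Nat.add (Nat.mul e.a0 ma.x0)
      (Nat.mul f.a0 ma'.x0)) (Nat.mul e.c0 la.x0)) (Nat.mul f.c0 la'.x0)) (Nat.add (Nat.add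
      (Nat.add (Nat.mul e.b0 mb.x0) (Nat.mul f.b0 mb'.x0)) (Nat.mul e.d0 lb.x0)) (Nat.mul f.d0
      lb'.x0))),
    Nat.add (Nat.add hs.g1 ht.g2) (Nat.add (Nat.add (Nat.add (Nat.mul e.a1 ma.x1) (Nat.mul f.a1
      ma'.x1)) (Nat.mul e.c1 la.x1)) (Nat.mul f.c1 la'.x1)),
    Nat.add (Nat.add hs.g2 ht.g1) (Nat.add (Nat.add (Nat.add (Nat.mul e.b1 mb.x1) (Nat.mul f.b1
      mb'.x1)) (Nat.mul e.d1 lb.x1)) (Nat.mul f.d1 lb'.x1)),
    Nat.add (Nat.add hs.g3 ht.g5) (Nat.add (Nat.add (Nat.add (Nat.mul e.a1 ma.x2) (Nat.mul f.a1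
      ma'.x2)) (Nat.mul e.c1 la.x2)) (Nat.mul f.c1 la'.x2)),
    Nat.add hs.g4 ht.g4,
    Nat.add (Nat.add hs.g5 ht.g3) (Nat.add (Nat.add (Nat.add (Nat.mul e.b1 mb.x2) (Nat.mul f.b1
      mb'.x2)) (Nat.mul e.d1 lb.x2)) (Nat.mul f.d1 lb'.x2)),
    Nat.add (Nat.add (Nat.add (Nat.mul e.a1 ma.x3) (Nat.mul f.a1 ma'.x3)) (Nat.mul e.c1 la.x3))
      (Nat.mul f.c1 la'.x3),
    Nat.add hs.g6 ht.g7,
    Nat.add hs.g7 ht.g6,
    Nat.add (Nat.add (Nat.add (Nat.mul e.b1 mb.x3) (Nat.mul f.b1 mb'.x3)) (Nat.mul e.d1 lb.x3))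
      (Nat.mul f.d1 lb'.x3),
    Nat.add (Nat.add (Nat.add (Nat.mul e.a1 ma.x4) (Nat.mul f.a1 ma'.x4)) (Nat.mul e.c1 la.x4))
      (Nat.mul f.c1 la'.x4),
    Nat.add (Nat.add (Nat.add (Nat.mul e.b1 mb.x4) (Nat.mul f.b1 mb'.x4)) (Nat.mul e.d1 lb.x4))
      (Nat.mul f.d1 lb'.x4),
    hs.s0,
    hs.s1,
    hs.s2,
    hs.s3,
    hs.s4,
    hs.s5,
    hs.s6,
    hs.s7,
    ht.s0,
    ht.s2,
    ht.s1,
    ht.s5,
    ht.s4,
    ht.s3,
    ht.s7,
    ht.s6,
    hs.u0,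
    hs.u1,
    hs.u2,
    hs.u3,
    hs.u4,
    hs.u5,
    ht.u2,
    ht.u1,
    ht.u0,
    ht.u4,
    ht.u3,
    ht.u5,
    hs.x0,
    hs.x1,
    hs.x2,
    ht.x1,
    ht.x0,
    ht.x2⟩

/-- Positive (`sg = true`) or negative part of the coefficients for a pair of cells and a sector
`(sa, sb)` (signs of `a` and `b`). -/
def coefs (z : Cert) (r : Prm ℕ) (I J : Cell) (sa sb sg : Bool) : Cf ℕ :=
  let maP := bif sa then z.MpP else z.MnP
  let maN := bif sa then z.MpN else z.MnN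
  let laP := bif sa then z.LpP else z.LnP
  let laN := bif sa then z.LpN else z.LnN
  let mbP := bif sb then z.MpP else z.MnP
  let mbN := bif sb then z.MpN else z.MnN
  let lbP := bif sb then z.LpP else z.LnP
  let lbN := bif sb then z.LpN else z.LnN
  bif sg then
    coefs1 r (facP r I.i J.i) (facN r I.i J.i) I.o J.o (!I.on) (!I.en) (!J.on) (!J.en) sa sb
      (I.P.side sa sb) (I.N.side sa sb) (J.P.side sb sa) (J.N.side sb sa)
      maP laP mbP lbP maN laN mbN lbN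
  else
    coefs1 r (facP r I.i J.i) (facN r I.i J.i) I.o J.o (!I.on) (!I.en) (!J.on) (!J.en) sa sb
      (I.N.side sa sb) (I.P.side sa sb) (J.N.side sb sa) (J.P.side sb sa)
      maN laN mbN lbN maP laP mbP lbP

/-! ### Initial states -/

/-- Corner values of `A` and `B` in a sector, given the corner values `d0, d1, d2, d3` of
`d = a - b` at `(x, y) = 00, 01, 10, 11`; `g` is the bound for the smaller absolute value. -/
def sector (sa sb : Bool) (g d0 d1 d2 d3 : ℕ) : V8 × V8 :=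
  bif sa then
    (bif sb then (⟨d0, d0 + g, d1, d1 + g, d2, d2 + g, d3, d3 + g⟩, ⟨0, g, 0, g, 0, g, 0, g⟩)
     else (⟨0, d0, 0, d1, 0, d2, 0, d3⟩, ⟨d0, 0, d1, 0, d2, 0, d3, 0⟩))
  else (⟨0, g, 0, g, 0, g, 0, g⟩, ⟨d0, d0 + g, d1, d1 + g, d2, d2 + g, d3, d3 + g⟩)

def one8 : V8 := ⟨1, 1, 1, 1, 1, 1, 1, 1⟩

/-- Difference of the offsets, `J` to the left of `I`. -/
def gap (I J : Cell) : ℕ :=
  bif I.on then J.o - I.o else (bif J.on then I.o + J.o else I.o - J.o)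

/-- Distinct cells, `J` to the left of `I`. -/
def initR (k : Caps) (I J : Cell) (sa sb : Bool) : St :=
  let g := gap I J
  let ab := bif J.en then sector sa sb k.bm g (g + J.h) (g + I.h) (g + I.h + J.h)
    else sector sa sb k.bm g (g - J.h) (g + I.h) (g + I.h - J.h)
  ⟨⟨0, 0, 0, 0, I.h, I.h, I.h, I.h⟩, ⟨0, 0, J.h, J.h, 0, 0, J.h, J.h⟩, ab.1, ab.2, one8⟩

/-- The same inner cell. -/
def initT (k : Caps) (I : Cell) (sa sb : Bool) : St :=
  let ab := sector sa sb k.bm 0 I.h 0 I.h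
  ⟨⟨0, 0, I.h, I.h, I.h, I.h, I.h, I.h⟩, ⟨0, 0, 0, 0, I.h, I.h, 0, 0⟩, ab.1, ab.2, one8⟩

/-- The upper tail: `x = 1` is the point at infinity. -/
def initU (k : Caps) (I : Cell) (sa sb : Bool) : St :=
  let ab := sector sa sb k.bm 0 I.h 0 0
  ⟨⟨0, 0, I.h, I.h, 1, 1, 1, 1⟩, ⟨0, 0, 0, 0, 1, 1, 1, 1⟩,
    ⟨ab.1.a0, ab.1.a1, ab.1.a2, ab.1.a3, 0, 0, 0, 0⟩,
    ⟨ab.2.a0, ab.2.a1, ab.2.a2, ab.2.a3, 0, 0, 0, 0⟩, ⟨1, 1, 1, 1, 0, 0, 0, 0⟩⟩

/-- The lower tail. -/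
def initL (k : Caps) (I : Cell) (sa sb : Bool) : St :=
  let s := initU k I sa sb
  ⟨s.T, s.S, s.A, s.B, s.D⟩

/-! ### The full check for one parameter vector -/

def fuel : ℕ := 14

/-- Sum of the coefficients. -/
def Cf.sum (c : Cf ℕ) : ℕ :=
  match c with
  | ⟨g0, g1, g2, g3, g4, g5, g6, g7, g8, g9, a4, b4, s0, s1, s2, s3, s4, s5, s6, s7, t0, t1, t2, t3, t4, t5, t6, t7, u0, u1, u2, u3, u4, u5, v0, v1, v2, v3, v4, v5, x0, x1, x2, y0, y1, y2⟩ =>
    Nat.add (Nat.add (Nat.add (Nat.add (Nat.add (Nat.add (Nat.add (Nat.add (Nat.add (Nat.add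
      (Nat.add (Nat.add (Nat.add (Nat.add (Nat.add (Nat.add (Nat.add (Nat.add (Nat.add (Nat.add
      (Nat.add (Nat.add (Nat.add (Nat.add (Nat.add (Nat.add (Nat.add (Nat.add (Nat.add (Nat.add
      (Nat.add (Nat.add (Nat.add (Nat.add (Nat.add (Nat.add (Nat.add (Nat.add (Nat.add (Nat.add
      (Nat.add (Nat.add (Nat.add (Nat.add (Nat.add g0 g1) g2) g3) g4) g5) g6) g7) g8) g9) a4) b4)
      s0) s1) s2) s3) s4) s5) s6) s7) t0) t1) t2) t3) t4) t5) t6) t7) u0) u1) u2) u3) u4) u5) v0)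
      v1) v2) v3) v4) v5) x0) x1) x2) y0) y1) y2

/-- The shifted difference `K + p - n` of two coefficient arrays. -/
def shift (p n : Cf ℕ) : Cf ℕ :=
  ⟨Nat.sub (Nat.add KB p.g0) n.g0, Nat.sub (Nat.add KB p.g1) n.g1, Nat.sub (Nat.add KB p.g2) n.g2,
    Nat.sub (Nat.add KB p.g3) n.g3, Nat.sub (Nat.add KB p.g4) n.g4, Nat.sub (Nat.add KB p.g5)
    n.g5, Nat.sub (Nat.add KB p.g6) n.g6, Nat.sub (Nat.add KB p.g7) n.g7, Nat.sub (Nat.add KB
    p.g8) n.g8, Nat.sub (Nat.add KB p.g9) n.g9, Nat.sub (Nat.add KB p.a4) n.a4, Nat.sub (Nat.add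
    KB p.b4) n.b4, Nat.sub (Nat.add KB p.s0) n.s0, Nat.sub (Nat.add KB p.s1) n.s1, Nat.sub
    (Nat.add KB p.s2) n.s2, Nat.sub (Nat.add KB p.s3) n.s3, Nat.sub (Nat.add KB p.s4) n.s4,
    Nat.sub (Nat.add KB p.s5) n.s5, Nat.sub (Nat.add KB p.s6) n.s6, Nat.sub (Nat.add KB p.s7)
    n.s7, Nat.sub (Nat.add KB p.t0) n.t0, Nat.sub (Nat.add KB p.t1) n.t1, Nat.sub (Nat.add KB
    p.t2) n.t2, Nat.sub (Nat.add KB p.t3) n.t3, Nat.sub (Nat.add KB p.t4) n.t4, Nat.sub (Nat.add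
    KB p.t5) n.t5, Nat.sub (Nat.add KB p.t6) n.t6, Nat.sub (Nat.add KB p.t7) n.t7, Nat.sub
    (Nat.add KB p.u0) n.u0, Nat.sub (Nat.add KB p.u1) n.u1, Nat.sub (Nat.add KB p.u2) n.u2,
    Nat.sub (Nat.add KB p.u3) n.u3, Nat.sub (Nat.add KB p.u4) n.u4, Nat.sub (Nat.add KB p.u5)
    n.u5, Nat.sub (Nat.add KB p.v0) n.v0, Nat.sub (Nat.add KB p.v1) n.v1, Nat.sub (Nat.add KB
    p.v2) n.v2, Nat.sub (Nat.add KB p.v3) n.v3, Nat.sub (Nat.add KB p.v4) n.v4, Nat.sub (Nat.add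
    KB p.v5) n.v5, Nat.sub (Nat.add KB p.x0) n.x0, Nat.sub (Nat.add KB p.x1) n.x1, Nat.sub
    (Nat.add KB p.x2) n.x2, Nat.sub (Nat.add KB p.y0) n.y0, Nat.sub (Nat.add KB p.y1) n.y1,
    Nat.sub (Nat.add KB p.y2) n.y2⟩

/-- Bound for the initial corner values. -/
def maxIni : ℕ := 240

def small (c : Cf ℕ) : Bool := Nat.ble c.sum KB

def runOne (z : Cert) (k : Caps) (r : Prm ℕ) (I J : Cell) (s : St) (sa sb : Bool) (tok : ℕ) :
    Option ℕ :=
  let p := coefs z r I J sa sb true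
  let n := coefs z r I J sa sb false
  bif small p && small n then run k (shift p n) fuel tok s.pack else none

/-- The three sectors one after the other. -/
def run3 (z : Cert) (k : Caps) (r : Prm ℕ) (I J : Cell) (s : Bool → Bool → St) (tok : ℕ) :
    Option ℕ :=
  (runOne z k r I J (s true true) true true tok).bind fun t1 =>
    (runOne z k r I J (s false false) false false t1).bind fun t2 =>
      runOne z k r I J (s true false) true false t2

/-- All cells `J` of a list, to the left of `I`. -/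
def runRow (z : Cert) (k : Caps) (r : Prm ℕ) (I : Cell) : List Cell → ℕ → Option ℕ
  | [], tok => some tok
  | J :: l, tok => (run3 z k r I J (initR k I J) tok).bind fun t => runRow z k r I l t

/-- Inner cells: for each, the pairs with the cells to the left, then the cell itself. -/
def runInner (z : Cert) (k : Caps) (r : Prm ℕ) (left : List Cell) :
    List Cell → ℕ → Option ℕ
  | [], tok => some tok
  | I :: l, tok => (runRow z k r I left tok).bind fun t1 =>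
      (run3 z k r I I (initT k I) t1).bind fun t2 => runInner z k r (I :: left) l t2

/-- The complete check. -/
def check (z : Cert) (k : Caps) (r : Prm ℕ) (tok : ℕ) : Bool :=
  match ((run3 z k r z.lo z.lo (initL k z.lo) tok).bind fun t0 =>
    (runInner z k r [z.lo] z.inner t0).bind fun t1 =>
      (runRow z k r z.hi (z.inner.reverse ++ [z.lo]) t1).bind fun t2 =>
        run3 z k r z.hi z.hi (initU k z.hi) t2) with
  | some _ => true
  | none => false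

end Pool.Agent.MMS6
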