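import Pool.Agent.MMS6.Defs

/-!
Comparison of digits by a single `land`.

Let `H = 2 ^ (W - 1)` be half of the base `2 ^ W`. For digits `x, y < H` and a mask digit `m = H`
the digit of `bias + X - Y` is `H + x - y` (between `1` and `2 ^ W - 1`, no carries), and its top
bit is set iff `y ≤ x`. Proof: induction on the list, splitting off the lowest digit:
`(β a + c) land (β b + d) = β (a land b) + (c land d)` for `c, d < β` (use `Nat.testBit`, e.g.
`Nat.testBit_mul_pow_two_add`, or `Nat.land` together with `Nat.mod_two_pow`/`Nat.shiftRight`).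
For the lowest digit: `e land H = H` with `e < 2 H` implies `H ≤ e` (`Nat.and_le_left`).
-/

set_option autoImplicit false

namespace Pool.Agent.MMS6

/-- The lists of the triples `(m, x, y)`: mask digit, digit of the first and second number. -/
def val (f : ℕ × ℕ × ℕ → ℕ) (L : List (ℕ × ℕ × ℕ)) : ℕ := Nat.ofDigits (2 ^ W) (L.map f)

/-- Lowest digit and the rest of a bitwise `and`. -/
theorem land_split (k a b c d : ℕ) (hc : c < 2 ^ k) (hd : d < 2 ^ k) :
    (c + 2 ^ k * a) &&& (d + 2 ^ k * b) = (c &&& d) + 2 ^ k * (a &&& b) := by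
  have hcd : (c &&& d) < 2 ^ k := lt_of_le_of_lt Nat.and_le_left hc
  apply Nat.eq_of_testBit_eq
  intro i
  rw [Nat.testBit_and, add_comm c, add_comm d, add_comm (c &&& d),
    Nat.testBit_two_pow_mul_add a hc, Nat.testBit_two_pow_mul_add b hd,
    Nat.testBit_two_pow_mul_add (a &&& b) hcd]
  by_cases hi : i < k
  · simp [hi]
  · simp [hi]

theorem val_cons (f : ℕ × ℕ × ℕ → ℕ) (t : ℕ × ℕ × ℕ) (L : List (ℕ × ℕ × ℕ)) :
    val f (t :: L) = f t + 2 ^ W * val f L := by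
  simp [val, Nat.ofDigits_cons]

theorem val_le (L : List (ℕ × ℕ × ℕ))
    (hL : ∀ t ∈ L, (t.1 = 2 ^ (W - 1) ∧ t.2.1 < 2 ^ (W - 1) ∧ t.2.2 < 2 ^ (W - 1)) ∨
      (t.1 = 0 ∧ t.2.1 = 0 ∧ t.2.2 = 0)) :
    val (fun t => t.2.2) L ≤ val (fun t => t.1) L + val (fun t => t.2.1) L := by
  induction L with
  | nil => simp [val]
  | cons t L ih =>
    rw [val_cons, val_cons, val_cons]
    have h1 := ih (fun s hs => hL s (List.mem_cons_of_mem _ hs))
    have h2 := hL t List.mem_cons_self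
    have h3 : t.2.2 ≤ t.1 + t.2.1 := by
      rcases h2 with ⟨a, b, c⟩ | ⟨a, b, c⟩ <;> omega
    have h4 := Nat.mul_le_mul_left (2 ^ W) h1
    rw [Nat.mul_add] at h4
    linarith

theorem digits_test (L : List (ℕ × ℕ × ℕ))
    (hL : ∀ t ∈ L, (t.1 = 2 ^ (W - 1) ∧ t.2.1 < 2 ^ (W - 1) ∧ t.2.2 < 2 ^ (W - 1)) ∨
      (t.1 = 0 ∧ t.2.1 = 0 ∧ t.2.2 = 0))
    (h : Nat.land (val (fun t => t.1) L + val (fun t => t.2.1) L - val (fun t => t.2.2) L)
      (val (fun t => t.1) L) = val (fun t => t.1) L) :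
    ∀ t ∈ L, t.2.2 ≤ t.2.1 := by
  induction L with
  | nil => simp
  | cons t L ih =>
    have hL' : ∀ s ∈ L, (s.1 = 2 ^ (W - 1) ∧ s.2.1 < 2 ^ (W - 1) ∧ s.2.2 < 2 ^ (W - 1)) ∨
      (s.1 = 0 ∧ s.2.1 = 0 ∧ s.2.2 = 0) := fun s hs => hL s (List.mem_cons_of_mem _ hs)
    have h0 := val_le L hL'
    have h2 := hL t List.mem_cons_self
    rw [val_cons, val_cons, val_cons] at h
    have hW : (2 : ℕ) ^ W = 2 * 2 ^ (W - 1) := by
      rw [← pow_succ']
      rfl
    have hpos : 0 < 2 ^ (W - 1) := pow_pos (by norm_num) _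
    set M := val (fun t => t.1) L with hM
    set X := val (fun t => t.2.1) L with hX
    set Y := val (fun t => t.2.2) L with hY
    have h3 : t.2.2 ≤ t.1 + t.2.1 := by
      rcases h2 with ⟨a, b, c⟩ | ⟨a, b, c⟩ <;> omega
    have hc : t.1 + t.2.1 - t.2.2 < 2 ^ W := by
      rcases h2 with ⟨a, b, c⟩ | ⟨a, b, c⟩ <;> omega
    have hd : t.1 < 2 ^ W := by
      rcases h2 with ⟨a, b, c⟩ | ⟨a, b, c⟩ <;> omega
    have h4 : t.1 + 2 ^ W * M + (t.2.1 + 2 ^ W * X) - (t.2.2 + 2 ^ W * Y) =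
        (t.1 + t.2.1 - t.2.2) + 2 ^ W * (M + X - Y) := by
      obtain ⟨e, he⟩ := Nat.exists_eq_add_of_le h3
      obtain ⟨E, hE⟩ := Nat.exists_eq_add_of_le h0
      rw [he, hE, Nat.add_sub_cancel_left, Nat.add_sub_cancel_left]
      apply Nat.sub_eq_of_eq_add
      calc t.1 + 2 ^ W * M + (t.2.1 + 2 ^ W * X) = (t.1 + t.2.1) + 2 ^ W * (M + X) := by ring
        _ = e + 2 ^ W * E + (t.2.2 + 2 ^ W * Y) := by rw [he, hE]; ring
    rw [h4] at h
    have h5 : ((t.1 + t.2.1 - t.2.2) + 2 ^ W * (M + X - Y)) &&& (t.1 + 2 ^ W * M) =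
      t.1 + 2 ^ W * M := h
    rw [land_split W _ _ _ _ hc hd] at h5
    have h6 : ((t.1 + t.2.1 - t.2.2) &&& t.1) < 2 ^ W := lt_of_le_of_lt Nat.and_le_left hc
    have hWp : 0 < 2 ^ W := pow_pos (by norm_num) _
    have h7 : ((t.1 + t.2.1 - t.2.2) &&& t.1) = t.1 := by
      have := congrArg (fun z => z % 2 ^ W) h5
      simpa [Nat.add_mul_mod_self_left, Nat.mod_eq_of_lt h6, Nat.mod_eq_of_lt hd] using this
    have h8 : ((M + X - Y) &&& M) = M := by
      rw [h7] at h5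
      exact Nat.eq_of_mul_eq_mul_left hWp (Nat.add_left_cancel h5)
    intro s hs
    rcases List.mem_cons.mp hs with rfl | hs
    · rcases h2 with ⟨a, b, c⟩ | ⟨a, b, c⟩
      · have h9 : s.1 ≤ s.1 + s.2.1 - s.2.2 := by
          calc s.1 = ((s.1 + s.2.1 - s.2.2) &&& s.1) := h7.symm
            _ ≤ _ := Nat.and_le_left
        omega
      · omega
    · exact ih hL' h8 s hs

theorem geom_aux (k n : ℕ) :
    Nat.ofDigits (2 ^ k) (List.replicate n (2 ^ (k - 1))) * (2 ^ k - 1) =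
      (2 ^ (n * k) - 1) * 2 ^ (k - 1) := by
  induction n with
  | zero => simp
  | succ n ih =>
    rw [List.replicate_succ, Nat.ofDigits_cons]
    obtain ⟨a, ha⟩ : ∃ a, 2 ^ k = a + 1 := ⟨2 ^ k - 1, by
      have : 0 < 2 ^ k := pow_pos (by norm_num) _
      omega⟩
    obtain ⟨b, hb⟩ : ∃ b, 2 ^ (n * k) = b + 1 := ⟨2 ^ (n * k) - 1, by
      have : 0 < 2 ^ (n * k) := pow_pos (by norm_num) _
      omega⟩
    have hs : 2 ^ ((n + 1) * k) = (b + 1) * (a + 1) := by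
      rw [Nat.add_mul, one_mul, pow_add, ha, hb]
    have e1 : 2 ^ k - 1 = a := by omega
    have e2 : 2 ^ (n * k) - 1 = b := by omega
    have e3 : 2 ^ ((n + 1) * k) - 1 = a + b * (a + 1) := by
      rw [hs]
      have : (b + 1) * (a + 1) = a + b * (a + 1) + 1 := by ring
      omega
    rw [e1, e2] at ih
    rw [e1, e3, Nat.add_mul, Nat.mul_assoc, ih, ha]
    ring

theorem bias_aux (k n : ℕ) (hk : 1 < 2 ^ k) :
    (2 ^ (n * k) - 1) / (2 ^ k - 1) * 2 ^ (k - 1) =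
      Nat.ofDigits (2 ^ k) (List.replicate n (2 ^ (k - 1))) := by
  have h := geom_aux k n
  have hpos : 0 < 2 ^ k - 1 := by omega
  have hdvd : (2 ^ k - 1) ∣ (2 ^ (n * k) - 1) := by
    have := Nat.sub_dvd_pow_sub_pow (2 ^ k) 1 n
    rw [one_pow, ← pow_mul, Nat.mul_comm k n] at this
    exact this
  obtain ⟨q, hq⟩ := hdvd
  rw [hq, Nat.mul_div_cancel_left _ hpos]
  apply Nat.eq_of_mul_eq_mul_right hpos
  rw [h, hq]
  ring

/-- `bias` in digits. -/
theorem bias_eq : bias = Nat.ofDigits (2 ^ W) (List.replicate 125 (2 ^ (W - 1))) :=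
  bias_aux W 125 (Nat.one_lt_two_pow (by decide))

end Pool.Agent.MMS6
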