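import Pool.Agent.MMS6.Sem

/-!
The coefficients of the half polynomial: the difference of the values of `half` for `(P, N)` and
for `(N, P)` is the half function. Proof: `cases so <;> cases se <;> cases x <;> cases y` (16
cases), unfold everything (`half`, `pk`, `SideR.half`, `Side.dif`, `df`, `sgn`), `push_cast`,
`ring`. Here the number `D` is `1`.
-/

set_option autoImplicit false

namespace Pool.Agent.MMS6

/-- Value of the half polynomial in `U` (local coordinate), `X` (absolute value of the own
element), `Y` (absolute value of the other element). -/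
def Half.ev (h : Half) (U X Y : ℝ) : ℝ :=
  h.g0 + h.g1 * X + h.g2 * Y + h.g3 * (X * X) + h.g4 * (X * Y) + h.g5 * (Y * Y) +
    h.g6 * (X * (X * Y)) + h.g7 * (X * (Y * Y)) +
    U * (h.s0 + h.s1 * X + h.s2 * Y + h.s3 * (X * X) + h.s4 * (X * Y) + h.s5 * (Y * Y) +
      h.s6 * (X * (X * Y)) + h.s7 * (X * (Y * Y))) +
    U * U * (h.u0 * (X * X) + h.u1 * (X * Y) + h.u2 * (Y * Y) + h.u3 * X + h.u4 * Y + h.u5) +
    U * U * U * (h.x0 * X + h.x1 * Y + h.x2)

theorem half_dif (r : Prm ℕ) (o : ℕ) (so se x y : Bool) (P N : Side) (U X Y : ℝ) :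
    (half r o so se x y P N).ev U X Y - (half r o so se x y N P).ev U X Y =
      (P.dif N).half r.re (sgn so * o) (sgn se) U (sgn x * X) (sgn y * Y) := by
  sorry

end Pool.Agent.MMS6
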