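import Pool.Agent.MMS6.ExpHalf

/-!
The coefficients computed by the checker are those of the pair function.
-/

set_option autoImplicit false

namespace Pool.Agent.MMS6

/-- The terms with `M` and `L` of one element. -/
def mlEv (ea fa ec fc ea1 fa1 ec1 fc1 : ℕ) (m l m' l' : Poly4) (X : ℝ) : ℝ :=
  (ea * m.x0 + fa * m'.x0 + ec * l.x0 + fc * l'.x0) +
  (ea1 * m.x1 + fa1 * m'.x1 + ec1 * l.x1 + fc1 * l'.x1) * X +
  (ea1 * m.x2 + fa1 * m'.x2 + ec1 * l.x2 + fc1 * l'.x2) * X ^ 2 +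
  (ea1 * m.x3 + fa1 * m'.x3 + ec1 * l.x3 + fc1 * l'.x3) * X ^ 3 +
  (ea1 * m.x4 + fa1 * m'.x4 + ec1 * l.x4 + fc1 * l'.x4) * X ^ 4

/-- The value of the coefficient array in terms of the halves. Unfold `coefs1`, `Cf.map`,
`Cf.ev`, `Half.ev`, `mlEv`, `push_cast`, `ring`. -/
theorem coefs1_ev (r : Prm ℕ) (e f : Fac) (oI oJ : ℕ) (soI seI soJ seJ sa sb : Bool)
    (PI NI PJ NJ : Side) (ma la mb lb ma' la' mb' lb' : Poly4) (S T X Y : ℝ) :
    ((coefs1 r e f oI oJ soI seI soJ seJ sa sb PI NI PJ NJ ma la mb lb ma' la' mb' lb').map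
      (fun n : ℕ => (n : ℝ))).ev S T X Y 1 =
    (half r oI soI seI sa sb PI NI).ev S X Y + (half r oJ soJ seJ sb sa PJ NJ).ev T Y X +
      mlEv e.a0 f.a0 e.c0 f.c0 e.a1 f.a1 e.c1 f.c1 ma la ma' la' X +
      mlEv e.b0 f.b0 e.d0 f.d0 e.b1 f.b1 e.d1 f.d1 mb lb mb' lb' Y := by
  sorry

/-- Difference of the factors. -/
theorem fac_dif (r : Prm ℕ) (u v : Bool) :
    ((facP r u v).a0 : ℝ) - (facN r u v).a0 = kM0 r.re (bif u then 1 else 0) (bif v then 1 else 0) ∧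
    ((facP r u v).a1 : ℝ) - (facN r u v).a1 = kM1 r.re (bif u then 1 else 0) (bif v then 1 else 0) ∧
    ((facP r u v).b0 : ℝ) - (facN r u v).b0 = kM0 r.re (bif v then 1 else 0) (bif u then 1 else 0) ∧
    ((facP r u v).b1 : ℝ) - (facN r u v).b1 = kM1 r.re (bif v then 1 else 0) (bif u then 1 else 0) ∧
    ((facP r u v).c0 : ℝ) - (facN r u v).c0 = kL0 r.re (bif u then 1 else 0) ∧
    ((facP r u v).c1 : ℝ) - (facN r u v).c1 = kL1 r.re (bif u then 1 else 0) ∧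
    ((facP r u v).d0 : ℝ) - (facN r u v).d0 = kL0 r.re (bif v then 1 else 0) ∧
    ((facP r u v).d1 : ℝ) - (facN r u v).d1 = kL1 r.re (bif v then 1 else 0) := by
  sorry

/-- The expansion of the pair function of two cells. -/
theorem expand (z : Cert) (r : Prm ℕ) (I J : Cell) (sa sb : Bool) (S T X Y : ℝ) :
    ((coefs z r I J sa sb true).map (fun n : ℕ => (n : ℝ))).ev S T X Y 1 -
      ((coefs z r I J sa sb false).map (fun n : ℕ => (n : ℝ))).ev S T X Y 1 =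
    Rcell z r.re I J sa sb S T X Y := by
  sorry

end Pool.Agent.MMS6
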