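import Pool.Agent.MMS6.Weights

/-!
The operations on packed corner values agree with those on corner values.

`V8.pack v` has the digits `a0, a4, a2, a6, a1, a5, a3, a7` at the positions
`0, 1, 5, 6, 25, 26, 30, 31` (all other digits are `0`). `maskX` has the digit `2 ^ W - 1` at the
positions `0, 5, 25, 30`, so `Nat.land v.pack maskX = a0 + a2 β^5 + a1 β^25 + a3 β^30`, and the
halvings follow by `ring`-like computations: with `F = F0 + β F1` one has
`xl = 2 F0 + β (F0 + F1) = F + F0 (β + 1)` and `xr = (F0 + F1) + 2 β F1 = F + F1 (β + 1)`.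
The computation of `Nat.land` can be done digit by digit with
`(β a + c) land (β b + d) = β (a land b) + (c land d)` (for `c, d < β`), or by `Nat.testBit`.
-/

set_option autoImplicit false

namespace Pool.Agent.MMS6

private theorem and_add {k a b c d : ℕ} (hc : c < 2 ^ k) (hd : d < 2 ^ k) :
    (c + 2 ^ k * a) &&& (d + 2 ^ k * b) = (c &&& d) + 2 ^ k * (a &&& b) := by
  have hcd : c &&& d < 2 ^ k := lt_of_le_of_lt Nat.and_le_left hc
  rw [add_comm c, add_comm d, add_comm (c &&& d)]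
  apply Nat.eq_of_testBit_eq
  intro j
  rw [Nat.testBit_and, Nat.testBit_two_pow_mul_add a hc, Nat.testBit_two_pow_mul_add b hd,
    Nat.testBit_two_pow_mul_add (a &&& b) hcd]
  split_ifs <;> simp [Nat.testBit_and]

private theorem and_mask {k c : ℕ} (hc : c < 2 ^ k) : c &&& (2 ^ k - 1) = c := by
  rw [Nat.and_two_pow_sub_one_eq_mod, Nat.mod_eq_of_lt hc]

/-- The eight digits one after the other, with the gaps of the packing. -/
private def nest (w x0 x1 x2 x3 x4 x5 x6 x7 : ℕ) : ℕ :=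
  x0 + 2 ^ w * (x1 + 2 ^ (4 * w) * (x2 + 2 ^ w * (x3 + 2 ^ (19 * w) *
    (x4 + 2 ^ w * (x5 + 2 ^ (4 * w) * (x6 + 2 ^ w * x7))))))

private theorem nest_eq (w x0 x1 x2 x3 x4 x5 x6 x7 : ℕ) :
    nest w x0 x1 x2 x3 x4 x5 x6 x7 =
      x0 + x1 * 2 ^ w + x2 * 2 ^ (5 * w) + x3 * 2 ^ (6 * w) + x4 * 2 ^ (25 * w) +
        x5 * 2 ^ (26 * w) + x6 * 2 ^ (30 * w) + x7 * 2 ^ (31 * w) := by
  have h : ∀ n : ℕ, 2 ^ (n * w) = (2 ^ w) ^ n := fun n => by rw [mul_comm, pow_mul]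
  simp only [nest, h]
  generalize 2 ^ w = β
  ring

private theorem nest_and {w x0 x1 x2 x3 x4 x5 x6 x7 y0 y1 y2 y3 y4 y5 y6 y7 : ℕ}
    (h0 : x0 < 2 ^ w) (h1 : x1 < 2 ^ w) (h2 : x2 < 2 ^ w) (h3 : x3 < 2 ^ w)
    (h4 : x4 < 2 ^ w) (h5 : x5 < 2 ^ w) (h6 : x6 < 2 ^ w)
    (k0 : y0 < 2 ^ w) (k1 : y1 < 2 ^ w) (k2 : y2 < 2 ^ w) (k3 : y3 < 2 ^ w)
    (k4 : y4 < 2 ^ w) (k5 : y5 < 2 ^ w) (k6 : y6 < 2 ^ w) :
    nest w x0 x1 x2 x3 x4 x5 x6 x7 &&& nest w y0 y1 y2 y3 y4 y5 y6 y7 =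
      nest w (x0 &&& y0) (x1 &&& y1) (x2 &&& y2) (x3 &&& y3) (x4 &&& y4) (x5 &&& y5)
        (x6 &&& y6) (x7 &&& y7) := by
  have e4 : 2 ^ w ≤ 2 ^ (4 * w) := Nat.pow_le_pow_right (by norm_num) (by omega)
  have e19 : 2 ^ w ≤ 2 ^ (19 * w) := Nat.pow_le_pow_right (by norm_num) (by omega)
  unfold nest
  rw [and_add h0 k0, and_add (h1.trans_le e4) (k1.trans_le e4), and_add h2 k2,
    and_add (h3.trans_le e19) (k3.trans_le e19), and_add h4 k4,
    and_add (h5.trans_le e4) (k5.trans_le e4), and_add h6 k6]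

private theorem pack_nest (v : V8) :
    v.pack = nest W v.a0 v.a4 v.a2 v.a6 v.a1 v.a5 v.a3 v.a7 := by
  rw [nest_eq]; rfl

private theorem maskX_nest :
    maskX = nest W (2 ^ W - 1) 0 (2 ^ W - 1) 0 (2 ^ W - 1) 0 (2 ^ W - 1) 0 := by
  rw [nest_eq, maskX]; ring

private theorem maskY_nest :
    maskY = nest W (2 ^ W - 1) (2 ^ W - 1) 0 0 (2 ^ W - 1) (2 ^ W - 1) 0 0 := by
  rw [nest_eq, maskY]; ring

private theorem maskZ_nest :
    maskZ = nest W (2 ^ W - 1) (2 ^ W - 1) (2 ^ W - 1) (2 ^ W - 1) 0 0 0 0 := by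
  rw [nest_eq, maskZ]; ring

private theorem mask_lt : 2 ^ W - 1 < 2 ^ W := Nat.sub_lt (by positivity) one_pos

private theorem zero_lt' : 0 < 2 ^ W := by positivity

private theorem land_maskX {v : V8} {b : ℕ} (h : v.Le b) (hb : b < 2 ^ W) :
    Nat.land v.pack maskX = nest W v.a0 0 v.a2 0 v.a1 0 v.a3 0 := by
  obtain ⟨h0, h1, h2, h3, h4, h5, h6, h7⟩ := h
  show v.pack &&& maskX = _
  rw [pack_nest, maskX_nest, nest_and (h0.trans_lt hb) (h4.trans_lt hb) (h2.trans_lt hb)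
    (h6.trans_lt hb) (h1.trans_lt hb) (h5.trans_lt hb) (h3.trans_lt hb) mask_lt zero_lt' mask_lt
    zero_lt' mask_lt zero_lt' mask_lt, and_mask (h0.trans_lt hb), and_mask (h2.trans_lt hb),
    and_mask (h1.trans_lt hb), and_mask (h3.trans_lt hb)]
  simp only [Nat.and_zero]

private theorem land_maskY {v : V8} {b : ℕ} (h : v.Le b) (hb : b < 2 ^ W) :
    Nat.land v.pack maskY = nest W v.a0 v.a4 0 0 v.a1 v.a5 0 0 := by
  obtain ⟨h0, h1, h2, h3, h4, h5, h6, h7⟩ := h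
  show v.pack &&& maskY = _
  rw [pack_nest, maskY_nest, nest_and (h0.trans_lt hb) (h4.trans_lt hb) (h2.trans_lt hb)
    (h6.trans_lt hb) (h1.trans_lt hb) (h5.trans_lt hb) (h3.trans_lt hb) mask_lt mask_lt zero_lt'
    zero_lt' mask_lt mask_lt zero_lt', and_mask (h0.trans_lt hb), and_mask (h4.trans_lt hb),
    and_mask (h1.trans_lt hb), and_mask (h5.trans_lt hb)]
  simp only [Nat.and_zero]

private theorem land_maskZ {v : V8} {b : ℕ} (h : v.Le b) (hb : b < 2 ^ W) :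
    Nat.land v.pack maskZ = nest W v.a0 v.a4 v.a2 v.a6 0 0 0 0 := by
  obtain ⟨h0, h1, h2, h3, h4, h5, h6, h7⟩ := h
  show v.pack &&& maskZ = _
  rw [pack_nest, maskZ_nest, nest_and (h0.trans_lt hb) (h4.trans_lt hb) (h2.trans_lt hb)
    (h6.trans_lt hb) (h1.trans_lt hb) (h5.trans_lt hb) (h3.trans_lt hb) mask_lt mask_lt mask_lt
    mask_lt zero_lt' zero_lt' zero_lt', and_mask (h0.trans_lt hb), and_mask (h4.trans_lt hb),
    and_mask (h2.trans_lt hb), and_mask (h6.trans_lt hb)]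
  simp only [Nat.and_zero]

private theorem powW (n : ℕ) : 2 ^ (n * W) = (2 ^ W) ^ n := by rw [mul_comm, pow_mul]

private theorem lft_eq (mask b F : ℕ) :
    lft mask b F = F + Nat.land F mask * (b + 1) := rfl

private theorem rgt_eq {mask b F G H : ℕ} (hb : 0 < b) (h : Nat.land F mask = G)
    (hF : F = b * H + G) : rgt mask b F = F + H * (b + 1) := by
  have h1 : rgt mask b F = F + (F - Nat.land F mask) / b * (b + 1) := rfl
  rw [h1, h]
  have h2 : F - G = b * H := by omega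
  rw [h2, Nat.mul_div_cancel_left _ hb]

theorem lft_maskX {v : V8} {b : ℕ} (h : v.Le b) (hb : b < 2 ^ W) :
    lft maskX bX v.pack = v.xl.pack := by
  rw [lft_eq, land_maskX h hb, nest_eq, V8.pack, V8.pack, V8.xl, bX]
  simp only [powW]
  generalize 2 ^ W = β
  ring

theorem rgt_maskX {v : V8} {b : ℕ} (h : v.Le b) (hb : b < 2 ^ W) :
    rgt maskX bX v.pack = v.xr.pack := by
  rw [rgt_eq (H := nest W v.a4 0 v.a6 0 v.a5 0 v.a7 0) (by unfold bX; positivity)
    (land_maskX h hb) (by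
      rw [nest_eq, nest_eq, V8.pack, bX]
      simp only [powW]
      generalize 2 ^ W = β
      ring), nest_eq, V8.pack, V8.pack, V8.xr, bX]
  simp only [powW]
  generalize 2 ^ W = β
  ring

theorem lft_maskY {v : V8} {b : ℕ} (h : v.Le b) (hb : b < 2 ^ W) :
    lft maskY bY v.pack = v.yl.pack := by
  rw [lft_eq, land_maskY h hb, nest_eq, V8.pack, V8.pack, V8.yl, bY]
  simp only [powW]
  generalize 2 ^ W = β
  ring

theorem rgt_maskY {v : V8} {b : ℕ} (h : v.Le b) (hb : b < 2 ^ W) :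
    rgt maskY bY v.pack = v.yr.pack := by
  rw [rgt_eq (H := nest W v.a2 v.a6 0 0 v.a3 v.a7 0 0) (by unfold bY; positivity)
    (land_maskY h hb) (by
      rw [nest_eq, nest_eq, V8.pack, bY]
      simp only [powW]
      generalize 2 ^ W = β
      ring), nest_eq, V8.pack, V8.pack, V8.yr, bY]
  simp only [powW]
  generalize 2 ^ W = β
  ring

theorem lft_maskZ {v : V8} {b : ℕ} (h : v.Le b) (hb : b < 2 ^ W) :
    lft maskZ bZ v.pack = v.zl.pack := by
  rw [lft_eq, land_maskZ h hb, nest_eq, V8.pack, V8.pack, V8.zl, bZ]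
  simp only [powW]
  generalize 2 ^ W = β
  ring

theorem rgt_maskZ {v : V8} {b : ℕ} (h : v.Le b) (hb : b < 2 ^ W) :
    rgt maskZ bZ v.pack = v.zr.pack := by
  rw [rgt_eq (H := nest W v.a1 v.a5 v.a3 v.a7 0 0 0 0) (by unfold bZ; positivity)
    (land_maskZ h hb) (by
      rw [nest_eq, nest_eq, V8.pack, bZ]
      simp only [powW]
      generalize 2 ^ W = β
      ring), nest_eq, V8.pack, V8.pack, V8.zr, bZ]
  simp only [powW]
  generalize 2 ^ W = β
  ring

end Pool.Agent.MMS6
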