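import Pool.Agent.H59.MMS.Mixing
import Pool.Agent.H59.MMS.Moments

/-!
The linear part of a function of random `b`-subsets.
-/

set_option autoImplicit false
set_option linter.unusedSectionVars false

namespace Pool.Agent.MMS6

open Finset Pool.Agent.H59.MMS

variable {α : Type*} [DecidableEq α]

/-- The influence of avoiding `s`. -/
noncomputable def cc (b : ℕ) (M : Finset α) (g : Finset α → ℝ) (s : α) : ℝ :=
  av b (M.erase s) g - av b M g

/-- The weight of the linear part. -/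
noncomputable def W1 (b : ℕ) (M : Finset α) (g : Finset α → ℝ) : ℝ :=
  (((M.card : ℝ) - b) * (M.card - 1) / b) * ((∑ s ∈ M, cc b M g s ^ 2) / M.card)

/-- The variance. -/
noncomputable def Vr (b : ℕ) (M : Finset α) (g : Finset α → ℝ) : ℝ :=
  av b M (fun B => g B ^ 2) - (av b M g) ^ 2

/-- Use `av_erase_avg`. -/
theorem sum_cc {b : ℕ} {M : Finset α} (hb : b + 1 ≤ M.card) (g : Finset α → ℝ) :
    ∑ s ∈ M, cc b M g s = 0 := by
  sorry

/-- `∑ s ∈ B, y s = ∑ s ∈ M, y s - ∑ s ∈ M \ B, y s` and `av_avoid`. -/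
theorem av_g_lin {b : ℕ} {M : Finset α} (hb : b + 1 ≤ M.card) (g : Finset α → ℝ) (y : α → ℝ) :
    av b M (fun B => (g B - av b M g) * ∑ s ∈ B, y s) =
      -((((M.card : ℝ) - b) / M.card) * ∑ s ∈ M, y s * cc b M g s) := by
  sorry

/-- From `mom2`. -/
theorem av_lin_sq {b : ℕ} {M : Finset α} (hb : b ≤ M.card) (hM : 2 ≤ M.card) {y : α → ℝ}
    (hy : ∑ s ∈ M, y s = 0) :
    av b M (fun B => (∑ s ∈ B, y s) ^ 2) =
      ((b : ℝ) * (M.card - b) / (M.card * (M.card - 1))) * ∑ s ∈ M, y s ^ 2 := by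
  sorry

/-- The square of the distance to the linear part. -/
theorem av_proj {b : ℕ} {M : Finset α} (hb0 : 1 ≤ b) (hb : b + 1 ≤ M.card) (hM : 2 ≤ M.card)
    (g : Finset α → ℝ) :
    av b M (fun B => (g B - av b M g +
      (((M.card : ℝ) - 1) / b) * ∑ s ∈ B, cc b M g s) ^ 2) = Vr b M g - W1 b M g := by
  sorry

theorem W1_nonneg {b : ℕ} {M : Finset α} (hb : b ≤ M.card) (hM : 1 ≤ M.card)
    (g : Finset α → ℝ) : 0 ≤ W1 b M g := by
  sorry

theorem W1_le_Vr {b : ℕ} {M : Finset α} (hb0 : 1 ≤ b) (hb : b + 1 ≤ M.card) (hM : 2 ≤ M.card)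
    (g : Finset α → ℝ) : W1 b M g ≤ Vr b M g := by
  sorry

end Pool.Agent.MMS6
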