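import Pool.Agent.H59.MMS.Mixing
import Pool.Agent.H59.MMS.Moments

/-!
Averages over random `b`-subsets of sums over pairs, and quadratic functions with zero row sums.

Proofs: `av_pair_in` is `av_peel` twice, `av_pair_out` is `av_avoid` twice.
`q2_compl`: by the zero row sums the sum over `s ∈ B, t ∉ B` is `- q2 f B`, and also
`- q2 f (M \ B)`.
`av_q2`: `av_pair_in` with a constant function.
-/

set_option autoImplicit false
set_option linter.unusedSectionVars false

namespace Pool.Agent.MMS6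

open Finset Pool.Agent.H59.MMS

variable {α : Type*} [DecidableEq α]

theorem av_pair_in {b : ℕ} {M : Finset α} (hb : b + 2 ≤ M.card)
    (h : α → α → Finset α → ℝ) :
    av (b + 2) M (fun B => ∑ s ∈ B, ∑ t ∈ B.erase s, h s t ((B.erase s).erase t)) =
      (((b : ℝ) + 2) * (b + 1) / (M.card * (M.card - 1))) *
        ∑ s ∈ M, ∑ t ∈ M.erase s, av b ((M.erase s).erase t) (h s t) := by
  sorry

theorem av_pair_out {b : ℕ} {M : Finset α} (hb : b + 2 ≤ M.card)
    (h : α → α → Finset α → ℝ) :
    av b M (fun B => ∑ s ∈ M \ B, ∑ t ∈ (M \ B).erase s, h s t B) =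
      (((M.card : ℝ) - b) * (M.card - b - 1) / (M.card * (M.card - 1))) *
        ∑ s ∈ M, ∑ t ∈ M.erase s, av b ((M.erase s).erase t) (h s t) := by
  sorry

/-- Symmetric functions of two elements with zero row sums. -/
structure Zero2 (M : Finset α) (f : α → α → ℝ) : Prop where
  symm : ∀ s ∈ M, ∀ t ∈ M, f s t = f t s
  row : ∀ s ∈ M, ∑ t ∈ M.erase s, f s t = 0

/-- The quadratic function of a set. -/
def q2 (f : α → α → ℝ) (B : Finset α) : ℝ := ∑ s ∈ B, ∑ t ∈ B.erase s, f s t

theorem q2_compl {M : Finset α} {f : α → α → ℝ} (hf : Zero2 M f) {B : Finset α} (hB : B ⊆ M) :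
    q2 f (M \ B) = q2 f B := by
  sorry

theorem av_q2 {b : ℕ} {M : Finset α} (hb : b ≤ M.card) (hM : 2 ≤ M.card) (f : α → α → ℝ) :
    av b M (q2 f) = ((b : ℝ) * (b - 1) / (M.card * (M.card - 1))) * q2 f M := by
  sorry

end Pool.Agent.MMS6
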