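import Pool.Agent.MMS6.M2Sq
import Pool.Agent.MMS6.M2Lin

/-!
The quadratic part of a function of random `b`-subsets.

`av_g_q2`: by `q2_compl` one may sum over the pairs outside of `B`, then `av_pair_out` gives
`∑ s, ∑ t, ff s t * ee s t` with `ee s t = av b ((M.erase s).erase t) g - av b M g =
ff s t + ((N-1)/(N-2)) (cc s + cc t)`, and the row sums vanish.
`F_bound`: with `G B = g B - μ + ((N-1)/b) ∑ s ∈ B, cc s` one has `av (G * q2) = κ F`
(`av_g_q2`, `av_lin_q2`), `av G² = Vr - W1` (`av_proj`), `av q2² = 2 c F` (`av_q2_sq`); Cauchy and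
Schwarz (`av_cs`): `κ² F² ≤ (Vr - W1) 2 c F`.
-/

set_option autoImplicit false
set_option linter.unusedSectionVars false

namespace Pool.Agent.MMS6

open Finset Pool.Agent.H59.MMS

variable {α : Type*} [DecidableEq α]

/-- The quadratic part. -/
noncomputable def ff (b : ℕ) (M : Finset α) (g : Finset α → ℝ) (s t : α) : ℝ :=
  av b ((M.erase s).erase t) g - av b M g -
    (((M.card : ℝ) - 1) / (M.card - 2)) * (cc b M g s + cc b M g t)

noncomputable def FF (b : ℕ) (M : Finset α) (g : Finset α → ℝ) : ℝ :=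
  ∑ s ∈ M, ∑ t ∈ M.erase s, ff b M g s t ^ 2

theorem ff_zero {b : ℕ} {M : Finset α} (hb : b + 2 ≤ M.card) (hM : 3 ≤ M.card)
    (g : Finset α → ℝ) : Zero2 M (ff b M g) := by
  sorry

theorem av_g_q2 {b : ℕ} {M : Finset α} (hb : b + 2 ≤ M.card) (hM : 3 ≤ M.card)
    (g : Finset α → ℝ) :
    av b M (fun B => (g B - av b M g) * q2 (ff b M g) B) =
      (((M.card : ℝ) - b) * (M.card - b - 1) / (M.card * (M.card - 1))) * FF b M g := by
  sorry

theorem F_bound {b : ℕ} {M : Finset α} (hb0 : 2 ≤ b) (hb : b + 2 ≤ M.card)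
    (g : Finset α → ℝ) :
    FF b M g ≤ (Vr b M g - W1 b M g) *
      (2 * (b : ℝ) * (b - 1) * M.card * (M.card - 1) /
        ((M.card - b) * (M.card - b - 1) * (M.card - 2) * (M.card - 3))) := by
  sorry

end Pool.Agent.MMS6
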