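import Pool.Agent.MMS6.M2Pair

/-!
Averages of products with quadratic functions with zero row sums.

`av_lin_q2`: `av_peel` (sets `B = insert s B'`), `q2 f (insert s B') = q2 f B' + 2 ∑ u ∈ B', f s u`,
both averages vanish (`av_q2` in `M.erase s`, where `q2 f (M.erase s) = q2 f {s} = 0` by
`q2_compl`, and the row sum).
`av_q2_sq`: write `q2 f B ^ 2 = ∑ s ∈ B, ∑ t ∈ B.erase s, f s t * q2 f B`, `av_pair_in`, expand
`q2 f (insert s (insert t B'))`; the average over `B'` (a random `b`-subset of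
`(M.erase s).erase t`, `N = |M|`) is
`2 f s t - 4 (b / (N - 2)) f s t + 2 (b (b - 1) / ((N - 2) (N - 3))) f s t`
(the last term by `av_q2` and `q2_compl`), which is
`2 (N - b - 2) (N - b - 3) / ((N - 2) (N - 3)) f s t`.
-/

set_option autoImplicit false
set_option linter.unusedSectionVars false

namespace Pool.Agent.MMS6

open Finset Pool.Agent.H59.MMS

variable {α : Type*} [DecidableEq α]

theorem av_lin_q2 {b : ℕ} {M : Finset α} (hb : b ≤ M.card) (hM : 3 ≤ M.card)
    {f : α → α → ℝ} (hf : Zero2 M f) (y : α → ℝ) :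
    av b M (fun B => (∑ s ∈ B, y s) * q2 f B) = 0 := by
  sorry

theorem av_q2_sq {b : ℕ} {M : Finset α} (hb : b + 2 ≤ M.card) (hM : 4 ≤ M.card)
    {f : α → α → ℝ} (hf : Zero2 M f) :
    av (b + 2) M (fun B => q2 f B ^ 2) =
      2 * ((((b : ℝ) + 2) * (b + 1) * (M.card - b - 2) * (M.card - b - 3)) /
        (M.card * (M.card - 1) * (M.card - 2) * (M.card - 3))) *
        ∑ s ∈ M, ∑ t ∈ M.erase s, f s t ^ 2 := by
  sorry

end Pool.Agent.MMS6
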