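import Pool.Agent.MMS6.M2Quad

/-!
The mixing inequality with the weight of the linear part.

Write `N = |M|`, `μ = av b M g`, `μ_s = av b (M.erase s) g`, `μ_st = av b ((M.erase s).erase t) g`,
`c_s = μ_s - μ`, `D = (∑ c_s²) / N`, `C = ∑ c_s²`, `F = FF b M g`, `V = Vr b M g`,
`W = W1 b M g = ((N - b) (N - 1) / b) D`.

`sum_step`: `μ_st - μ_s = f_st + c_s / (N - 2) + ((N - 1) / (N - 2)) c_t`, zero row sums (and
column sums) of `f`, `∑ c = 0`.

`mixing2`: induction on `a`. For `a + 1` by `av_peel'` the left side is the average over `s` of the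
expressions for `M.erase s`, `a`: at most
`(1/N) ∑ (μ_s² + l1' W1(M.erase s) + l2' (Vr(M.erase s) - W1(M.erase s)))` with
`l1' = lam1 a b (N-1)`, `l2' = lam2 a b (N-1)`. Here `(1/N) ∑ μ_s² = μ² + D`,
`(1/N) ∑ Vr(M.erase s) = V - D`,
`(1/N) ∑ W1(M.erase s) = ((N - 1 - b) (N - 2) / (b (N - 1) N)) (F + (N (N - 1) / (N - 2)) N D)`,
`F ≤ (V - W) (2 b (b - 1) N (N - 1) / ((N - b) (N - b - 1) (N - 2) (N - 3)))`, and with
`l1 = lam1 (a+1) b N`, `l2 = lam2 (a+1) b N`, the coefficient identities are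
`D + l2' (W - D) + (l1' - l2') ((N - 1 - b) N / b) D = l1 W` and
`l2' + (l1' - l2') (2 (b - 1) / ((N - b) (N - 3))) = l2`.
-/

set_option autoImplicit false
set_option linter.unusedSectionVars false

namespace Pool.Agent.MMS6

open Finset Pool.Agent.H59.MMS

variable {α : Type*} [DecidableEq α]

/-- The coefficient of the linear part. -/
noncomputable def lam1 (a b N : ℝ) : ℝ := a * b / ((N - a) * (N - b))

/-- The coefficient of the rest. -/
noncomputable def lam2 (a b N : ℝ) : ℝ :=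
  a * b / ((N - a) * (N - b)) * ((a - 1) * (b - 1) / ((N - a - 1) * (N - b - 1)))

theorem sum_step {b : ℕ} {M : Finset α} (hb : b + 2 ≤ M.card) (hM : 3 ≤ M.card)
    (g : Finset α → ℝ) :
    ∑ s ∈ M, ∑ t ∈ M.erase s, cc b (M.erase s) g t ^ 2 =
      FF b M g + ((M.card : ℝ) * (M.card - 1) / (M.card - 2)) * ∑ s ∈ M, cc b M g s ^ 2 := by
  sorry

theorem avg_W1 {b : ℕ} {M : Finset α} (hb0 : 1 ≤ b) (hb : b + 2 ≤ M.card) (hM : 3 ≤ M.card)
    (g : Finset α → ℝ) :
    (∑ s ∈ M, W1 b (M.erase s) g) / M.card =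
      (((M.card : ℝ) - 1 - b) * (M.card - 2) / (b * (M.card - 1) * M.card)) *
        (FF b M g + ((M.card : ℝ) * (M.card - 1) / (M.card - 2)) * ∑ s ∈ M, cc b M g s ^ 2) := by
  sorry

theorem avg_Vr {b : ℕ} {M : Finset α} (hb : b + 1 ≤ M.card) (g : Finset α → ℝ) :
    (∑ s ∈ M, Vr b (M.erase s) g) / M.card =
      Vr b M g - (∑ s ∈ M, cc b M g s ^ 2) / M.card := by
  sorry

/-- **The mixing inequality with the weight of the linear part.** -/
theorem mixing2 (g : Finset α → ℝ) {b : ℕ} (hb0 : 2 ≤ b) : ∀ (a : ℕ) (M : Finset α),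
    a + b + 1 ≤ M.card →
    av a M (fun A => (av b (M \ A) g) ^ 2) - (av b M g) ^ 2 ≤
      lam1 a b M.card * W1 b M g + lam2 a b M.card * (Vr b M g - W1 b M g) := by
  sorry

end Pool.Agent.MMS6
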