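import Pool.Agent.MMS6.Cover

/-!
Real semantics of certificates.

A certificate gives functions `Psi, F` of the sum `u` of a set, `A, B` of `u` and the value of an
element, and `M, L` of the value of an element. For a parameter vector `r` the pair function is
`Rfun r f s t a b`.
-/

set_option autoImplicit false

namespace Pool.Agent.MMS6

/-- The functions of a certificate. `M0 a` and `L0 a` are multiplied by `nu`. -/
structure Fn where
  Psi : ℝ → ℝ
  F : ℝ → ℝ
  A : ℝ → ℝ → ℝ
  B : ℝ → ℝ → ℝ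
  M0 : ℝ → ℝ
  M1 : ℝ → ℝ
  L0 : ℝ → ℝ
  L1 : ℝ → ℝ

/-- Indicator of nonnegative numbers. -/
noncomputable def ind (s : ℝ) : ℝ := if 0 ≤ s then 1 else 0

/-- The half of the pair function belonging to a set with sum `u`, containing an element of value
`a` and not containing an element of value `b`. -/
def Hfun (r : Prm ℝ) (f : Fn) (u a b : ℝ) : ℝ :=
  r.w * (a - b) * f.Psi u - r.nu * (u * f.Psi u) + f.A u a * (r.q * b + r.nu * u) +
    f.B u b * (r.p * a - r.nu * u) + f.F u * (r.p * a ^ 2 + r.q * b ^ 2 - r.nq)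

def kM0 (r : Prm ℝ) (u v : ℝ) : ℝ := r.np * u + (r.nu - r.np) * v - r.t0
def kM1 (r : Prm ℝ) (u v : ℝ) : ℝ := r.p * u + (r.one - r.p) * v - r.t1
def kL0 (r : Prm ℝ) (u : ℝ) : ℝ := r.nu * u - r.g0
def kL1 (r : Prm ℝ) (u : ℝ) : ℝ := r.one * u - r.g1

/-- The terms with `M` and `L` for an element of value `a`; `u` is the indicator for the set
containing it and `v` for the other set. -/
def MLfun (r : Prm ℝ) (f : Fn) (u v a : ℝ) : ℝ :=
  kM0 r u v * f.M0 a + kM1 r u v * f.M1 a + kL0 r u * f.L0 a + kL1 r u * f.L1 a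

/-- The pair function: `s = x(S)`, `t = x(S - i + j)`, `a = x i`, `b = x j`. -/
noncomputable def Rfun (r : Prm ℝ) (f : Fn) (s t a b : ℝ) : ℝ :=
  Hfun r f s a b + Hfun r f t b a + MLfun r f (ind s) (ind t) a + MLfun r f (ind t) (ind s) b

theorem Rfun_symm (r : Prm ℝ) (f : Fn) (s t a b : ℝ) : Rfun r f s t a b = Rfun r f t s b a := by
  unfold Rfun; ring

/-! ### Cells and certificates -/

def Cell.off (c : Cell) : ℝ := sgn (!c.on) * c.o
def Cell.dir (c : Cell) : ℝ := sgn (!c.en)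

/-- The local coordinate of `u`. -/
def Cell.loc (c : Cell) (u : ℝ) : ℝ := c.dir * (u - c.off)

/-- Difference of two natural numbers, as a real number. -/
def df (a b : ℕ) : ℝ := (a : ℝ) - b

/-- Real coefficients of the functions seen from one side. -/
structure SideR where
  (p0 p1 p2 f0 f1 f2 a0 a1 a2 c0 c1 b0 b1 b2 d0 d1 : ℝ)

def Side.dif (P N : Side) : SideR :=
  ⟨df P.p0 N.p0, df P.p1 N.p1, df P.p2 N.p2, df P.f0 N.f0, df P.f1 N.f1, df P.f2 N.f2,
    df P.a0 N.a0, df P.a1 N.a1, df P.a2 N.a2, df P.c0 N.c0, df P.c1 N.c1,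
    df P.b0 N.b0, df P.b1 N.b1, df P.b2 N.b2, df P.d0 N.d0, df P.d1 N.d1⟩

/-- The coefficients of a cell for the signs of the own and the other element. -/
def Cell.side (c : Cell) (own oth : Bool) : SideR := (c.P.side own oth).dif (c.N.side own oth)

/-- The half function in a cell, at the local coordinate `U`; `o` is the offset, `e` the
direction. -/
def SideR.half (g : SideR) (r : Prm ℝ) (o e U a b : ℝ) : ℝ :=
  r.w * (a - b) * (g.p0 + g.p1 * U + g.p2 * U ^ 2) -
    r.nu * ((o + e * U) * (g.p0 + g.p1 * U + g.p2 * U ^ 2)) +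
    (a * (g.a0 + g.a1 * U + g.a2 * U ^ 2) + a ^ 2 * (g.c0 + g.c1 * U)) *
      (r.q * b + r.nu * (o + e * U)) +
    (b * (g.b0 + g.b1 * U + g.b2 * U ^ 2) + b ^ 2 * (g.d0 + g.d1 * U)) *
      (r.p * a - r.nu * (o + e * U)) +
    (g.f0 + g.f1 * U + g.f2 * U ^ 2) * (r.p * a ^ 2 + r.q * b ^ 2 - r.nq)

/-- The functions of a cell. -/
def Cell.psi (c : Cell) (u : ℝ) : ℝ :=
  df c.P.p0 c.N.p0 + df c.P.p1 c.N.p1 * c.loc u + df c.P.p2 c.N.p2 * c.loc u ^ 2
def Cell.fF (c : Cell) (u : ℝ) : ℝ :=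
  df c.P.f0 c.N.f0 + df c.P.f1 c.N.f1 * c.loc u + df c.P.f2 c.N.f2 * c.loc u ^ 2
def Cell.fA (c : Cell) (sa : Bool) (u a : ℝ) : ℝ :=
  a * ((c.side sa true).a0 + (c.side sa true).a1 * c.loc u + (c.side sa true).a2 * c.loc u ^ 2) +
    a ^ 2 * ((c.side sa true).c0 + (c.side sa true).c1 * c.loc u)
def Cell.fB (c : Cell) (sb : Bool) (u b : ℝ) : ℝ :=
  b * ((c.side true sb).b0 + (c.side true sb).b1 * c.loc u + (c.side true sb).b2 * c.loc u ^ 2) +
    b ^ 2 * ((c.side true sb).d0 + (c.side true sb).d1 * c.loc u)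

/-- The first cell of a list whose right end is larger than `u`. -/
noncomputable def pickL : List Cell → Cell → ℝ → Cell
  | [], d, _ => d
  | c :: l, d, u => if u < c.off + c.h then c else pickL l d u

/-- The cell used for `u`. -/
noncomputable def Cert.pick (z : Cert) (u : ℝ) : Cell :=
  if u < z.lo.off then z.lo else pickL z.inner z.hi u

/-- Value of the polynomial without the constant term, at `|a| = X`. -/
def Poly4.rest (P N : Poly4) (X : ℝ) : ℝ :=
  df P.x1 N.x1 * X + df P.x2 N.x2 * X ^ 2 + df P.x3 N.x3 * X ^ 3 + df P.x4 N.x4 * X ^ 4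

/-- The sign of a number, `true` if nonnegative. -/
noncomputable def sg (a : ℝ) : Bool := by classical exact decide (0 ≤ a)

def Cert.m0 (z : Cert) (sa : Bool) : ℝ := bif sa then df z.MpP.x0 z.MpN.x0 else df z.MnP.x0 z.MnN.x0
def Cert.l0 (z : Cert) (sa : Bool) : ℝ := bif sa then df z.LpP.x0 z.LpN.x0 else df z.LnP.x0 z.LnN.x0
def Cert.m1 (z : Cert) (sa : Bool) (X : ℝ) : ℝ :=
  bif sa then Poly4.rest z.MpP z.MpN X else Poly4.rest z.MnP z.MnN X
def Cert.l1 (z : Cert) (sa : Bool) (X : ℝ) : ℝ :=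
  bif sa then Poly4.rest z.LpP z.LpN X else Poly4.rest z.LnP z.LnN X

/-- The functions of a certificate. -/
noncomputable def Cert.fn (z : Cert) : Fn where
  Psi u := (z.pick u).psi u
  F u := (z.pick u).fF u
  A u a := (z.pick u).fA (sg a) u a
  B u b := (z.pick u).fB (sg b) u b
  M0 a := z.m0 (sg a)
  M1 a := z.m1 (sg a) |a|
  L0 a := z.l0 (sg a)
  L1 a := z.l1 (sg a) |a|

/-- The pair function with fixed cells `I` (for `s`) and `J` (for `t`) and signs of `a`, `b`, in
local coordinates `S`, `T` and absolute values `X = |a|`, `Y = |b|`. -/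
def Rcell (z : Cert) (r : Prm ℝ) (I J : Cell) (sa sb : Bool) (S T X Y : ℝ) : ℝ :=
  (I.side sa sb).half r I.off I.dir S (sgn sa * X) (sgn sb * Y) +
  (J.side sb sa).half r J.off J.dir T (sgn sb * Y) (sgn sa * X) +
  (kM0 r (bif I.i then 1 else 0) (bif J.i then 1 else 0) * z.m0 sa +
    kM1 r (bif I.i then 1 else 0) (bif J.i then 1 else 0) * z.m1 sa X +
    kL0 r (bif I.i then 1 else 0) * z.l0 sa + kL1 r (bif I.i then 1 else 0) * z.l1 sa X) +
  (kM0 r (bif J.i then 1 else 0) (bif I.i then 1 else 0) * z.m0 sb +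
    kM1 r (bif J.i then 1 else 0) (bif I.i then 1 else 0) * z.m1 sb Y +
    kL0 r (bif J.i then 1 else 0) * z.l0 sb + kL1 r (bif J.i then 1 else 0) * z.l1 sb Y)

/-- The parameter vector as a vector of real numbers. -/
def Prm.re (r : Prm ℕ) : Prm ℝ := r.map (fun n : ℕ => (n : ℝ))

theorem sgn_sq (b : Bool) : sgn b * sgn b = 1 := by cases b <;> norm_num [sgn]

theorem Cell.off_dir (c : Cell) (u : ℝ) : c.off + c.dir * c.loc u = u := by
  unfold Cell.loc Cell.dir
  have := sgn_sq (!c.en)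
  linear_combination (u - c.off) * this

theorem sgn_sg (a : ℝ) : sgn (sg a) * |a| = a := by
  sorry

/-- The half function of the certificate is the one of the picked cell. -/
theorem Hfun_eq (z : Cert) (r : Prm ℝ) (u a b : ℝ) :
    Hfun r z.fn u a b = ((z.pick u).side (sg a) (sg b)).half r (z.pick u).off (z.pick u).dir
      ((z.pick u).loc u) a b := by
  sorry

/-- The pair function of the certificate is the one of the picked cells. -/
theorem Rfun_eq_Rcell (z : Cert) (r : Prm ℝ) (s t a b : ℝ)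
    (his : (bif (z.pick s).i then (1 : ℝ) else 0) = ind s)
    (hit : (bif (z.pick t).i then (1 : ℝ) else 0) = ind t) :
    Rfun r z.fn s t a b =
      Rcell z r (z.pick s) (z.pick t) (sg a) (sg b) ((z.pick s).loc s) ((z.pick t).loc t)
        |a| |b| := by
  sorry

end Pool.Agent.MMS6
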