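import Pool.Agent.MMS6.Tri
import Pool.Agent.MMS6.Sem
import Pool.Agent.H59.MMS.Cases

/-!
The pair average: nonnegativity of the pair function implies the lower bound for the fraction of
nonnegative sums.
-/

set_option autoImplicit false
set_option linter.unusedSectionVars false

namespace Pool.Agent.MMS6

open Finset Pool.Agent.H59.MMS

variable {α : Type*} [DecidableEq α]

/-- The parameter vector with `p = 1 / s`, `nu = κ / s`, targets `τ`, `γ` and the sum of squares
`Q`. Later `s = N / (k + 1)` and `κ = 1 / (k + 1)`. -/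
noncomputable def prmOf (s κ τ γ Q : ℝ) : Prm ℝ :=
  ⟨1, 1 / s, 1 - 1 / s, 1 / s * (1 - 1 / s), κ / s, κ / s * (1 / s), τ, κ / s * τ, γ, κ / s * γ,
    κ / s * Q⟩

/-- The half functions have average zero: for every set `S` the sum over `i ∈ S`, `j ∉ S`
vanishes. Here `s = N / (k + 1)`, `κ / s = 1 / N`, `1 / s = (k + 1) / N`. -/
theorem sum_H {k : ℕ} {V : Finset α} (hk : k + 2 ≤ V.card) {x : α → ℝ}
    (hx : ∑ i ∈ V, x i = 0) {Q : ℝ} (hQ : ∑ i ∈ V, x i ^ 2 = Q) (τ γ : ℝ) (f : Fn)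
    {S : Finset α} (hS : S ⊆ V) (hc : S.card = k + 1) :
    ∑ i ∈ S, ∑ j ∈ V \ S,
      Hfun (prmOf (V.card / (k + 1)) (1 / (k + 1)) τ γ Q) f (∑ l ∈ S, x l) (x i) (x j) = 0 := by
  have hN : (0 : ℝ) < V.card := by
    have : 0 < V.card := by omega
    exact_mod_cast this
  have hk1 : (0 : ℝ) < (k : ℝ) + 1 := by positivity
  have hcS : (S.card : ℝ) = (k : ℝ) + 1 := by
    rw [hc]; push_cast; ring
  have hcT : ((V \ S).card : ℝ) = (V.card : ℝ) - (k + 1) := by
    rw [Finset.card_sdiff_of_subset hS, Nat.cast_sub (Finset.card_le_card hS), hcS]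
  have hsum : ∑ j ∈ V \ S, x j = - ∑ i ∈ S, x i := by
    have := Finset.sum_sdiff (f := x) hS
    rw [hx] at this
    linarith
  have hsq : ∑ j ∈ V \ S, x j ^ 2 = Q - ∑ i ∈ S, x i ^ 2 := by
    have := Finset.sum_sdiff (f := fun i => x i ^ 2) hS
    rw [hQ] at this
    linarith
  set N : ℝ := (V.card : ℝ) with hNdef
  set u : ℝ := ∑ l ∈ S, x l with hu
  set m : ℝ := (k : ℝ) + 1 with hm
  have hp : (1 : ℝ) / (N / m) = m / N := by
    rw [one_div, inv_div]
  have hnu : (1 : ℝ) / m / (N / m) = 1 / N := by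
    field_simp
  have hH : ∀ i j, Hfun (prmOf (N / m) (1 / m) τ γ Q) f u (x i) (x j) =
      (m / N * (1 - m / N) * f.Psi u) * x i + (-(m / N * (1 - m / N) * f.Psi u)) * x j
      + (-(1 / N * (u * f.Psi u)))
      + (1 - m / N) * (f.A u (x i) * x j) + (1 / N * u) * f.A u (x i)
      + m / N * (f.B u (x j) * x i) + (-(1 / N * u)) * f.B u (x j)
      + (f.F u * (m / N)) * x i ^ 2 + (f.F u * (1 - m / N)) * x j ^ 2
      + (-(f.F u * (1 / N * Q))) := by
    intro i j
    simp only [Hfun, prmOf, hp, hnu]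
    ring
  simp only [hH, Finset.sum_add_distrib, ← Finset.mul_sum, ← Finset.sum_mul, Finset.sum_const,
    nsmul_eq_mul, hsum, hsq, hcS, hcT, ← hu]
  field_simp
  ring

end Pool.Agent.MMS6
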