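import Pool.Agent.MMS6.Pair

/-!
The pair average: nonnegativity of the pair function implies the lower bound for the fraction of
nonnegative sums.

`tri_R`: unfold `Rfun`; the two halves are exchanged by `tri_swap` (note that
`insert i ((insert j (S.erase i)).erase j) = S`), the same holds for the two `MLfun` terms; the
half functions sum to zero by `sum_H`; `MLfun` of the vector `prmOf s κ τ γ Q` is
`((1/s) u + (1 - 1/s) v - τ) (κ/s * M0 + M1) + (u - γ) (κ/s * L0 + L1)`, use `tri_M`, `tri_L`.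
`pair_sound`: all terms of `tri` are nonnegative, divide by the positive factor; the second sum is
nonpositive, the sum of `M` is positive. `lb_of_pair`: `LB.of_normalized` and scaling by `√Q`.
-/

set_option autoImplicit false
set_option linter.unusedSectionVars false

namespace Pool.Agent.MMS6

open Finset Pool.Agent.H59.MMS

variable {α : Type*} [DecidableEq α]

/-- The total over all pairs. -/
theorem tri_R {k : ℕ} {V : Finset α} (hk : k + 2 ≤ V.card) {x : α → ℝ}
    (hx : ∑ i ∈ V, x i = 0) {Q : ℝ} (hQ : ∑ i ∈ V, x i ^ 2 = Q) (τ γ : ℝ) (f : Fn) :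
    tri k V (fun S i j => Rfun (prmOf (V.card / (k + 1)) (1 / (k + 1)) τ γ Q) f (∑ l ∈ S, x l)
        (∑ l ∈ insert j (S.erase i), x l) (x i) (x j)) =
      2 * (((V.card : ℝ) - (k + 1)) * (((V.card - 1).choose k : ℕ) : ℝ)) *
        ((av (k + 1) V (nn x) - τ) * ∑ i ∈ V, (1 / V.card * f.M0 (x i) + f.M1 (x i)) +
          ∑ i ∈ V, (1 / V.card * f.L0 (x i) + f.L1 (x i)) *
            (1 - av k (V.erase i) (bad x i) - γ)) := by
  have hN : (0 : ℝ) < V.card := by
    have : 0 < V.card := by omega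
    exact_mod_cast this
  have hk1 : (0 : ℝ) < (k : ℝ) + 1 := by positivity
  have hp : (1 : ℝ) / ((V.card : ℝ) / (k + 1)) = (k + 1) / V.card := by
    rw [one_div, inv_div]
  have hnu : (1 : ℝ) / (k + 1) / ((V.card : ℝ) / (k + 1)) = 1 / V.card := by
    field_simp
  set r := prmOf (V.card / (k + 1)) (1 / (k + 1)) τ γ Q with hr
  have hback : ∀ {S : Finset α} {i j : α}, i ∈ S → j ∉ S →
      insert i ((insert j (S.erase i)).erase j) = S := by
    intro S i j hi hj
    rw [Finset.erase_insert (fun h => hj (Finset.mem_of_mem_erase h)), Finset.insert_erase hi]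
  have hML : ∀ u v a : ℝ, MLfun r f u v a =
      (((k + 1 : ℝ) / V.card) * u + (1 - (k + 1 : ℝ) / V.card) * v - τ) *
        (1 / V.card * f.M0 a + f.M1 a) + (u - γ) * (1 / V.card * f.L0 a + f.L1 a) := by
    intro u v a
    simp only [MLfun, kM0, kM1, kL0, kL1, hr, prmOf, hp, hnu]
    ring
  have hH : tri k V (fun S i j => Hfun r f (∑ l ∈ S, x l) (x i) (x j)) = 0 := by
    unfold tri
    refine Finset.sum_eq_zero fun S hS => ?_
    rw [Finset.mem_powersetCard] at hS
    exact sum_H hk hx hQ τ γ f hS.1 hS.2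
  have hH2 : tri k V (fun S i j =>
      Hfun r f (∑ l ∈ insert j (S.erase i), x l) (x j) (x i)) = 0 := by
    rw [← hH]
    exact tri_swap k V (fun S i j => Hfun r f (∑ l ∈ S, x l) (x i) (x j))
  have hM1 : tri k V (fun S i j => MLfun r f (ind (∑ l ∈ S, x l))
      (ind (∑ l ∈ insert j (S.erase i), x l)) (x i)) =
      ((V.card : ℝ) - (k + 1)) * (((V.card - 1).choose k : ℕ) : ℝ) *
        ((av (k + 1) V (nn x) - τ) * ∑ i ∈ V, (1 / V.card * f.M0 (x i) + f.M1 (x i)) +
          ∑ i ∈ V, (1 / V.card * f.L0 (x i) + f.L1 (x i)) *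
            (1 - av k (V.erase i) (bad x i) - γ)) := by
    simp only [hML]
    rw [tri_add]
    have e1 := tri_M (k := k) (V := V) (by omega) (nn x)
      (fun i => 1 / (V.card : ℝ) * f.M0 (x i) + f.M1 (x i)) τ
    have e2 := tri_L (k := k) (V := V) (by omega) (nn x)
      (fun i => 1 / (V.card : ℝ) * f.L0 (x i) + f.L1 (x i)) γ
    have e3 : ∀ i ∈ V, av k (V.erase i) (fun S => nn x (insert i S)) =
        1 - av k (V.erase i) (bad x i) := by
      intro i hi
      rw [av_congr (G := fun S => 1 - bad x i S), av_sub,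
        av_const (by rw [Finset.card_erase_of_mem hi]; omega)]
      intro S hS _
      unfold nn bad
      rw [sum_insert_of_sub hS x]
      by_cases h : x i + ∑ j ∈ S, x j < 0
      · simp [h]
      · simp [h, not_lt.1 h]
    rw [Finset.sum_congr rfl (fun i hi => by rw [e3 i hi])] at e2
    have e1' : tri k V (fun S i j => (((k + 1 : ℝ) / V.card) * ind (∑ l ∈ S, x l) +
        (1 - (k + 1 : ℝ) / V.card) * ind (∑ l ∈ insert j (S.erase i), x l) - τ) *
        (1 / V.card * f.M0 (x i) + f.M1 (x i))) = _ := e1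
    have e2' : tri k V (fun S i j => (ind (∑ l ∈ S, x l) - γ) *
        (1 / V.card * f.L0 (x i) + f.L1 (x i))) = _ := e2
    rw [e1', e2']
    ring
  have hM2 : tri k V (fun S i j => MLfun r f (ind (∑ l ∈ insert j (S.erase i), x l))
      (ind (∑ l ∈ S, x l)) (x j)) =
      tri k V (fun S i j => MLfun r f (ind (∑ l ∈ S, x l))
      (ind (∑ l ∈ insert j (S.erase i), x l)) (x i)) := by
    rw [← tri_swap k V (fun S i j => MLfun r f (ind (∑ l ∈ S, x l))
      (ind (∑ l ∈ insert j (S.erase i), x l)) (x i))]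
    unfold tri
    refine Finset.sum_congr rfl fun S hS => Finset.sum_congr rfl fun i hi =>
      Finset.sum_congr rfl fun j hj => ?_
    simp only [hback hi (Finset.mem_sdiff.1 hj).2]
  have hall : tri k V (fun S i j => Rfun r f (∑ l ∈ S, x l)
        (∑ l ∈ insert j (S.erase i), x l) (x i) (x j)) =
      tri k V (fun S i j => Hfun r f (∑ l ∈ S, x l) (x i) (x j)) +
      tri k V (fun S i j => Hfun r f (∑ l ∈ insert j (S.erase i), x l) (x j) (x i)) +
      tri k V (fun S i j => MLfun r f (ind (∑ l ∈ S, x l))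
        (ind (∑ l ∈ insert j (S.erase i), x l)) (x i)) +
      tri k V (fun S i j => MLfun r f (ind (∑ l ∈ insert j (S.erase i), x l))
        (ind (∑ l ∈ S, x l)) (x j)) := by
    rw [← tri_add, ← tri_add, ← tri_add]
    rfl
  rw [hall, hH, hH2, hM2, hM1]
  ring

/-- **The pair average.** -/
theorem pair_sound {k : ℕ} {V : Finset α} (hk : k + 2 ≤ V.card) {x : α → ℝ}
    (hx : ∑ i ∈ V, x i = 0) {Q τ γ : ℝ} (hQ : ∑ i ∈ V, x i ^ 2 = Q) (hQ0 : 0 < Q) {f : Fn}
    (hR : ∀ s t a b : ℝ, a - b = s - t → a ^ 2 + b ^ 2 ≤ Q →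
      0 ≤ Rfun (prmOf (V.card / (k + 1)) (1 / (k + 1)) τ γ Q) f s t a b)
    (hM0 : ∀ a : ℝ, a ^ 2 ≤ Q → 0 ≤ 1 / V.card * f.M0 a + f.M1 a)
    (hM1 : ∀ a : ℝ, a ^ 2 ≤ Q → a ≠ 0 → 0 < 1 / V.card * f.M0 a + f.M1 a)
    (hL : ∀ a : ℝ, a ^ 2 ≤ Q → 0 ≤ 1 / V.card * f.L0 a + f.L1 a)
    (hg : ∀ i ∈ V, 1 - γ ≤ av k (V.erase i) (bad x i)) :
    τ ≤ av (k + 1) V (nn x) := by
  have hN2 : (k : ℝ) + 2 ≤ V.card := by exact_mod_cast hk
  have hC1 : (0 : ℝ) < (V.card : ℝ) - (k + 1) := by linarith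
  have hC2 : (0 : ℝ) < (((V.card - 1).choose k : ℕ) : ℝ) := by
    exact_mod_cast Nat.choose_pos (by omega)
  have hC := mul_pos hC1 hC2
  have htri := tri_R hk hx hQ τ γ f
  have h0 : 0 ≤ tri k V (fun S i j => Rfun (prmOf (V.card / (k + 1)) (1 / (k + 1)) τ γ Q) f
      (∑ l ∈ S, x l) (∑ l ∈ insert j (S.erase i), x l) (x i) (x j)) := by
    unfold tri
    refine Finset.sum_nonneg fun S hS => Finset.sum_nonneg fun i hi =>
      Finset.sum_nonneg fun j hj => ?_
    have hSV := (Finset.mem_powersetCard.1 hS).1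
    obtain ⟨hjV, hjS⟩ := Finset.mem_sdiff.1 hj
    have hij : i ≠ j := fun h => hjS (h ▸ hi)
    refine hR _ _ _ _ ?_ ?_
    · rw [Finset.sum_insert (fun h => hjS (Finset.mem_of_mem_erase h)),
        ← Finset.add_sum_erase S x hi]
      ring
    · rw [← hQ]
      have h1 : ({i, j} : Finset α) ⊆ V := by
        intro z hz
        rw [Finset.mem_insert, Finset.mem_singleton] at hz
        rcases hz with rfl | rfl
        · exact hSV hi
        · exact hjV
      have h2 := Finset.sum_le_sum_of_subset_of_nonneg (f := fun l => x l ^ 2) h1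
        (fun l _ _ => sq_nonneg _)
      rw [Finset.sum_pair hij] at h2
      exact h2
  have hsq : ∀ i ∈ V, x i ^ 2 ≤ Q := by
    intro i hi
    rw [← hQ]
    exact Finset.single_le_sum (f := fun l => x l ^ 2) (fun l _ => sq_nonneg _) hi
  have hLs : ∑ i ∈ V, (1 / (V.card : ℝ) * f.L0 (x i) + f.L1 (x i)) *
      (1 - av k (V.erase i) (bad x i) - γ) ≤ 0 := by
    refine Finset.sum_nonpos fun i hi => ?_
    refine mul_nonpos_of_nonneg_of_nonpos (hL _ (hsq i hi)) ?_
    have := hg i hi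
    linarith
  have hMs : 0 < ∑ i ∈ V, (1 / (V.card : ℝ) * f.M0 (x i) + f.M1 (x i)) := by
    have hne : ∃ i ∈ V, x i ≠ 0 := by
      by_contra hcon
      push Not at hcon
      have : ∑ i ∈ V, x i ^ 2 = 0 := Finset.sum_eq_zero fun i hi => by rw [hcon i hi]; norm_num
      linarith
    obtain ⟨i, hi, hi0⟩ := hne
    exact Finset.sum_pos' (fun l hl => hM0 _ (hsq l hl)) ⟨i, hi, hM1 _ (hsq i hi) hi0⟩
  rw [htri] at h0
  have h1 : 0 ≤ (av (k + 1) V (nn x) - τ) *
      ∑ i ∈ V, (1 / (V.card : ℝ) * f.M0 (x i) + f.M1 (x i)) +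
      ∑ i ∈ V, (1 / (V.card : ℝ) * f.L0 (x i) + f.L1 (x i)) *
        (1 - av k (V.erase i) (bad x i) - γ) :=
    nonneg_of_mul_nonneg_right h0 (by positivity)
  have h2 : 0 ≤ (av (k + 1) V (nn x) - τ) *
      ∑ i ∈ V, (1 / (V.card : ℝ) * f.M0 (x i) + f.M1 (x i)) := by linarith
  have h3 := nonneg_of_mul_nonneg_left h2 hMs
  linarith

/-- The bound for all weight systems. The hypothesis `hg` may assume that the bound fails. -/
theorem lb_of_pair {k N : ℕ} (hk : k + 2 ≤ N) {Q τ γ : ℝ} (hQ0 : 0 < Q) (hτ : τ ≤ 1) {f : Fn}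
    (hR : ∀ s t a b : ℝ, a - b = s - t → a ^ 2 + b ^ 2 ≤ Q →
      0 ≤ Rfun (prmOf (N / (k + 1)) (1 / (k + 1)) τ γ Q) f s t a b)
    (hM0 : ∀ a : ℝ, a ^ 2 ≤ Q → 0 ≤ 1 / (N : ℝ) * f.M0 a + f.M1 a)
    (hM1 : ∀ a : ℝ, a ^ 2 ≤ Q → a ≠ 0 → 0 < 1 / (N : ℝ) * f.M0 a + f.M1 a)
    (hL : ∀ a : ℝ, a ^ 2 ≤ Q → 0 ≤ 1 / (N : ℝ) * f.L0 a + f.L1 a)
    (hg : ∀ (V : Finset α) (x : α → ℝ), V.card = N → ∑ i ∈ V, x i = 0 →
      av (k + 1) V (nn x) < τ → ∀ i ∈ V, 1 - γ ≤ av k (V.erase i) (bad x i)) :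
    LB α (k + 1) N τ := by
  refine LB.of_normalized (by omega) (by omega) hτ ?_
  intro V x hV hx hx2
  by_contra hcon
  push Not at hcon
  have hs0 : 0 < Real.sqrt Q := Real.sqrt_pos.2 hQ0
  have hss : Real.sqrt Q ^ 2 = Q := Real.sq_sqrt hQ0.le
  set y : α → ℝ := fun i => Real.sqrt Q * x i with hy
  have hy1 : ∑ i ∈ V, y i = 0 := by
    simp only [hy]
    rw [← Finset.mul_sum, hx, mul_zero]
  have hy2 : ∑ i ∈ V, y i ^ 2 = Q := by
    simp only [hy, mul_pow]
    rw [← Finset.mul_sum, hx2, mul_one, hss]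
  have hnn : av (k + 1) V (nn y) = av (k + 1) V (nn x) := by
    refine av_congr fun S _ _ => ?_
    unfold nn
    have : (0 ≤ ∑ i ∈ S, y i) ↔ (0 ≤ ∑ i ∈ S, x i) := by
      simp only [hy]
      rw [← Finset.mul_sum]
      exact mul_nonneg_iff_of_pos_left hs0
    simp only [this]
  subst hV
  have := pair_sound (x := y) (f := f) hk hy1 hy2 hQ0 hR hM0 hM1 hL
    (hg V y rfl hy1 (by rw [hnn]; exact hcon))
  rw [hnn] at this
  exact absurd this (not_le.2 hcon)

end Pool.Agent.MMS6
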