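import Pool.Agent.H59.MMS.Mixing
import Pool.Agent.H59.MMS.Basic

/-!
Sums over triples `(S, i, j)` with `i ∈ S`, `j ∉ S`.
-/

set_option autoImplicit false
set_option linter.unusedSectionVars false

namespace Pool.Agent.MMS6

open Finset Pool.Agent.H59.MMS

variable {α : Type*} [DecidableEq α]

/-- Sum over all `(k + 1)`-subsets `S` of `V`, `i ∈ S`, `j ∈ V \ S`. -/
def tri (k : ℕ) (V : Finset α) (F : Finset α → α → α → ℝ) : ℝ :=
  ∑ S ∈ V.powersetCard (k + 1), ∑ i ∈ S, ∑ j ∈ V \ S, F S i j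

theorem tri_add (k : ℕ) (V : Finset α) (F G : Finset α → α → α → ℝ) :
    tri k V (fun S i j => F S i j + G S i j) = tri k V F + tri k V G := by
  simp only [tri, Finset.sum_add_distrib]

/-- The involution `(S, i, j) ↦ (S - i + j, j, i)`. Use `Finset.sum_sigma'` and
`Finset.sum_bij'`, or `Finset.sum_comm'`. -/
theorem tri_swap (k : ℕ) (V : Finset α) (G : Finset α → α → α → ℝ) :
    tri k V (fun S i j => G (insert j (S.erase i)) j i) = tri k V G := by
  sorry

/-- A function of `S` and `i ∈ S`, resolved by `i`. -/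
theorem tri_left (k : ℕ) (V : Finset α) (u : Finset α → ℝ) (M : α → ℝ) :
    tri k V (fun S i _ => u S * M i) =
      ((V.card : ℝ) - (k + 1)) *
        ∑ i ∈ V, M i * ∑ S ∈ (V.erase i).powersetCard k, u (insert i S) := by
  sorry

/-- A function of `S - i + j` and `i`, resolved by `i`. -/
theorem tri_right (k : ℕ) (V : Finset α) (u : Finset α → ℝ) (M : α → ℝ) :
    tri k V (fun S i j => u (insert j (S.erase i)) * M i) =
      (k + 1) * ∑ i ∈ V, M i * ∑ S ∈ (V.erase i).powersetCard (k + 1), u S := by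
  sorry

theorem tri_const (k : ℕ) (V : Finset α) (M : α → ℝ) :
    tri k V (fun _ i _ => M i) =
      ((V.card : ℝ) - (k + 1)) * (((V.card - 1).choose k : ℕ) : ℝ) * ∑ i ∈ V, M i := by
  sorry

/-- The sets containing `i` and the ones not containing `i`. -/
theorem sum_split (k : ℕ) (V : Finset α) {i : α} (hi : i ∈ V) (u : Finset α → ℝ) :
    ∑ S ∈ V.powersetCard (k + 1), u S =
      ∑ S ∈ (V.erase i).powersetCard (k + 1), u S +
        ∑ S ∈ (V.erase i).powersetCard k, u (insert i S) := by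
  sorry

/-- The terms with `M`: with `p = (k + 1) / N` and `q = 1 - p` the average is
`(P - τ)` times the average of `M`. -/
theorem tri_M {k : ℕ} {V : Finset α} (hk : k + 1 ≤ V.card) (u : Finset α → ℝ) (M : α → ℝ)
    (τ : ℝ) :
    tri k V (fun S i j => (((k + 1 : ℝ) / V.card) * u S +
        (1 - (k + 1 : ℝ) / V.card) * u (insert j (S.erase i)) - τ) * M i) =
      ((V.card : ℝ) - (k + 1)) * (((V.card - 1).choose k : ℕ) : ℝ) *
        ((av (k + 1) V u - τ) * ∑ i ∈ V, M i) := by
  sorry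

/-- The terms with `L`. -/
theorem tri_L {k : ℕ} {V : Finset α} (hk : k + 1 ≤ V.card) (u : Finset α → ℝ) (L : α → ℝ)
    (γ : ℝ) :
    tri k V (fun S i _ => (u S - γ) * L i) =
      ((V.card : ℝ) - (k + 1)) * (((V.card - 1).choose k : ℕ) : ℝ) *
        ∑ i ∈ V, L i * (av k (V.erase i) (fun S => u (insert i S)) - γ) := by
  sorry

end Pool.Agent.MMS6
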